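import Pool.Agent.Run7.h969.Dz.En
import Pool.Agent.Run7.h32.Dy.WP

/-!
The dyadic model for real data: higher regularity and smoothing (helper969).
-/

set_option autoImplicit false

open Set Filter Topology

namespace Run7.h969.Dz

open Run7.h969.Dy

/-- One step of the recursion. -/
theorem step2 {β ν P M : ℝ} {x : ℕ → ℝ} {X : ℕ → ℝ → ℝ} (hν : 0 < ν) (hX : IsDy β ν x X) (m : ℕ)
    (hsmall : ∀ t, 0 ≤ t → ((2 : ℝ) ^ β) ^ (m + 1) * |X (m + 2) t| ≤ ν / 2 * 4 ^ (m + 1))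
    (hP : ∀ t, 0 ≤ t → ((2 : ℝ) ^ β) ^ m * X m t ^ 2 ≤ ν / 2 * 4 ^ (m + 1) * P) (hP0 : 0 ≤ P)
    (hM : 0 ≤ M) (h0 : |X (m + 1) 0| ≤ P + M) :
    ∀ t, 0 ≤ t → |X (m + 1) t| ≤ P + M * Real.exp (-(ν / 2 * 4 ^ (m + 1) * t)) := by
  intro t ht
  have hB0 : (0 : ℝ) < 2 ^ β := Real.rpow_pos_of_pos two_pos _
  have h4 : (2 : ℝ) ^ (β * ((m : ℝ) + 1)) = ((2 : ℝ) ^ β) ^ (m + 1) := by
    have := pow_mul_nat β (m + 1)
    rw [Nat.cast_add, Nat.cast_one] at this
    exact this
  refine decay2 (f := X (m + 1)) (g := fun s => ((2 : ℝ) ^ β) ^ m * X m s ^ 2)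
    (a := fun s => ((2 : ℝ) ^ β) ^ (m + 1) * X (m + 2) s + ν * 4 ^ (m + 1)) (T := t)
    (fun s hs => ?_) ?_ (fun s hs => by positivity) (fun s hs => hP s hs.1) (fun s hs => ?_)
    (by positivity) hP0 hM h0 t ⟨ht, le_rfl⟩
  · refine (Pool.Agent.Run7.h32.Dy.dy_dw' hX (m + 1) hs).congr_deriv ?_
    show (2 : ℝ) ^ (β * m) * X m s ^ 2
        - (2 : ℝ) ^ (β * ((m : ℝ) + 1)) * (X (m + 1) s * X (m + 2) s)
        - ν * 4 ^ (m + 1) * X (m + 1) s = _
    rw [h4, pow_mul_nat]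
    ring
  · exact (continuousOn_const.mul ((hX.cont (m + 2)).mono fun s hs => hs.1)).add
      continuousOn_const
  · have h1 := hsmall s hs.1
    have h2 : ((2 : ℝ) ^ β) ^ (m + 1) * -|X (m + 2) s| ≤ ((2 : ℝ) ^ β) ^ (m + 1) * X (m + 2) s :=
      mul_le_mul_of_nonneg_left (neg_abs_le _) (by positivity)
    linarith

/-- The smallness of the high shells. -/
lemma small_ev {β ν s C : ℝ} (hν : 0 < ν) (hs : β - 2 < s) (hC : 0 ≤ C) (A : ℝ) :
    ∃ n₀ : ℕ, ∀ n ≥ n₀, ((2 : ℝ) ^ β) ^ n * (C / ((2 : ℝ) ^ s) ^ n) * A < ν / 2 * 4 ^ n := by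
  obtain ⟨B, hB⟩ : ∃ B : ℝ, B = 2 ^ β := ⟨_, rfl⟩
  obtain ⟨q, hq⟩ : ∃ q : ℝ, q = 2 ^ s := ⟨_, rfl⟩
  have hB0 : 0 < B := by rw [hB]; exact Real.rpow_pos_of_pos two_pos _
  have hq0 : 0 < q := by rw [hq]; exact Real.rpow_pos_of_pos two_pos _
  rw [← hB, ← hq]
  have hσ : B / (4 * q) < 1 := by
    rw [div_lt_one (by positivity), hB, hq]
    have h1 : (4 : ℝ) * 2 ^ s = 2 ^ (2 + s) := by
      rw [Real.rpow_add two_pos]
      norm_num
    rw [h1]
    exact Real.rpow_lt_rpow_of_exponent_lt (by norm_num) (by linarith)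
  have hσ0 : 0 < B / (4 * q) := by positivity
  have h1 : Tendsto (fun n : ℕ => C * A * (B / (4 * q)) ^ n) atTop (𝓝 0) := by
    have := (tendsto_pow_atTop_nhds_zero_of_lt_one hσ0.le hσ).const_mul (C * A)
    simpa using this
  obtain ⟨n₀, hn₀⟩ := eventually_atTop.1 (h1.eventually (gt_mem_nhds (by positivity : 0 < ν / 2)))
  refine ⟨n₀, fun n hn => ?_⟩
  have h2 := hn₀ n hn
  have h3 : B ^ n * (C / q ^ n) * A = C * A * (B / (4 * q)) ^ n * 4 ^ n := by
    rw [div_pow, mul_pow]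
    field_simp
  rw [h3]
  exact mul_lt_mul_of_pos_right h2 (by positivity)

theorem stmD : StmD := by
  intro β ν s C r K x X hν hs hX hXs hK
  obtain ⟨B, hB⟩ : ∃ B : ℝ, B = 2 ^ β := ⟨_, rfl⟩
  obtain ⟨q, hq⟩ : ∃ q : ℝ, q = 2 ^ s := ⟨_, rfl⟩
  obtain ⟨R, hR⟩ : ∃ R : ℝ, R = 2 ^ r := ⟨_, rfl⟩
  have hB0 : 0 < B := by rw [hB]; exact Real.rpow_pos_of_pos two_pos _
  have hq0 : 0 < q := by rw [hq]; exact Real.rpow_pos_of_pos two_pos _
  have hR0 : 0 < R := by rw [hR]; exact Real.rpow_pos_of_pos two_pos _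
  have hC0 : 0 ≤ C := by
    have h1 := hXs 0 0 le_rfl
    simp only [Nat.cast_zero, mul_zero, Real.rpow_zero, one_mul] at h1
    exact (abs_nonneg _).trans h1
  have hXs' : ∀ (n : ℕ) t, 0 ≤ t → |X n t| ≤ C / q ^ n := by
    intro n t ht
    have := hXs n t ht
    rw [pow_mul_nat, ← hq] at this
    rw [le_div_iff₀ (by positivity), mul_comm]
    exact this
  have hK' : ∀ n : ℕ, R ^ n * |x n| ≤ K := by
    intro n
    have := hK n
    rwa [pow_mul_nat, ← hR] at this
  obtain ⟨n₁, hn₁⟩ := small_ev (β := β) hν hs hC0 (1 / q)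
  obtain ⟨n₂, hn₂⟩ := small_ev (β := β) hν hs hC0 (R / 4)
  rw [← hB, ← hq] at hn₁ hn₂
  obtain ⟨n₀, hn₀⟩ : ∃ n₀, n₀ = max n₁ n₂ := ⟨_, rfl⟩
  -- the constant
  obtain ⟨C', hC'⟩ : ∃ C', C' = max K (∑ n ∈ Finset.range (n₀ + 1), R ^ n * (C / q ^ n)) := ⟨_, rfl⟩
  have hsmall : ∀ n ≤ n₀, ∀ t, 0 ≤ t → R ^ n * |X n t| ≤ C' := by
    intro n hn t ht
    have h1 : R ^ n * (C / q ^ n) ≤ ∑ n ∈ Finset.range (n₀ + 1), R ^ n * (C / q ^ n) :=
      Finset.single_le_sum (f := fun n => R ^ n * (C / q ^ n)) (fun n _ => by positivity)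
        (Finset.mem_range.2 (by omega))
    rw [hC']
    exact (mul_le_mul_of_nonneg_left (hXs' n t ht) (by positivity)).trans
      (h1.trans (le_max_right _ _))
  have hall : ∀ n : ℕ, ∀ t, 0 ≤ t → R ^ n * |X n t| ≤ C' := by
    intro n
    induction n with
    | zero => exact hsmall 0 (Nat.zero_le _)
    | succ n ih =>
      by_cases hn : n + 1 ≤ n₀
      · exact hsmall _ hn
      · intro t ht
        have hnn₁ : n₁ ≤ n := by
          have := le_max_left n₁ n₂
          omega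
        have hnn₂ : n₂ ≤ n := by
          have := le_max_right n₁ n₂
          omega
        have hC'0 : 0 ≤ C' := (mul_nonneg (by positivity) (abs_nonneg _)).trans (ih 0 le_rfl)
        have hstep := step2 hν hX n (P := C' / R ^ (n + 1)) (M := 0) (fun τ hτ => ?_)
          (fun τ hτ => ?_) (by positivity) le_rfl ?_ t ht
        · rw [zero_mul, add_zero, le_div_iff₀ (by positivity), mul_comm] at hstep
          exact hstep
        · have h1 := hn₁ (n + 1) (by omega)
          rw [← hB]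
          calc B ^ (n + 1) * |X (n + 2) τ| ≤ B ^ (n + 1) * (C / q ^ (n + 2)) :=
                mul_le_mul_of_nonneg_left (hXs' _ τ hτ) (by positivity)
            _ = B ^ (n + 1) * (C / q ^ (n + 1)) * (1 / q) := by
                field_simp
                ring
            _ ≤ _ := h1.le
        · -- the source
          have h2 : |X n τ| ≤ C' / R ^ n := by
            rw [le_div_iff₀ (by positivity), mul_comm]
            exact ih τ hτ
          have h3 : X n τ ^ 2 ≤ (C / q ^ n) * (C' / R ^ n) := by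
            rw [← sq_abs, sq]
            exact mul_le_mul (hXs' n τ hτ) h2 (abs_nonneg _) (by positivity)
          have h4 := hn₂ n hnn₂
          rw [← hB]
          calc B ^ n * X n τ ^ 2 ≤ B ^ n * ((C / q ^ n) * (C' / R ^ n)) :=
                mul_le_mul_of_nonneg_left h3 (by positivity)
            _ = (B ^ n * (C / q ^ n) * (R / 4)) * (4 * (C' / R ^ (n + 1))) := by
                field_simp
                ring
            _ ≤ (ν / 2 * 4 ^ n) * (4 * (C' / R ^ (n + 1))) :=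
                mul_le_mul_of_nonneg_right h4.le (by positivity)
            _ = _ := by ring
        · rw [hX.init, add_zero, le_div_iff₀ (by positivity), mul_comm]
          exact (hK' (n + 1)).trans (by rw [hC']; exact le_max_left _ _)
  refine ⟨C', fun n t ht => ?_⟩
  rw [pow_mul_nat, ← hR]
  exact hall n t ht

/-- The decay of the linear equation beats the powers. -/
lemma exp_beats {ν δ p : ℝ} (hν : 0 < ν) (hδ : 0 < δ) (hp0 : 0 < p) :
    ∃ A : ℝ, 0 ≤ A ∧ ∀ n : ℕ, p ^ n * Real.exp (-(ν * 4 ^ n * δ)) ≤ A := by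
  have hlim : Tendsto (fun n : ℕ => p ^ n * Real.exp (-(ν * 4 ^ n * δ))) atTop (𝓝 0) := by
    have h1 : Tendsto (fun n : ℕ => (n : ℝ) * Real.log p - ν * δ * 4 ^ n) atTop atBot := by
      have h2 : Tendsto (fun n : ℕ => (ν * δ) * 4 ^ n * ((n : ℝ) / 4 ^ n * (Real.log p / (ν * δ)) - 1))
          atTop atBot := by
        have h3 : Tendsto (fun n : ℕ => (n : ℝ) / 4 ^ n * (Real.log p / (ν * δ)) - 1) atTop
            (𝓝 (0 * (Real.log p / (ν * δ)) - 1)) := by
          have h4 : Tendsto (fun n : ℕ => (n : ℝ) / 4 ^ n) atTop (𝓝 0) := by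
            have := tendsto_self_mul_const_pow_of_lt_one (r := (1 / 4 : ℝ)) (by norm_num)
              (by norm_num)
            refine this.congr fun n => ?_
            rw [one_div, inv_pow]
            rfl
          exact (h4.mul_const _).sub_const 1
        have h5 : Tendsto (fun n : ℕ => (ν * δ) * (4 : ℝ) ^ n) atTop atTop :=
          (tendsto_pow_atTop_atTop_of_one_lt (by norm_num)).const_mul_atTop (by positivity)
        exact h5.atTop_mul_neg (by norm_num : (0 : ℝ) * (Real.log p / (ν * δ)) - 1 < 0) h3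
      refine h2.congr fun n => ?_
      field_simp
    have h6 := Real.tendsto_exp_atBot.comp h1
    refine h6.congr fun n => ?_
    simp only [Function.comp_apply]
    rw [sub_eq_add_neg, Real.exp_add, mul_comm (n : ℝ), Real.exp_mul, Real.exp_log hp0,
      Real.rpow_natCast]
    congr 2
    ring
  obtain ⟨A, hA⟩ := hlim.bddAbove_range
  have hA' : ∀ n : ℕ, p ^ n * Real.exp (-(ν * 4 ^ n * δ)) ≤ A := fun n => hA ⟨n, rfl⟩
  exact ⟨A, (by positivity : (0 : ℝ) ≤ p ^ 0 * Real.exp (-(ν * 4 ^ 0 * δ))).trans (hA' 0), hA'⟩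

/-- One step of the smoothing. -/
theorem smooth_step {β ν s e C δ : ℝ} {x : ℕ → ℝ} {X : ℕ → ℝ → ℝ} (hν : 0 < ν)
    (hX : IsDy β ν x X) (hs : β - 2 < s) (hδ : 0 < δ) (he0 : 0 ≤ e)
    (he : β - 2 + e ≤ s) (h : ∀ (n : ℕ) t, 0 ≤ t → (2 : ℝ) ^ (s * n) * |X n t| ≤ C) :
    ∃ C' : ℝ, ∀ (n : ℕ) t, δ ≤ t → (2 : ℝ) ^ ((s + e) * n) * |X n t| ≤ C' := by
  obtain ⟨B, hB⟩ : ∃ B : ℝ, B = 2 ^ β := ⟨_, rfl⟩
  obtain ⟨q, hq⟩ : ∃ q : ℝ, q = 2 ^ s := ⟨_, rfl⟩
  obtain ⟨p, hp⟩ : ∃ p : ℝ, p = 2 ^ e := ⟨_, rfl⟩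
  have hB0 : 0 < B := by rw [hB]; exact Real.rpow_pos_of_pos two_pos _
  have hq0 : 0 < q := by rw [hq]; exact Real.rpow_pos_of_pos two_pos _
  have hp0 : 0 < p := by rw [hp]; exact Real.rpow_pos_of_pos two_pos _
  have hp1 : 1 ≤ p := by rw [hp]; exact Real.one_le_rpow (by norm_num) he0
  have hBpq : B * p ≤ 4 * q := by
    rw [hB, hp, hq]
    have h1 : (4 : ℝ) * 2 ^ s = 2 ^ (2 + s) := by
      rw [Real.rpow_add two_pos]
      norm_num
    rw [h1, ← Real.rpow_add two_pos]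
    exact Real.rpow_le_rpow_of_exponent_le (by norm_num) (by linarith)
  have hC0 : 0 ≤ C := by
    have h1 := h 0 0 le_rfl
    simp only [Nat.cast_zero, mul_zero, Real.rpow_zero, one_mul] at h1
    exact (abs_nonneg _).trans h1
  have h' : ∀ (n : ℕ) t, 0 ≤ t → |X n t| ≤ C / q ^ n := by
    intro n t ht
    have := h n t ht
    rw [pow_mul_nat, ← hq] at this
    rw [le_div_iff₀ (by positivity), mul_comm]
    exact this
  obtain ⟨n₀, hn₀⟩ := small_ev (β := β) hν hs hC0 (1 / q)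
  rw [← hB, ← hq] at hn₀
  obtain ⟨A, hA0, hA'⟩ := exp_beats (ν := ν / 2) (by positivity) hδ hp0
  obtain ⟨M, hM⟩ : ∃ M, M = p * q * C ^ 2 / (2 * ν) := ⟨_, rfl⟩
  have hM0 : 0 ≤ M := by rw [hM]; positivity
  refine ⟨M + C * A + C * p ^ n₀, fun n t ht => ?_⟩
  rw [pow_mul_nat, Real.rpow_add two_pos, ← hq, ← hp]
  have hCp : 0 ≤ C * p ^ n₀ := by positivity
  have hCA : 0 ≤ C * A := by positivity
  by_cases hn : n ≤ n₀
  · have h1 : (q * p) ^ n * |X n t| ≤ (q * p) ^ n * (C / q ^ n) :=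
      mul_le_mul_of_nonneg_left (h' n t (by linarith)) (by positivity)
    have h2 : (q * p) ^ n * (C / q ^ n) = C * p ^ n := by
      rw [mul_pow]
      field_simp
    have h3 : C * p ^ n ≤ C * p ^ n₀ := mul_le_mul_of_nonneg_left (pow_le_pow_right₀ hp1 hn) hC0
    linarith
  · obtain ⟨m, rfl⟩ : ∃ m, n = m + 1 := ⟨n - 1, by omega⟩
    have hstep := step2 hν hX m (P := M / (q * p) ^ (m + 1)) (M := C / q ^ (m + 1))
      (fun τ hτ => ?_) (fun τ hτ => ?_) (by positivity) (by positivity) ?_ t (by linarith)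
    · have h1 : C / q ^ (m + 1) * Real.exp (-(ν / 2 * 4 ^ (m + 1) * t))
          ≤ C / q ^ (m + 1) * Real.exp (-(ν / 2 * 4 ^ (m + 1) * δ)) := by
        apply mul_le_mul_of_nonneg_left _ (by positivity)
        apply Real.exp_le_exp.2
        have h2 : ν / 2 * 4 ^ (m + 1) * δ ≤ ν / 2 * 4 ^ (m + 1) * t :=
          mul_le_mul_of_nonneg_left ht (by positivity)
        linarith
      have h2 : |X (m + 1) t| ≤ M / (q * p) ^ (m + 1)
          + C / q ^ (m + 1) * Real.exp (-(ν / 2 * 4 ^ (m + 1) * δ)) := by linarith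
      calc (q * p) ^ (m + 1) * |X (m + 1) t| ≤ (q * p) ^ (m + 1) * (M / (q * p) ^ (m + 1)
          + C / q ^ (m + 1) * Real.exp (-(ν / 2 * 4 ^ (m + 1) * δ))) :=
            mul_le_mul_of_nonneg_left h2 (by positivity)
        _ = M + C * (p ^ (m + 1) * Real.exp (-(ν / 2 * 4 ^ (m + 1) * δ))) := by
            rw [mul_pow]
            field_simp
        _ ≤ M + C * A + C * p ^ n₀ := by
            have := mul_le_mul_of_nonneg_left (hA' (m + 1)) hC0
            linarith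
    · have h1 := hn₀ (m + 1) (by omega)
      rw [← hB]
      calc B ^ (m + 1) * |X (m + 2) τ| ≤ B ^ (m + 1) * (C / q ^ (m + 2)) :=
            mul_le_mul_of_nonneg_left (h' _ τ hτ) (by positivity)
        _ = B ^ (m + 1) * (C / q ^ (m + 1)) * (1 / q) := by
            field_simp
            ring
        _ ≤ _ := h1.le
    · -- the source
      have h2 : X m τ ^ 2 ≤ (C / q ^ m) ^ 2 := by
        rw [← sq_abs]
        exact pow_le_pow_left₀ (abs_nonneg _) (h' m τ hτ) 2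
      have h3 : (B * p) ^ m ≤ (4 * q) ^ m := pow_le_pow_left₀ (by positivity) hBpq m
      rw [← hB]
      calc B ^ m * X m τ ^ 2 ≤ B ^ m * (C / q ^ m) ^ 2 :=
            mul_le_mul_of_nonneg_left h2 (by positivity)
        _ = (B * p) ^ m * (C ^ 2 / (p ^ m * (q ^ m) ^ 2)) := by
            rw [mul_pow, div_pow]
            field_simp
        _ ≤ (4 * q) ^ m * (C ^ 2 / (p ^ m * (q ^ m) ^ 2)) :=
            mul_le_mul_of_nonneg_right h3 (by positivity)
        _ = ν / 2 * 4 ^ (m + 1) * (M / (q * p) ^ (m + 1)) := by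
            rw [hM, mul_pow, mul_pow]
            field_simp
            ring
    · have h1 := h' (m + 1) 0 le_rfl
      have h2 : 0 ≤ M / (q * p) ^ (m + 1) := by positivity
      linarith

theorem stmS : StmS := by
  intro β ν s C x X hν hs hX hXs τ r hτ
  obtain ⟨e, he⟩ : ∃ e, e = s - (β - 2) := ⟨_, rfl⟩
  have he0 : 0 < e := by rw [he]; linarith
  obtain ⟨k, hk⟩ := exists_nat_gt ((r - s) / e)
  rw [div_lt_iff₀ he0] at hk
  have hτk : 0 < τ / (k + 1) := by positivity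
  have hall : ∀ j : ℕ, ∃ C' : ℝ, ∀ (n : ℕ) t, (j : ℝ) * (τ / (k + 1)) ≤ t →
      (2 : ℝ) ^ ((s + j * e) * n) * |X n t| ≤ C' := by
    intro j
    induction j with
    | zero =>
      refine ⟨C, fun n t ht => ?_⟩
      simp only [Nat.cast_zero, zero_mul, add_zero] at ht ⊢
      exact hXs n t ht
    | succ j ih =>
      obtain ⟨C₁, hC₁⟩ := ih
      have hj : (0 : ℝ) ≤ (j : ℝ) * e := by positivity
      -- the solution started at the time `j τ / (k + 1)`
      obtain ⟨a, ha⟩ : ∃ a : ℝ, a = (j : ℝ) * (τ / (k + 1)) := ⟨_, rfl⟩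
      have ha0 : 0 ≤ a := by rw [ha]; positivity
      have hsh : IsDy β ν (fun n => X n a) (fun n t => X n (a + t)) := by
        rcases ha0.eq_or_lt with h | h
        · rw [← h]
          refine ⟨fun n => by rw [zero_add], fun n => ?_, fun n t ht => ?_⟩
          · simpa only [zero_add] using hX.cont n
          · simpa only [zero_add] using hX.ode n t ht
        · exact Pool.Agent.Run7.h32.Dy.shift hX h
      obtain ⟨C', hC'⟩ := smooth_step hν hsh (s := s + j * e) (e := e) (C := C₁) (by linarith)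
        hτk he0.le (by linarith) (fun n t ht => hC₁ n (a + t) (by rw [← ha]; linarith))
      refine ⟨C', fun n t ht => ?_⟩
      have h1 := hC' n (t - a) (by rw [ha]; push_cast at ht; linarith)
      rw [add_sub_cancel] at h1
      have h2 : s + ((j + 1 : ℕ) : ℝ) * e = s + j * e + e := by
        push_cast
        ring
      rw [h2]
      exact h1
  obtain ⟨C', hC'⟩ := hall k
  refine ⟨C', fun n t ht => ?_⟩
  have h1 := hC' n t (by
    refine le_trans ?_ ht
    rw [mul_div_assoc', div_le_iff₀ (by positivity)]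
    nlinarith)
  have h2 : (2 : ℝ) ^ (r * n) ≤ (2 : ℝ) ^ ((s + k * e) * n) := by
    apply Real.rpow_le_rpow_of_exponent_le (by norm_num)
    apply mul_le_mul_of_nonneg_right _ (Nat.cast_nonneg n)
    linarith
  exact (mul_le_mul_of_nonneg_right h2 (abs_nonneg _)).trans h1

end Run7.h969.Dz
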