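import Pool.Agent.Run7.h969.Dz.Par
import Pool.Agent.Run7.h969.Dz.Reg

/-!
The dyadic model for real data: the decay with a rate better than the critical one (helper969).
-/

set_option autoImplicit false

open Set Filter Topology

namespace Run7.h969.Dz

open Run7.h969.Dy (pow_mul_nat Gal rhs expo)

/-- The case `β < 2`. -/
theorem crit_low {β ν s K : ℝ} (hβ : β < 2) (hν : 0 < ν) (hs : 0 < s) (hK0 : 0 ≤ K) :
    ∃ s' C : ℝ, 0 < s' ∧ β - 2 < s' ∧ s' ≤ s ∧ ∀ (T : ℝ) (N : ℕ) (x : ℕ → ℝ) (X : ℕ → ℝ → ℝ),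
    0 < T → (∀ n : ℕ, (2 : ℝ) ^ (s * n) * |x n| ≤ K) → Gal β ν T N x X →
      ∀ t ∈ Icc 0 T, ∀ n : ℕ, (2 : ℝ) ^ (s' * n) * |X n t| ≤ C := by
  obtain ⟨S, hS⟩ : ∃ S, S = √(K ^ 2 / (1 - ((2 : ℝ) ^ s)⁻¹ ^ 2)) := ⟨_, rfl⟩
  have hS0 : 0 ≤ S := by rw [hS]; exact Real.sqrt_nonneg _
  obtain ⟨B, hB'⟩ : ∃ B : ℝ, B = 2 ^ β := ⟨_, rfl⟩
  have hB0 : 0 < B := by rw [hB']; exact Real.rpow_pos_of_pos two_pos _
  obtain ⟨s', hs'⟩ : ∃ s', s' = min s (2 - β) := ⟨_, rfl⟩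
  have hs'0 : 0 < s' := by rw [hs']; exact lt_min hs (by linarith)
  have hs's : s' ≤ s := by rw [hs']; exact min_le_left _ _
  have hs'b : s' ≤ 2 - β := by rw [hs']; exact min_le_right _ _
  obtain ⟨r, hr⟩ : ∃ r : ℝ, r = 2 ^ s' := ⟨_, rfl⟩
  have hr0 : 0 < r := by rw [hr]; exact Real.rpow_pos_of_pos two_pos _
  have hr1 : 1 ≤ r := by rw [hr]; exact Real.one_le_rpow (by norm_num) hs'0.le
  have hrq : r ≤ 2 ^ s := by
    rw [hr]
    exact Real.rpow_le_rpow_of_exponent_le (by norm_num) hs's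
  have hrB : r * B ≤ 4 := by
    rw [hr, hB', ← Real.rpow_add two_pos]
    have h1 : (4 : ℝ) = 2 ^ (2 : ℝ) := by norm_num
    rw [h1]
    exact Real.rpow_le_rpow_of_exponent_le (by norm_num) (by linarith)
  -- the high shells
  obtain ⟨n₀, hn₀⟩ := small_ev (β := β) (s := 0) (C := S) hν (by linarith) hS0 1
  rw [← hB'] at hn₀
  have hn₀' : ∀ n ≥ n₀, B ^ n * S ≤ ν / 2 * 4 ^ n := by
    intro n hn
    have h1 := hn₀ n hn
    rw [Real.rpow_zero, one_pow, div_one, mul_one] at h1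
    exact h1.le
  refine ⟨s', r ^ n₀ * S + (K + r * S ^ 2 / (2 * ν)), hs'0, by linarith, hs's, ?_⟩
  intro T N x X hT hK hG t ht n
  have hle : ∀ t ∈ Icc 0 T, ∀ n, |X n t| ≤ S := fun t ht n => by
    rw [hS]
    exact le_energy hν hs hK hG ht n
  have hF0 : 0 ≤ r * S ^ 2 / (2 * ν) := by positivity
  have hrS : 0 ≤ r ^ n₀ * S := by positivity
  rw [pow_mul_nat, ← hr]
  by_cases hn : n ≤ n₀
  · have h1 : r ^ n * |X n t| ≤ r ^ n₀ * S :=
      mul_le_mul (pow_le_pow_right₀ hr1 hn) (hle t ht n) (abs_nonneg _) (by positivity)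
    linarith
  · obtain ⟨m, rfl⟩ : ∃ m, n = m + 1 := ⟨n - 1, by omega⟩
    by_cases hmN : m + 1 ≤ N
    · obtain ⟨P, hP⟩ : ∃ P, P = (K + r * S ^ 2 / (2 * ν)) / r ^ (m + 1) := ⟨_, rfl⟩
      have hP0 : 0 ≤ P := by rw [hP]; positivity
      have h4 : (2 : ℝ) ^ (β * ((m : ℝ) + 1)) = B ^ (m + 1) := by
        have := pow_mul_nat β (m + 1)
        rw [Nat.cast_add, Nat.cast_one] at this
        rw [this, hB']
      have hd := decay2 (f := X (m + 1)) (g := fun τ => B ^ m * X m τ ^ 2)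
        (a := fun τ => B ^ (m + 1) * X (m + 2) τ + ν * 4 ^ (m + 1)) (T := T)
        (l := ν / 2 * 4 ^ (m + 1)) (P := P) (M := 0)
        (fun τ hτ => ?_) ?_ (fun τ hτ => by positivity) (fun τ hτ => ?_) (fun τ hτ => ?_)
        (by positivity) hP0 le_rfl ?_ t ht
      · rw [zero_mul, add_zero, hP, le_div_iff₀ (by positivity), mul_comm] at hd
        linarith
      · refine (hG.ode (m + 1) hmN τ hτ).congr_deriv ?_
        show (2 : ℝ) ^ (β * m) * X m τ ^ 2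
          - (2 : ℝ) ^ (β * ((m : ℝ) + 1)) * (X (m + 1) τ * X (m + 2) τ)
          - ν * 4 ^ (m + 1) * X (m + 1) τ = _
        rw [h4, pow_mul_nat, ← hB']
        ring
      · exact (continuousOn_const.mul (Pool.Agent.Run7.h32.Dy.gal_cont hG _)).add
          continuousOn_const
      · have h2 : X m τ ^ 2 ≤ S ^ 2 := by
          rw [← sq_abs]
          exact pow_le_pow_left₀ (abs_nonneg _) (hle τ hτ m) 2
        calc B ^ m * X m τ ^ 2 ≤ B ^ m * S ^ 2 := mul_le_mul_of_nonneg_left h2 (by positivity)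
          _ = (r * B) ^ m * (S ^ 2 / r ^ m) := by
              rw [mul_pow]
              field_simp
          _ ≤ 4 ^ m * (S ^ 2 / r ^ m) :=
              mul_le_mul_of_nonneg_right (pow_le_pow_left₀ (by positivity) hrB m) (by positivity)
          _ = ν / 2 * 4 ^ (m + 1) * ((r * S ^ 2 / (2 * ν)) / r ^ (m + 1)) := by
              field_simp
              ring
          _ ≤ ν / 2 * 4 ^ (m + 1) * P := by
              apply mul_le_mul_of_nonneg_left _ (by positivity)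
              rw [hP]
              apply div_le_div_of_nonneg_right _ (by positivity)
              linarith
      · have h1 := hn₀' (m + 1) (by omega)
        have h2 : B ^ (m + 1) * -S ≤ B ^ (m + 1) * X (m + 2) τ := by
          apply mul_le_mul_of_nonneg_left _ (by positivity)
          linarith [hle τ hτ (m + 2), neg_abs_le (X (m + 2) τ)]
        linarith
      · rw [hG.init _ hmN, add_zero, hP, le_div_iff₀ (by positivity), mul_comm]
        have h2 : r ^ (m + 1) * |x (m + 1)| ≤ K := by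
          have h3 := hK (m + 1)
          rw [pow_mul_nat] at h3
          exact (mul_le_mul_of_nonneg_right (pow_le_pow_left₀ hr0.le hrq _)
            (abs_nonneg _)).trans h3
        linarith
    · rw [hG.zero (m + 1) (by omega) t, abs_zero, mul_zero]
      positivity

set_option maxHeartbeats 1000000 in
/-- The bound from an invariant region. -/
theorem crit_core {β ν s K S B : ℝ} (hν : 0 < ν) (hs : 0 < s) (hK0 : 0 ≤ K)
    (hS : S = √(K ^ 2 / (1 - ((2 : ℝ) ^ s)⁻¹ ^ 2))) (hB' : B = 2 ^ β)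
    {ρ r g δ νm μ a₁ a₂ b₂ c d lam E : ℝ} {k : ℕ}
    (hR : Reg (64 / B ^ 2 / ρ ^ 3) ρ a₁ a₂ b₂ c d lam νm μ)
    (hr : r = B * ρ / 4) (hr1 : 1 < r) (hrs : r ≤ 2 ^ s) (hδ0 : 0 < δ) (hδ1 : δ ≤ 1 / 2)
    (hδa : a₁ * δ < a₁ - 1) (hδb : a₂ * δ < b₂) (hδd : δ < d) (hg0 : 0 < g) (hgK : g * K ≤ δ)
    (hgS : g * (r ^ k * S) ≤ δ) (hgrS : g * (r ^ (k + 1) * S) ≤ δ) (hk1 : 1 ≤ k)
    (hneg : ∀ n ≥ k, B ^ n * ((K + 1) / ((2 : ℝ) ^ s) ^ (n + 1)) < ν * 4 ^ n)
    (hE0 : 0 ≤ E) (hE : ∀ n ≥ k, r ^ n * ((K + 1) / ((2 : ℝ) ^ s) ^ n) ≤ E) (he1 : g * E ≤ 1)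
    (heμ : 112 * (g * E) < μ)
    (heν : 64 / B ^ 2 / ρ ^ 3 * (g * E) < (1 - lam) * (ρ ^ k * (ν / (B * ρ ^ 2 / (16 * g)))))
    (hνm : νm ≤ ρ ^ k * (ν / (B * ρ ^ 2 / (16 * g)))) :
    ∃ C : ℝ, ∀ (T : ℝ) (N : ℕ) (x : ℕ → ℝ) (X : ℕ → ℝ → ℝ),
    0 < T → (∀ n : ℕ, (2 : ℝ) ^ (s * n) * |x n| ≤ K) → Gal β ν T N x X →
      ∀ t ∈ Icc 0 T, ∀ n : ℕ, r ^ n * |X n t| ≤ C := by
  have hS0 : 0 ≤ S := by rw [hS]; exact Real.sqrt_nonneg _
  have hB0 : 0 < B := by rw [hB']; exact Real.rpow_pos_of_pos two_pos _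
  have hρ1 := hR.ρ1
  have hρ0 : 0 < ρ := by linarith
  have hr0 : 0 < r := by linarith
  obtain ⟨C₀, hC₀⟩ : ∃ C₀, C₀ = B * ρ ^ 2 / (16 * g) := ⟨_, rfl⟩
  have hC₀0 : 0 < C₀ := by rw [hC₀]; positivity
  rw [← hC₀] at hνm heν
  obtain ⟨ν₀, hν₀⟩ : ∃ ν₀, ν₀ = ρ ^ k * (ν / C₀) := ⟨_, rfl⟩
  rw [← hν₀] at hνm heν
  have hν₀0 : 0 < ν₀ := by rw [hν₀]; positivity
  have hl := hR.l0
  -- the number of shells
  obtain ⟨N₀, hN₀⟩ : ∃ N₀ : ℕ, ∀ N ≥ N₀, 1 < lam * (ρ ^ N * ν₀) := by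
    have h1 : Tendsto (fun n : ℕ => lam * (ρ ^ n * ν₀)) atTop atTop :=
      ((tendsto_pow_atTop_atTop_of_one_lt hρ1).atTop_mul_const hν₀0).const_mul_atTop hl
    obtain ⟨N₀, h2⟩ := eventually_atTop.1 (h1.eventually_gt_atTop 1)
    exact ⟨N₀, h2⟩
  refine ⟨(1 / g + E) + r ^ (N₀ + k) * S, ?_⟩
  intro T N x X hT hK hG
  have hle : ∀ t ∈ Icc 0 T, ∀ n, |X n t| ≤ S := fun t ht n => by
    rw [hS]
    exact le_energy hν hs hK hG ht n
  have hnp := neg_part (K := K + 1) (by linarith)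
    (fun n => (hK n).trans_lt (by linarith)) hG hk1 (by rw [← hB']; exact hneg)
  intro t ht n
  by_cases hNN : N₀ + k ≤ N ∧ k ≤ n
  · -- the invariant region
    obtain ⟨hNN, hkn⟩ := hNN
    have hlow : ∀ t ∈ Icc 0 T, ∀ m, -(g * E) ≤ g * r ^ (k + m) * X (k + m) t := by
      intro t ht m
      have h1 := hnp (k + m) (by omega) t ht
      have h2 := hE (k + m) (by omega)
      have h3 : g * r ^ (k + m) * -((K + 1) / ((2 : ℝ) ^ s) ^ (k + m))
          ≤ g * r ^ (k + m) * X (k + m) t := mul_le_mul_of_nonneg_left h1.le (by positivity)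
      have h4 := mul_le_mul_of_nonneg_left h2 hg0.le
      linarith
    have key := invariant hR (T := T) (N := N - k) (δ := δ) (C₀ := C₀ * (4 / ρ) ^ k) (e := g * E)
      (by positivity) hν₀0 hνm (by positivity) he1 heμ heν
      (fun m t => g * r ^ (k + m) * X (k + m) t) hlow
      (fun m hm t => by rw [hG.zero (k + m) (by omega) t, mul_zero])
      (continuousOn_const.mul (Pool.Agent.Run7.h32.Dy.gal_cont hG _))
      (fun m hm t ht => ?_) (by linarith) hδa hδb hδd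
      (fun t ht => ⟨?_, ?_⟩) (fun m => ?_) hT.le (hN₀ (N - k) (by omega)) (n - k) t ht
    · have hlow' := hlow t ht (n - k)
      have e1 : k + (n - k) = n := by omega
      have key' : g * r ^ (k + (n - k)) * X (k + (n - k)) t ≤ 1 := key
      rw [e1] at key' hlow'
      have h1 : |g * (r ^ n * X n t)| ≤ 1 + g * E := by
        have h0 : 0 ≤ g * E := by positivity
        rw [abs_le]
        constructor <;> linarith
      rw [abs_mul, abs_of_pos hg0, abs_mul, abs_of_pos (by positivity : 0 < r ^ n)] at h1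
      have h2 : r ^ n * |X n t| ≤ (1 + g * E) / g := by
        rw [le_div_iff₀ hg0]
        linarith
      have h3 : (1 + g * E) / g = 1 / g + E := by
        field_simp
      have h4 : 0 ≤ r ^ (N₀ + k) * S := by positivity
      linarith
    · -- the equation
      have h1 := (hG.ode (k + m + 1) (by omega) t ht).const_mul (g * r ^ (k + m + 1))
      have h2 : g * r ^ (k + m + 1) * rhs β ν (fun j => X j t) (k + m + 1) =
          C₀ * (4 / ρ) ^ k * (4 / ρ) ^ (m + 1) * ((g * r ^ (k + m) * X (k + m) t) ^ 2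
          - 64 / B ^ 2 / ρ ^ 3 * ((g * r ^ (k + (m + 1)) * X (k + (m + 1)) t)
            * (g * r ^ (k + (m + 2)) * X (k + (m + 2)) t))
          - ρ ^ (m + 1) * ν₀ * (g * r ^ (k + (m + 1)) * X (k + (m + 1)) t)) := by
        show g * r ^ (k + m + 1) * ((2 : ℝ) ^ (β * (k + m : ℕ)) * X (k + m) t ^ 2
          - (2 : ℝ) ^ (β * (((k + m : ℕ) : ℝ) + 1)) * (X (k + m + 1) t * X (k + m + 2) t)
          - ν * 4 ^ (k + m + 1) * X (k + m + 1) t) = _
        have e1 : (2 : ℝ) ^ (β * (((k + m : ℕ) : ℝ) + 1)) = B ^ (k + m + 1) := by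
          have := pow_mul_nat β (k + m + 1)
          rw [Nat.cast_add (k + m) 1, Nat.cast_one] at this
          rw [this, hB']
        have e2 : k + (m + 1) = k + m + 1 := rfl
        have e3 : k + (m + 2) = k + m + 2 := rfl
        rw [e1, pow_mul_nat, ← hB', hν₀, hC₀, hr, e2, e3]
        obtain ⟨x0, hx0⟩ : ∃ x0, x0 = X (k + m) t := ⟨_, rfl⟩
        obtain ⟨x1, hx1⟩ : ∃ x1, x1 = X (k + m + 1) t := ⟨_, rfl⟩
        obtain ⟨x2, hx2⟩ : ∃ x2, x2 = X (k + m + 2) t := ⟨_, rfl⟩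
        rw [← hx0, ← hx1, ← hx2]
        simp only [div_pow, mul_pow, pow_add]
        have hBn : B ^ m ≠ 0 := by positivity
        have hBk : B ^ k ≠ 0 := by positivity
        have hρn : ρ ^ m ≠ 0 := by positivity
        have hρk : ρ ^ k ≠ 0 := by positivity
        field_simp
        ring
      rw [h2] at h1
      exact h1
    · show g * r ^ (k + 0) * X (k + 0) t ≤ δ
      have h1 := (le_abs_self (X (k + 0) t)).trans (hle t ht (k + 0))
      have h2 : g * (r ^ k * X k t) ≤ g * (r ^ k * S) :=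
        mul_le_mul_of_nonneg_left (mul_le_mul_of_nonneg_left h1 (by positivity)) hg0.le
      rw [add_zero]
      linarith
    · show g * r ^ (k + 1) * X (k + 1) t ≤ δ
      have h1 := (le_abs_self (X (k + 1) t)).trans (hle t ht (k + 1))
      have h2 : g * (r ^ (k + 1) * X (k + 1) t) ≤ g * (r ^ (k + 1) * S) :=
        mul_le_mul_of_nonneg_left (mul_le_mul_of_nonneg_left h1 (by positivity)) hg0.le
      linarith
    · show g * r ^ (k + m) * X (k + m) 0 ≤ δ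
      by_cases hn : k + m ≤ N
      · rw [hG.init _ hn, mul_assoc]
        have h3 := hK (k + m)
        rw [pow_mul_nat] at h3
        have h4 := (mul_le_mul_of_nonneg_right (pow_le_pow_left₀ hr0.le hrs (k + m))
          (abs_nonneg (x (k + m)))).trans h3
        have h5 : r ^ (k + m) * x (k + m) ≤ K :=
          (mul_le_mul_of_nonneg_left (le_abs_self _) (by positivity)).trans h4
        exact (mul_le_mul_of_nonneg_left h5 hg0.le).trans hgK
      · rw [hG.zero _ (by omega) 0, mul_zero]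
        exact hδ0.le
  · -- few shells
    have h0 : 0 ≤ 1 / g := by positivity
    by_cases hn : n ≤ N
    · have h1 : r ^ n ≤ r ^ (N₀ + k) := pow_le_pow_right₀ hr1.le (by omega)
      have h2 : r ^ n * |X n t| ≤ r ^ (N₀ + k) * S :=
        mul_le_mul h1 (hle t ht n) (abs_nonneg _) (by positivity)
      linarith
    · rw [hG.zero n (by omega) t, abs_zero, mul_zero]
      positivity

/-- The case `2 ≤ β < 3`. -/
theorem crit_high {β ν s K : ℝ} (hβ2 : 2 ≤ β) (hβ : β < 3) (hν : 0 < ν) (hs : 0 < s)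
    (hs2 : β - 2 < s) (hK0 : 0 ≤ K) :
    ∃ s' C : ℝ, 0 < s' ∧ β - 2 < s' ∧ s' ≤ s ∧ ∀ (T : ℝ) (N : ℕ) (x : ℕ → ℝ) (X : ℕ → ℝ → ℝ),
    0 < T → (∀ n : ℕ, (2 : ℝ) ^ (s * n) * |x n| ≤ K) → Gal β ν T N x X →
      ∀ t ∈ Icc 0 T, ∀ n : ℕ, (2 : ℝ) ^ (s' * n) * |X n t| ≤ C := by
  obtain ⟨S, hS⟩ : ∃ S, S = √(K ^ 2 / (1 - ((2 : ℝ) ^ s)⁻¹ ^ 2)) := ⟨_, rfl⟩
  have hS0 : 0 ≤ S := by rw [hS]; exact Real.sqrt_nonneg _
  obtain ⟨B, hB'⟩ : ∃ B : ℝ, B = 2 ^ β := ⟨_, rfl⟩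
  obtain ⟨q, hq⟩ : ∃ q : ℝ, q = 2 ^ s := ⟨_, rfl⟩
  have hq0 : 0 < q := by rw [hq]; exact Real.rpow_pos_of_pos two_pos _
  have hB0 : 0 < B := by rw [hB']; exact Real.rpow_pos_of_pos two_pos _
  have hB4 : 4 ≤ B := by
    rw [hB']
    have h1 : (4 : ℝ) = 2 ^ (2 : ℝ) := by norm_num
    rw [h1]
    exact Real.rpow_le_rpow_of_exponent_le (by norm_num) hβ2
  have hB8 : B < 8 := by
    rw [hB']
    have h1 : (8 : ℝ) = 2 ^ (3 : ℝ) := by norm_num
    rw [h1]
    exact Real.rpow_lt_rpow_of_exponent_lt (by norm_num) hβ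
  have hBs : B < 4 * q := by
    have h1 : (4 : ℝ) * 2 ^ s = 2 ^ (2 + s) := by
      rw [Real.rpow_add two_pos]
      norm_num
    rw [hq, h1, hB']
    exact Real.rpow_lt_rpow_of_exponent_lt (by norm_num) (by linarith)
  have hQ1 : 1 < 64 / B ^ 2 := by
    rw [lt_div_iff₀ (by positivity)]
    nlinarith
  have hQ4 : 64 / B ^ 2 ≤ 4 := by
    rw [div_le_iff₀ (by positivity)]
    nlinarith
  have hη : 0 < (4 * q / B - 1) / 2 := by
    have h1 : 1 < 4 * q / B := by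
      rw [lt_div_iff₀ hB0]
      linarith
    linarith
  obtain ⟨ρ, hρ1, hρ2, a₁, a₂, b₂, c, d, lam, μ, hμ, hR⟩ := reg_exists hQ1 hQ4 hη
  have hρ0 : 0 < ρ := by linarith
  obtain ⟨r, hr⟩ : ∃ r, r = B * ρ / 4 := ⟨_, rfl⟩
  have hr1 : 1 < r := by
    rw [hr, lt_div_iff₀ (by norm_num)]
    nlinarith
  have hr0 : 0 < r := by linarith
  have hrq : r < q := by
    rw [hr, div_lt_iff₀ (by norm_num)]
    have h1 : ρ < 4 * q / B := by linarith
    rw [lt_div_iff₀ hB0] at h1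
    linarith
  have hrs : r ≤ 2 ^ s := by rw [← hq]; exact hrq.le
  -- the small number
  have ha1 : 0 < a₁ := by linarith [hR.a1]
  have ha2 : 0 < a₂ := by linarith [hR.a2]
  obtain ⟨δ, hδ⟩ : ∃ δ, δ = min (1 / 2) (min ((a₁ - 1) / (2 * a₁)) (min (b₂ / (2 * a₂)) (d / 2))) :=
    ⟨_, rfl⟩
  have hδ1 : δ ≤ 1 / 2 := by rw [hδ]; exact min_le_left _ _
  have hδ2 : δ ≤ (a₁ - 1) / (2 * a₁) := by
    rw [hδ]; exact (min_le_right _ _).trans (min_le_left _ _)
  have hδ3 : δ ≤ b₂ / (2 * a₂) := by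
    rw [hδ]; exact (min_le_right _ _).trans ((min_le_right _ _).trans (min_le_left _ _))
  have hδ4 : δ ≤ d / 2 := by
    rw [hδ]; exact (min_le_right _ _).trans ((min_le_right _ _).trans (min_le_right _ _))
  have hδ0 : 0 < δ := by
    rw [hδ]
    have h1 := hR.a1
    have h3 := hR.b2
    have h4 := hR.d0
    refine lt_min (by norm_num) (lt_min (div_pos (by linarith) (by linarith))
      (lt_min (by positivity) (by positivity)))
  have hδa : a₁ * δ < a₁ - 1 := by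
    rw [le_div_iff₀ (by positivity)] at hδ2
    have := hR.a1
    linarith
  have hδb : a₂ * δ < b₂ := by
    rw [le_div_iff₀ (by positivity)] at hδ3
    have := hR.b2
    linarith
  have hδd : δ < d := by linarith [hR.d0]
  -- the first shell of the region
  obtain ⟨n₁, hn₁⟩ := small_ev (β := β) (C := K + 1) hν hs2 (by linarith) (1 / q)
  rw [← hB', ← hq] at hn₁
  have hκ0 := hR.κ0
  have hl1 := hR.l1
  have hlim : Tendsto (fun n : ℕ => 64 / B ^ 2 / ρ ^ 3 * ((K + 1) * (r / q) ^ n)) atTop (𝓝 0) := by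
    have h1 : r / q < 1 := by rw [div_lt_one hq0]; exact hrq
    have := ((tendsto_pow_atTop_nhds_zero_of_lt_one (by positivity : 0 ≤ r / q) h1).const_mul
      (K + 1)).const_mul (64 / B ^ 2 / ρ ^ 3)
    simpa using this
  obtain ⟨n₂, hn₂⟩ := eventually_atTop.1 (hlim.eventually (gt_mem_nhds
    (by
      have h1 : 0 < 1 - lam := by linarith
      positivity : 0 < (1 - lam) * (16 * ν / (B * ρ ^ 2)))))
  obtain ⟨k, hk⟩ : ∃ k, k = max 1 (max n₁ n₂) := ⟨_, rfl⟩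
  have hk1 : 1 ≤ k := by rw [hk]; exact le_max_left _ _
  have hkn₁ : n₁ ≤ k := by rw [hk]; exact (le_max_left _ _).trans (le_max_right _ _)
  have hkn₂ : n₂ ≤ k := by rw [hk]; exact (le_max_right _ _).trans (le_max_right _ _)
  obtain ⟨E, hE⟩ : ∃ E, E = (K + 1) * (r / q) ^ k := ⟨_, rfl⟩
  have hE0 : 0 < E := by rw [hE]; positivity
  have hEν : 64 / B ^ 2 / ρ ^ 3 * E < (1 - lam) * (16 * ν / (B * ρ ^ 2)) := by
    rw [hE]
    exact hn₂ k hkn₂
  obtain ⟨g, hg⟩ : ∃ g, g = min (δ / (1 + K + r ^ k * S + r ^ (k + 1) * S))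
    (min (1 / E) (μ / (224 * E))) := ⟨_, rfl⟩
  have hrk : 0 ≤ r ^ k * S := by positivity
  have hrk1 : 0 ≤ r ^ (k + 1) * S := by positivity
  have hden : 0 < 1 + K + r ^ k * S + r ^ (k + 1) * S := by positivity
  have hg0 : 0 < g := by
    rw [hg]
    exact lt_min (by positivity) (lt_min (by positivity) (by positivity))
  have hg1 : g * (1 + K + r ^ k * S + r ^ (k + 1) * S) ≤ δ := by
    rw [← le_div_iff₀ hden, hg]
    exact min_le_left _ _
  have hg2 : g * E ≤ 1 := by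
    rw [← le_div_iff₀ hE0, hg]
    exact (min_le_right _ _).trans (min_le_left _ _)
  have hg3 : g * (224 * E) ≤ μ := by
    rw [← le_div_iff₀ (by positivity), hg]
    exact (min_le_right _ _).trans (min_le_right _ _)
  have hgK : g * K ≤ δ := by
    have h1 : g * K ≤ g * (1 + K + r ^ k * S + r ^ (k + 1) * S) :=
      mul_le_mul_of_nonneg_left (by linarith) hg0.le
    linarith
  have hgS : g * (r ^ k * S) ≤ δ := by
    have h1 : g * (r ^ k * S) ≤ g * (1 + K + r ^ k * S + r ^ (k + 1) * S) :=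
      mul_le_mul_of_nonneg_left (by linarith) hg0.le
    linarith
  have hgrS : g * (r ^ (k + 1) * S) ≤ δ := by
    have h1 : g * (r ^ (k + 1) * S) ≤ g * (1 + K + r ^ k * S + r ^ (k + 1) * S) :=
      mul_le_mul_of_nonneg_left (by linarith) hg0.le
    linarith
  have hcore := crit_core (E := E) hν hs hK0 hS hB' hR hr hr1 hrs hδ0 hδ1 hδa hδb hδd hg0 hgK
    hgS hgrS hk1 (fun n hn => ?_) hE0.le (fun n hn => ?_) hg2 (by nlinarith) ?_ (by positivity)
  · obtain ⟨C, hC⟩ := hcore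
    obtain ⟨s', h1, h2, h3, h4⟩ := expo hB' hr hr1 hrs hρ1
    refine ⟨s', C, h1, h2, h3, fun T N x X hT hK hG t ht n => ?_⟩
    rw [pow_mul_nat, h4]
    exact hC T N x X hT hK hG t ht n
  · have h1 := hn₁ n (hkn₁.trans hn)
    rw [← hq]
    have h2 : B ^ n * ((K + 1) / q ^ (n + 1)) = B ^ n * ((K + 1) / q ^ n) * (1 / q) := by
      field_simp
      ring
    have h3 : 0 < ν / 2 * 4 ^ n := by positivity
    rw [h2]
    linarith
  · rw [← hq, hE]
    have h1 : r ^ n * ((K + 1) / q ^ n) = (K + 1) * (r / q) ^ n := by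
      rw [div_pow]
      field_simp
    rw [h1]
    apply mul_le_mul_of_nonneg_left _ (by linarith)
    exact pow_le_pow_of_le_one (by positivity) (by rw [div_le_one hq0]; exact hrq.le) hn
  · have h1 : ν / (B * ρ ^ 2 / (16 * g)) = g * (16 * ν / (B * ρ ^ 2)) := by
      field_simp
    have h2 : 1 ≤ ρ ^ k := one_le_pow₀ hρ1.le
    rw [h1]
    have h3 : g * (64 / B ^ 2 / ρ ^ 3 * E) < g * ((1 - lam) * (16 * ν / (B * ρ ^ 2))) :=
      mul_lt_mul_of_pos_left hEν hg0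
    have h4 : 0 ≤ (1 - lam) * (g * (16 * ν / (B * ρ ^ 2))) :=
      mul_nonneg (by linarith) (by positivity)
    have h5 : 1 * ((1 - lam) * (g * (16 * ν / (B * ρ ^ 2))))
        ≤ ρ ^ k * ((1 - lam) * (g * (16 * ν / (B * ρ ^ 2)))) := mul_le_mul_of_nonneg_right h2 h4
    linarith

/-- The case `β = 3`. -/
theorem crit_three {ν s K : ℝ} (hν : 0 < ν) (hs2 : 1 < s) (hK0 : 0 ≤ K) :
    ∃ s' C : ℝ, 0 < s' ∧ (3 : ℝ) - 2 < s' ∧ s' ≤ s ∧
    ∀ (T : ℝ) (N : ℕ) (x : ℕ → ℝ) (X : ℕ → ℝ → ℝ),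
    0 < T → (∀ n : ℕ, (2 : ℝ) ^ (s * n) * |x n| ≤ K) → Gal 3 ν T N x X →
      ∀ t ∈ Icc 0 T, ∀ n : ℕ, (2 : ℝ) ^ (s' * n) * |X n t| ≤ C := by
  have hs : 0 < s := by linarith
  obtain ⟨S, hS⟩ : ∃ S, S = √(K ^ 2 / (1 - ((2 : ℝ) ^ s)⁻¹ ^ 2)) := ⟨_, rfl⟩
  have hS0 : 0 ≤ S := by rw [hS]; exact Real.sqrt_nonneg _
  obtain ⟨B, hB'⟩ : ∃ B : ℝ, B = 2 ^ (3 : ℝ) := ⟨_, rfl⟩
  have hB8 : B = 8 := by rw [hB']; norm_num
  obtain ⟨q, hq⟩ : ∃ q : ℝ, q = 2 ^ s := ⟨_, rfl⟩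
  have hq2 : 2 < q := by
    rw [hq]
    have h1 : (2 : ℝ) ^ (1 : ℝ) < 2 ^ s := Real.rpow_lt_rpow_of_exponent_lt (by norm_num) hs2
    rwa [Real.rpow_one] at h1
  have hq0 : 0 < q := by linarith
  obtain ⟨δ, hδ⟩ : ∃ δ : ℝ, δ = 1 / 10 := ⟨_, rfl⟩
  have hδ0 : 0 < δ := by rw [hδ]; norm_num
  -- the largest ratio
  obtain ⟨η, hη⟩ : ∃ η : ℝ, η = min 1 ((q / 2 - 1) / 2) := ⟨_, rfl⟩
  have hη0 : 0 < η := by rw [hη]; exact lt_min one_pos (by linarith)
  have hη1 : η ≤ 1 := by rw [hη]; exact min_le_left _ _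
  have hη2 : η ≤ (q / 2 - 1) / 2 := by rw [hη]; exact min_le_right _ _
  obtain ⟨rm, hrm⟩ : ∃ rm, rm = 2 * (1 + η) := ⟨_, rfl⟩
  have hrm1 : 1 < rm := by rw [hrm]; linarith
  have hrmq : rm < q := by rw [hrm]; linarith
  have hrm0 : 0 < rm := by linarith
  -- the first shell of the region
  obtain ⟨n₁, hn₁⟩ := small_ev (β := 3) (C := K + 1) hν (by linarith : (3 : ℝ) - 2 < s)
    (by linarith) (1 / q)
  rw [← hB', ← hq] at hn₁
  have hlim : Tendsto (fun n : ℕ => (K + 1) * (rm / q) ^ n) atTop (𝓝 0) := by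
    have h1 : rm / q < 1 := by rw [div_lt_one hq0]; exact hrmq
    have := (tendsto_pow_atTop_nhds_zero_of_lt_one (by positivity : 0 ≤ rm / q) h1).const_mul
      (K + 1)
    simpa using this
  obtain ⟨n₂, hn₂⟩ := eventually_atTop.1 (hlim.eventually (gt_mem_nhds
    (by positivity : 0 < ν / 500000)))
  obtain ⟨k, hk⟩ : ∃ k, k = max 1 (max n₁ n₂) := ⟨_, rfl⟩
  have hk1 : 1 ≤ k := by rw [hk]; exact le_max_left _ _
  have hkn₁ : n₁ ≤ k := by rw [hk]; exact (le_max_left _ _).trans (le_max_right _ _)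
  have hkn₂ : n₂ ≤ k := by rw [hk]; exact (le_max_right _ _).trans (le_max_right _ _)
  obtain ⟨E, hE⟩ : ∃ E, E = (K + 1) * (rm / q) ^ k := ⟨_, rfl⟩
  have hE0 : 0 < E := by rw [hE]; positivity
  have hEν : E < ν / 500000 := by
    rw [hE]
    exact hn₂ k hkn₂
  obtain ⟨g, hg⟩ : ∃ g, g = min (δ / (1 + K + rm ^ k * S + rm ^ (k + 1) * S)) (1 / E) := ⟨_, rfl⟩
  have hrk : 0 ≤ rm ^ k * S := by positivity
  have hrk1 : 0 ≤ rm ^ (k + 1) * S := by positivity
  have hden : 0 < 1 + K + rm ^ k * S + rm ^ (k + 1) * S := by positivity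
  have hg0 : 0 < g := by
    rw [hg]
    exact lt_min (by positivity) (by positivity)
  have hg1 : g * (1 + K + rm ^ k * S + rm ^ (k + 1) * S) ≤ δ := by
    rw [← le_div_iff₀ hden, hg]
    exact min_le_left _ _
  have hg2 : g * E ≤ 1 := by
    rw [← le_div_iff₀ hE0, hg]
    exact min_le_right _ _
  obtain ⟨νm, hνm⟩ : ∃ νm, νm = g * ν / 2 := ⟨_, rfl⟩
  have hνm0 : 0 < νm := by rw [hνm]; positivity
  obtain ⟨ρ, hρ1, hρ2, hR⟩ := reg_three hνm0 hη0
  have hρ0 : 0 < ρ := by linarith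
  have hρ3 : ρ ≤ 2 := by linarith
  obtain ⟨r, hr⟩ : ∃ r, r = B * ρ / 4 := ⟨_, rfl⟩
  have hr' : r = 2 * ρ := by rw [hr, hB8]; ring
  have hr1 : 1 < r := by rw [hr']; linarith
  have hr0 : 0 < r := by linarith
  have hrrm : r ≤ rm := by rw [hr', hrm]; linarith
  have hrs : r ≤ 2 ^ s := by rw [← hq]; linarith
  have hgK : g * K ≤ δ := by
    have h1 : g * K ≤ g * (1 + K + rm ^ k * S + rm ^ (k + 1) * S) :=
      mul_le_mul_of_nonneg_left (by linarith) hg0.le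
    linarith
  have hpk : ∀ j : ℕ, r ^ j * S ≤ rm ^ j * S := fun j =>
    mul_le_mul_of_nonneg_right (pow_le_pow_left₀ hr0.le hrrm j) hS0
  have hgS : g * (r ^ k * S) ≤ δ := by
    have h1 : g * (r ^ k * S) ≤ g * (1 + K + rm ^ k * S + rm ^ (k + 1) * S) :=
      mul_le_mul_of_nonneg_left (by linarith [hpk k]) hg0.le
    linarith
  have hgrS : g * (r ^ (k + 1) * S) ≤ δ := by
    have h1 : g * (r ^ (k + 1) * S) ≤ g * (1 + K + rm ^ k * S + rm ^ (k + 1) * S) :=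
      mul_le_mul_of_nonneg_left (by linarith [hpk (k + 1)]) hg0.le
    linarith
  have e64 : 64 / B ^ 2 = 1 := by rw [hB8]; norm_num
  have hR' : Reg (64 / B ^ 2 / ρ ^ 3) ρ (177 / 100) (53 / 50) (7 / 20) (63 / 100) (37 / 100)
      (18 / 25) νm (νm / 2000) := by
    rw [e64]
    exact hR
  have hρk : 1 ≤ ρ ^ k := one_le_pow₀ hρ1.le
  have hνr : νm ≤ ρ ^ k * (ν / (B * ρ ^ 2 / (16 * g))) := by
    have h1 : ν / (B * ρ ^ 2 / (16 * g)) = 2 * g * ν / ρ ^ 2 := by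
      rw [hB8]
      field_simp
      norm_num
    have h2 : νm ≤ 2 * g * ν / ρ ^ 2 := by
      rw [hνm, le_div_iff₀ (by positivity)]
      have h3 : ρ ^ 2 ≤ 4 := by nlinarith
      have h4 : 0 < g * ν := by positivity
      nlinarith
    have h3 : 0 ≤ 2 * g * ν / ρ ^ 2 := by positivity
    rw [h1]
    nlinarith
  have hgEν : g * E < g * (ν / 500000) := mul_lt_mul_of_pos_left hEν hg0
  have hgν : 0 < g * ν := by positivity
  have hcore := crit_core (E := E) hν hs hK0 hS hB' hR' hr hr1 hrs hδ0 (by rw [hδ]; norm_num)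
    (by rw [hδ]; norm_num) (by rw [hδ]; norm_num) (by rw [hδ]; norm_num) hg0 hgK
    hgS hgrS hk1 (fun n hn => ?_) hE0.le (fun n hn => ?_) hg2 (by rw [hνm]; linarith) ?_ hνr
  · obtain ⟨C, hC⟩ := hcore
    obtain ⟨s', h1, h2, h3, h4⟩ := expo hB' hr hr1 hrs hρ1
    refine ⟨s', C, h1, h2, h3, fun T N x X hT hK hG t ht n => ?_⟩
    rw [pow_mul_nat, h4]
    exact hC T N x X hT hK hG t ht n
  · have h1 := hn₁ n (hkn₁.trans hn)
    rw [← hq]
    have h2 : B ^ n * ((K + 1) / q ^ (n + 1)) = B ^ n * ((K + 1) / q ^ n) * (1 / q) := by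
      field_simp
      ring
    have h3 : 0 < ν / 2 * 4 ^ n := by positivity
    rw [h2]
    linarith
  · rw [← hq, hE]
    have h1 : r ^ n * ((K + 1) / q ^ n) = (K + 1) * (r / q) ^ n := by
      rw [div_pow]
      field_simp
    rw [h1]
    apply mul_le_mul_of_nonneg_left _ (by linarith)
    calc (r / q) ^ n ≤ (rm / q) ^ n :=
          pow_le_pow_left₀ (by positivity) (div_le_div_of_nonneg_right hrrm hq0.le) n
      _ ≤ (rm / q) ^ k :=
          pow_le_pow_of_le_one (by positivity) (by rw [div_le_one hq0]; exact hrmq.le) hn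
  · rw [e64]
    have h1 : 1 / ρ ^ 3 ≤ 1 := div_le_self (by norm_num) (one_le_pow₀ hρ1.le)
    have h2 : 1 / ρ ^ 3 * (g * E) ≤ 1 * (g * E) :=
      mul_le_mul_of_nonneg_right h1 (by positivity)
    have h3 : (1 - 18 / 25 : ℝ) * νm ≤ (1 - 18 / 25) * (ρ ^ k * (ν / (B * ρ ^ 2 / (16 * g)))) :=
      mul_le_mul_of_nonneg_left hνr (by norm_num)
    rw [hνm] at h3
    linarith

theorem stmC : StmC := by
  intro β ν s K hβ hν hs hs2 hK
  rcases lt_or_ge β 2 with h | h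
  · exact crit_low h hν hs hK
  · rcases hβ.lt_or_eq with h' | h'
    · exact crit_high h h' hν hs hs2 hK
    · subst h'
      exact crit_three hν (by linarith) hK

end Run7.h969.Dz
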