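import Pool.Agent.Run7.h969.Dz.Defs
import Pool.Agent.Run7.h32.Dy.B
import Pool.Agent.Run7.h969.Dy.Crit

/-!
The dyadic model for real data: energy, negative parts and decay (helper969).
-/

set_option autoImplicit false

open Set Filter Topology MeasureTheory

namespace Run7.h969.Dz

open Run7.h969.Dy

/-- The energy equality of the truncated system. -/
theorem gal_energy {β ν T : ℝ} {N : ℕ} {x : ℕ → ℝ} {X : ℕ → ℝ → ℝ} (h : Gal β ν T N x X)
    {t : ℝ} (ht : t ∈ Icc 0 T) :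
    ∑ n ∈ Finset.range (N + 1), X n t ^ 2
      + 2 * ν * ∫ s in (0 : ℝ)..t, ∑ n ∈ Finset.range (N + 1), 4 ^ n * X n s ^ 2
      = ∑ n ∈ Finset.range (N + 1), x n ^ 2 := by
  have hsub : Icc 0 t ⊆ Icc 0 T := Icc_subset_Icc_right ht.2
  have hc := Pool.Agent.Run7.h32.Dy.gal_cont h
  have hE : ∀ s ∈ Icc 0 T, HasDerivWithinAt (fun s => ∑ n ∈ Finset.range (N + 1), X n s ^ 2)
      (-(2 * ν * ∑ n ∈ Finset.range (N + 1), 4 ^ n * X n s ^ 2)) (Icc 0 T) s := by
    intro s hs
    refine (Pool.Agent.Run7.h32.Dy.energy_hd N fun n hn => h.ode n hn s hs).congr_deriv ?_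
    rw [h.zero (N + 1) (Nat.lt_succ_self N) s]
    ring
  have hi : ContinuousOn (fun s => ∑ n ∈ Finset.range (N + 1), 4 ^ n * X n s ^ 2) (Icc 0 T) :=
    continuousOn_finsetSum _ fun n _ => continuousOn_const.mul ((hc n).pow 2)
  have h1 : ∫ s in (0 : ℝ)..t, -(2 * ν * ∑ n ∈ Finset.range (N + 1), 4 ^ n * X n s ^ 2)
      = ∑ n ∈ Finset.range (N + 1), X n t ^ 2 - ∑ n ∈ Finset.range (N + 1), X n 0 ^ 2 := by
    refine intervalIntegral.integral_eq_sub_of_hasDerivAt_of_le ht.1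
      (f := fun s => ∑ n ∈ Finset.range (N + 1), X n s ^ 2) ?_ ?_ ?_
    · exact fun s hs => ((hE s (hsub hs)).mono hsub).continuousWithinAt
    · intro s hs
      exact (hE s ⟨hs.1.le, hs.2.le.trans ht.2⟩).hasDerivAt
        (Icc_mem_nhds hs.1 (hs.2.trans_le ht.2))
    · refine ContinuousOn.intervalIntegrable ?_
      rw [uIcc_of_le ht.1]
      exact ((continuousOn_const.mul hi).neg).mono hsub
  have h2 : ∑ n ∈ Finset.range (N + 1), X n 0 ^ 2 = ∑ n ∈ Finset.range (N + 1), x n ^ 2 :=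
    Finset.sum_congr rfl fun n hn => by rw [h.init n (Nat.lt_succ_iff.1 (Finset.mem_range.1 hn))]
  rw [intervalIntegral.integral_neg, intervalIntegral.integral_const_mul, h2] at h1
  linarith

/-- The energy of the initial value. -/
lemma energy_bd {s K : ℝ} {x : ℕ → ℝ} (hs : 0 < s)
    (hK : ∀ n : ℕ, (2 : ℝ) ^ (s * n) * |x n| ≤ K) (N : ℕ) :
    ∑ n ∈ Finset.range (N + 1), x n ^ 2 ≤ K ^ 2 / (1 - ((2 : ℝ) ^ s)⁻¹ ^ 2) := by
  have := Run7.h969.Dy.energy_bd (x := fun n => |x n|) hs (fun n => abs_nonneg _) hK N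
  simpa only [sq_abs] using this

/-- Bounds from the energy. -/
lemma le_energy {β ν s K T : ℝ} {N : ℕ} {x : ℕ → ℝ} {X : ℕ → ℝ → ℝ} (hν : 0 < ν)
    (hs : 0 < s) (hK : ∀ n : ℕ, (2 : ℝ) ^ (s * n) * |x n| ≤ K)
    (hG : Gal β ν T N x X) {t : ℝ} (ht : t ∈ Icc 0 T) (n : ℕ) :
    |X n t| ≤ √(K ^ 2 / (1 - ((2 : ℝ) ^ s)⁻¹ ^ 2)) := by
  by_cases hn : n ≤ N
  · apply Real.abs_le_sqrt
    have h1 : X n t ^ 2 ≤ ∑ n ∈ Finset.range (N + 1), X n t ^ 2 :=
      Finset.single_le_sum (f := fun n => X n t ^ 2) (fun n _ => sq_nonneg _)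
        (Finset.mem_range.2 (by omega))
    have h2 := energy_bd hs hK N
    have h3 : 0 ≤ 2 * ν * ∫ s in (0 : ℝ)..t, ∑ n ∈ Finset.range (N + 1), 4 ^ n * X n s ^ 2 := by
      apply mul_nonneg (by positivity)
      exact intervalIntegral.integral_nonneg ht.1 fun s _ =>
        Finset.sum_nonneg fun n _ => by positivity
    have h4 := gal_energy hG ht
    linarith
  · rw [hG.zero n (by omega) t, abs_zero]
    exact Real.sqrt_nonneg _

/-- The negative parts of the high shells do not grow. -/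
theorem neg_part {β ν s K T : ℝ} {N n₀ : ℕ} {x : ℕ → ℝ} {X : ℕ → ℝ → ℝ}
    (hK0 : 0 < K) (hK : ∀ n : ℕ, (2 : ℝ) ^ (s * n) * |x n| < K) (hG : Gal β ν T N x X)
    (h₀ : 1 ≤ n₀) (hn₀ : ∀ n ≥ n₀, ((2 : ℝ) ^ β) ^ n * (K / ((2 : ℝ) ^ s) ^ (n + 1)) < ν * 4 ^ n) :
    ∀ n ≥ n₀, ∀ t ∈ Icc 0 T, -(K / ((2 : ℝ) ^ s) ^ n) < X n t := by
  obtain ⟨q, hq⟩ : ∃ q : ℝ, q = 2 ^ s := ⟨_, rfl⟩
  obtain ⟨B, hB⟩ : ∃ B : ℝ, B = 2 ^ β := ⟨_, rfl⟩
  have hq0 : 0 < q := by rw [hq]; exact Real.rpow_pos_of_pos two_pos _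
  have hB0 : 0 < B := by rw [hB]; exact Real.rpow_pos_of_pos two_pos _
  rw [← hq, ← hB] at hn₀
  rw [← hq]
  have hc := Pool.Agent.Run7.h32.Dy.gal_cont hG
  have key := barrier (ι := Fin (N + 1)) (T := T)
    (fun i t => if n₀ ≤ (i : ℕ) then X i t + K / q ^ (i : ℕ) else 1) ?_ ?_ ?_
  · intro n hn t ht
    by_cases hN : n ≤ N
    · have h1 := key ⟨n, by omega⟩ t ht
      rw [if_pos (show n₀ ≤ n from hn)] at h1
      linarith
    · rw [hG.zero n (by omega) t, neg_lt_zero]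
      positivity
  · intro i
    by_cases hi : n₀ ≤ (i : ℕ)
    · simp only [hi, ite_true]
      exact (hc _).add continuousOn_const
    · simp only [hi, ite_false]
      exact continuousOn_const
  · intro i
    by_cases hi : n₀ ≤ (i : ℕ)
    · simp only [hi, ite_true]
      rw [hG.init i (by omega)]
      have h1 := hK i
      rw [pow_mul_nat, ← hq] at h1
      have h2 : |x i| < K / q ^ (i : ℕ) := by
        rw [lt_div_iff₀ (by positivity), mul_comm]
        exact h1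
      linarith [neg_abs_le (x i)]
    · simp only [hi, ite_false]
      exact one_pos
  · intro i t ht hall hi0
    by_cases hi : n₀ ≤ (i : ℕ)
    · simp only [hi, ite_true] at hi0 ⊢
      obtain ⟨n, hn⟩ := i
      simp only at hi hi0 ⊢
      obtain ⟨m, rfl⟩ : ∃ m, n = m + 1 := ⟨n - 1, by omega⟩
      refine ⟨_, ?_, (hG.ode (m + 1) (by omega) t ⟨ht.1.le, ht.2⟩).add_const _⟩
      have h1 : X (m + 1) t = -(K / q ^ (m + 1)) := by linarith
      have h2 : -(K / q ^ (m + 2)) ≤ X (m + 2) t := by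
        by_cases hN : m + 2 ≤ N
        · have h3 := hall ⟨m + 2, by omega⟩
          rw [if_pos (show n₀ ≤ m + 2 by omega)] at h3
          have h3' : 0 ≤ X (m + 2) t + K / q ^ (m + 2) := h3
          linarith
        · rw [hG.zero (m + 2) (by omega) t, neg_nonpos]
          positivity
      have h3 := hn₀ (m + 1) hi
      have h4 : (2 : ℝ) ^ (β * ((m : ℝ) + 1)) = B ^ (m + 1) := by
        have := pow_mul_nat β (m + 1)
        rw [Nat.cast_add, Nat.cast_one] at this
        rw [this, hB]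
      show 0 < (2 : ℝ) ^ (β * m) * X m t ^ 2
        - (2 : ℝ) ^ (β * ((m : ℝ) + 1)) * (X (m + 1) t * X (m + 2) t)
        - ν * 4 ^ (m + 1) * X (m + 1) t
      rw [h4, h1]
      have h5 : 0 ≤ (2 : ℝ) ^ (β * m) * X m t ^ 2 :=
        mul_nonneg (Real.rpow_nonneg two_pos.le _) (sq_nonneg _)
      have h6 : 0 < K / q ^ (m + 1) := by positivity
      have h7 : B ^ (m + 1) * -(K / q ^ (m + 2)) ≤ B ^ (m + 1) * X (m + 2) t :=
        mul_le_mul_of_nonneg_left h2 (by positivity)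
      have h8 : 0 < B ^ (m + 1) * X (m + 2) t + ν * 4 ^ (m + 1) := by linarith
      have h9 := mul_pos h6 h8
      linarith
    · simp only [hi, ite_false] at hi0
      exact absurd hi0 one_ne_zero

/-- The comparison with the linear equation, with both signs. -/
theorem decay2 {f g a : ℝ → ℝ} {T l P M : ℝ}
    (hd : ∀ t ∈ Icc 0 T, HasDerivWithinAt f (g t - a t * f t) (Icc 0 T) t)
    (ha : ContinuousOn a (Icc 0 T)) (hg0 : ∀ t ∈ Icc 0 T, 0 ≤ g t)
    (hgP : ∀ t ∈ Icc 0 T, g t ≤ l * P) (hal : ∀ t ∈ Icc 0 T, l ≤ a t) (hl : 0 ≤ l) (hP : 0 ≤ P)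
    (hM : 0 ≤ M) (h0 : |f 0| ≤ P + M) :
    ∀ t ∈ Icc 0 T, |f t| ≤ P + M * Real.exp (-(l * t)) := by
  have hexp : ∀ t : ℝ, HasDerivAt (fun t => P + M * Real.exp (-(l * t)))
      (-(l * (M * Real.exp (-(l * t))))) t := by
    intro t
    have h1 : HasDerivAt (fun t : ℝ => -(l * t)) (-l) t := by
      simpa using ((hasDerivAt_id t).const_mul l).fun_neg
    refine ((h1.exp.const_mul M).const_add P).congr_deriv ?_
    ring
  have h1 := Pool.Agent.Run7.h32.Dy.nn_of_lin (T := T)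
    (f := fun t => P + M * Real.exp (-(l * t)) - f t)
    (g := fun t => a t * P - g t + (a t - l) * (M * Real.exp (-(l * t)))) (a := a)
    (fun t ht => ((hexp t).hasDerivWithinAt.sub (hd t ht)).congr_deriv (by ring)) ha
    (fun t ht => by
      have e1 := hgP t ht
      have e2 := hal t ht
      have e3 : l * P ≤ a t * P := mul_le_mul_of_nonneg_right e2 hP
      have e4 : 0 ≤ (a t - l) * (M * Real.exp (-(l * t))) :=
        mul_nonneg (by linarith) (by positivity)
      linarith)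
    (by
      simp only [mul_zero, neg_zero, Real.exp_zero, mul_one]
      linarith [le_abs_self (f 0)])
  have h2 := Pool.Agent.Run7.h32.Dy.nn_of_lin (T := T)
    (f := fun t => P + M * Real.exp (-(l * t)) + f t)
    (g := fun t => a t * P + g t + (a t - l) * (M * Real.exp (-(l * t)))) (a := a)
    (fun t ht => ((hexp t).hasDerivWithinAt.add (hd t ht)).congr_deriv (by ring)) ha
    (fun t ht => by
      have e1 := hg0 t ht
      have e2 := hal t ht
      have e3 : l * P ≤ a t * P := mul_le_mul_of_nonneg_right e2 hP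
      have e5 : 0 ≤ l * P := mul_nonneg hl hP
      have e4 : 0 ≤ (a t - l) * (M * Real.exp (-(l * t))) :=
        mul_nonneg (by linarith) (by positivity)
      linarith)
    (by
      simp only [mul_zero, neg_zero, Real.exp_zero, mul_one]
      linarith [neg_abs_le (f 0)])
  intro t ht
  have e1 := h1 t ht
  have e2 := h2 t ht
  rw [abs_le]
  constructor <;> linarith

end Run7.h969.Dz
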