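import Pool.Agent.Run7.h969.Dz.Uniq

/-!
The dyadic model for real data: weak-strong uniqueness (helper969).
-/

set_option autoImplicit false

open Set Filter Topology MeasureTheory

namespace Run7.h969.Dz

open Run7.h969.Dy

/-- The inequality of Grönwall for an integral inequality. -/
lemma gron {y : ℝ → ℝ} {T ε K : ℝ} (hy : ContinuousOn y (Icc 0 T)) (hK : 0 ≤ K)
    (h : ∀ t ∈ Icc 0 T, y t ≤ ε + K * ∫ s in (0 : ℝ)..t, y s) :
    ∀ t ∈ Icc 0 T, y t ≤ ε * Real.exp (K * t) := by
  intro t ht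
  have hT : 0 ≤ T := ht.1.trans ht.2
  obtain ⟨G, hG⟩ : ∃ G : ℝ → ℝ, G = fun t => ε + K * ∫ s in (0 : ℝ)..t, y s := ⟨_, rfl⟩
  have hint : IntegrableOn y (Icc 0 T) := hy.integrableOn_Icc
  have hGc : ContinuousOn G (Icc 0 T) := by
    rw [hG]
    have h1 := intervalIntegral.continuousOn_primitive_interval (μ := volume) (f := y) (a := 0)
      (b := T) (by rw [uIcc_of_le hT]; exact hint)
    rw [uIcc_of_le hT] at h1
    exact continuousOn_const.add (continuousOn_const.mul h1)
  have hGd : ∀ r ∈ Ioo 0 T, HasDerivAt G (K * y r) r := by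
    intro r hr
    rw [hG]
    have h1 : HasDerivAt (fun t => ∫ s in (0 : ℝ)..t, y s) (y r) r := by
      apply intervalIntegral.integral_hasDerivAt_right
      · refine ContinuousOn.intervalIntegrable ?_
        rw [uIcc_of_le hr.1.le]
        exact hy.mono (Icc_subset_Icc le_rfl hr.2.le)
      · exact (hy.mono Ioo_subset_Icc_self).stronglyMeasurableAtFilter isOpen_Ioo r hr
      · exact hy.continuousAt (Icc_mem_nhds hr.1 hr.2)
    exact (h1.const_mul K).const_add ε
  have hexp : ∀ r : ℝ, HasDerivAt (fun r => Real.exp (-(K * r))) (-(K * Real.exp (-(K * r)))) r := by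
    intro r
    have h1 : HasDerivAt (fun r : ℝ => -(K * r)) (-K) r := by
      simpa using ((hasDerivAt_id r).const_mul K).fun_neg
    refine h1.exp.congr_deriv ?_
    ring
  have hanti : AntitoneOn (fun r => G r * Real.exp (-(K * r))) (Icc 0 T) := by
    apply antitoneOn_of_deriv_nonpos (convex_Icc 0 T)
    · exact hGc.mul fun r _ => (hexp r).continuousAt.continuousWithinAt
    · intro r hr
      rw [interior_Icc] at hr
      exact ((hGd r hr).mul (hexp r)).differentiableAt.differentiableWithinAt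
    · intro r hr
      rw [interior_Icc] at hr
      have h1 : HasDerivAt (fun r => G r * Real.exp (-(K * r)))
          (K * y r * Real.exp (-(K * r)) + G r * -(K * Real.exp (-(K * r)))) r :=
        (hGd r hr).mul (hexp r)
      rw [h1.deriv]
      have h2 : y r ≤ G r := by
        rw [hG]
        exact h r ⟨hr.1.le, hr.2.le⟩
      have h3 : K * Real.exp (-(K * r)) * (y r - G r) ≤ 0 :=
        mul_nonpos_of_nonneg_of_nonpos (by positivity) (by linarith)
      linarith
  have h1 := hanti ⟨le_rfl, hT⟩ ht ht.1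
  have h2 : G 0 * Real.exp (-(K * 0)) = ε := by
    rw [hG]
    simp
  simp only at h1
  rw [h2] at h1
  have h3 : y t ≤ G t := by
    rw [hG]
    exact h t ht
  have h4 : Real.exp (-(K * t)) * Real.exp (K * t) = 1 := by
    rw [← Real.exp_add, neg_add_cancel, Real.exp_zero]
  calc y t ≤ G t := h3
    _ = G t * (Real.exp (-(K * t)) * Real.exp (K * t)) := by rw [h4, mul_one]
    _ = G t * Real.exp (-(K * t)) * Real.exp (K * t) := by ring
    _ ≤ ε * Real.exp (K * t) := mul_le_mul_of_nonneg_right h1 (Real.exp_pos _).le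

set_option maxHeartbeats 1000000 in
theorem stmF : StmF := by
  intro β ν s C x X Z hν hs0 hs hX hXs hZ hZe
  have hXe := ei_strong hν hs0 hs hX hXs
  obtain ⟨B, hB⟩ : ∃ B : ℝ, B = 2 ^ β := ⟨_, rfl⟩
  obtain ⟨q, hq⟩ : ∃ q : ℝ, q = 2 ^ s := ⟨_, rfl⟩
  have hB0 : 0 < B := by rw [hB]; exact Real.rpow_pos_of_pos two_pos _
  have hq0 : 0 < q := by rw [hq]; exact Real.rpow_pos_of_pos two_pos _
  have hq1 : 1 < q := by rw [hq]; exact Real.one_lt_rpow (by norm_num) hs0
  have hσ : B / (4 * q) < 1 := by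
    rw [div_lt_one (by positivity), hB, hq]
    have h1 : (4 : ℝ) * 2 ^ s = 2 ^ (2 + s) := by
      rw [Real.rpow_add two_pos]
      norm_num
    rw [h1]
    exact Real.rpow_lt_rpow_of_exponent_lt (by norm_num) (by linarith)
  have hσ0 : 0 < B / (4 * q) := by positivity
  have hC0 : 0 ≤ C := by
    have h1 := hXs 0 0 le_rfl
    simp only [Nat.cast_zero, mul_zero, Real.rpow_zero, one_mul] at h1
    exact (abs_nonneg _).trans h1
  have hXs' : ∀ (n : ℕ) t, 0 ≤ t → |X n t| ≤ C / q ^ n := by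
    intro n t ht
    have := hXs n t ht
    rw [pow_mul_nat, ← hq] at this
    rw [le_div_iff₀ (by positivity), mul_comm]
    exact this
  have hXs1 : ∀ (n : ℕ) t, 0 ≤ t → |X (n + 1) t| ≤ C / q ^ n := by
    intro n t ht
    refine (hXs' (n + 1) t ht).trans ?_
    apply div_le_div_of_nonneg_left hC0 (by positivity)
    exact pow_le_pow_right₀ hq1.le (Nat.le_succ n)
  -- the constant of absorption
  obtain ⟨n₀, hn₀⟩ := small_ev (β := β) hν hs hC0 2
  rw [← hB, ← hq] at hn₀
  obtain ⟨K, hKd⟩ : ∃ K, K = ∑ n ∈ Finset.range n₀, B ^ n * (C / q ^ n) := ⟨_, rfl⟩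
  have hK0 : 0 ≤ K := by rw [hKd]; exact Finset.sum_nonneg fun n _ => by positivity
  have hKn : ∀ n : ℕ, B ^ n * (C / q ^ n) ≤ ν / 4 * 4 ^ n + K := by
    intro n
    by_cases hn : n₀ ≤ n
    · have := hn₀ n hn
      linarith
    · have h1 : B ^ n * (C / q ^ n) ≤ K := by
        rw [hKd]
        exact Finset.single_le_sum (f := fun n => B ^ n * (C / q ^ n)) (fun n _ => by positivity)
          (Finset.mem_range.2 (by omega))
      have h2 : 0 ≤ ν / 4 * 4 ^ n := by positivity
      linarith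
  -- the energy
  obtain ⟨E, hE⟩ : ∃ E, E = ∑' n, x n ^ 2 := ⟨_, rfl⟩
  have hE0 : 0 ≤ E := by rw [hE]; exact tsum_nonneg fun n => sq_nonneg _
  have hsum : Summable fun n => x n ^ 2 := by
    have := hXe.1
    simpa only [hX.init] using this
  have hXen : ∀ t, 0 ≤ t → ∀ N : ℕ, ∑ n ∈ Finset.range N, X n t ^ 2
      + 2 * ν * ∫ r in (0 : ℝ)..t, ∑ n ∈ Finset.range N, 4 ^ n * X n r ^ 2 ≤ E := by
    intro t ht N
    have := hXe.2 t ht N
    simpa only [hX.init, ← hE] using this
  have hZen : ∀ t, 0 ≤ t → ∀ N : ℕ, ∑ n ∈ Finset.range N, Z n t ^ 2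
      + 2 * ν * ∫ r in (0 : ℝ)..t, ∑ n ∈ Finset.range N, 4 ^ n * Z n r ^ 2 ≤ E := by
    intro t ht N
    have := hZe.2 t ht N
    simpa only [hZ.init, ← hE] using this
  intro n T hT
  have hcX : ∀ k, ContinuousOn (X k) (Icc 0 T) := fun k => (hX.cont k).mono Icc_subset_Ici_self
  have hcZ : ∀ k, ContinuousOn (Z k) (Icc 0 T) := fun k => (hZ.cont k).mono Icc_subset_Ici_self
  -- the bound for every `N`
  obtain ⟨ε, hε⟩ : ∃ ε : ℕ → ℝ, ε = fun N => 2 * (E - ∑ n ∈ Finset.range (N + 1), x n ^ 2)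
    + 16 * C * (B / (4 * q)) ^ N * (E / ν) := ⟨_, rfl⟩
  have key : ∀ N : ℕ, ∑ k ∈ Finset.range (N + 1), (X k T - Z k T) ^ 2
      ≤ ε N * Real.exp (4 * K * T) := by
    intro N
    have hyc : ContinuousOn (fun t => ∑ k ∈ Finset.range (N + 1), (X k t - Z k t) ^ 2) (Icc 0 T) :=
      continuousOn_finsetSum _ fun k _ => ((hcX k).sub (hcZ k)).pow 2
    refine gron hyc (by positivity) (fun t ht => ?_) T ⟨hT, le_rfl⟩
    have hsub : Icc 0 t ⊆ Icc 0 T := Icc_subset_Icc_right ht.2
    have hii : ∀ f : ℝ → ℝ, ContinuousOn f (Icc 0 T) → IntervalIntegrable f volume 0 t := by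
      intro f hf
      refine ContinuousOn.intervalIntegrable ?_
      rw [uIcc_of_le ht.1]
      exact hf.mono hsub
    -- the product
    have hcr : ContinuousOn (fun r => ∑ k ∈ Finset.range (N + 1),
        (X k r * rhs β ν (fun j => Z j r) k + Z k r * rhs β ν (fun j => X j r) k)) (Icc 0 T) :=
      continuousOn_finsetSum _ fun k _ =>
        ((hcX k).mul (Pool.Agent.Run7.h32.Dy.rhs_cont hcZ k)).add
          ((hcZ k).mul (Pool.Agent.Run7.h32.Dy.rhs_cont hcX k))
    have hJ : ∫ r in (0 : ℝ)..t, ∑ k ∈ Finset.range (N + 1),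
        (X k r * rhs β ν (fun j => Z j r) k + Z k r * rhs β ν (fun j => X j r) k)
        = ∑ k ∈ Finset.range (N + 1), X k t * Z k t - ∑ k ∈ Finset.range (N + 1), x k ^ 2 := by
      have h0 : ∑ k ∈ Finset.range (N + 1), x k ^ 2
          = ∑ k ∈ Finset.range (N + 1), X k 0 * Z k 0 :=
        Finset.sum_congr rfl fun k _ => by rw [hX.init, hZ.init, pow_two]
      rw [h0]
      refine intervalIntegral.integral_eq_sub_of_hasDerivAt_of_le ht.1
        (f := fun r => ∑ k ∈ Finset.range (N + 1), X k r * Z k r) ?_ ?_ (hii _ hcr)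
      · exact continuousOn_finsetSum _ fun k _ => ((hcX k).mono hsub).mul ((hcZ k).mono hsub)
      · intro r hr
        have h1 : HasDerivAt (fun r => ∑ k ∈ Finset.range (N + 1), X k r * Z k r)
            (∑ k ∈ Finset.range (N + 1), (rhs β ν (fun j => X j r) k * Z k r
              + X k r * rhs β ν (fun j => Z j r) k)) r :=
          HasDerivAt.fun_sum fun k _ => (hX.ode k r hr.1).fun_mul (hZ.ode k r hr.1)
        refine h1.congr_deriv ?_
        exact Finset.sum_congr rfl fun k _ => by ring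
    -- the pointwise bound
    have hpt : ∀ r ∈ Icc 0 t, -2 * ∑ k ∈ Finset.range (N + 1),
        (X k r * rhs β ν (fun j => Z j r) k + Z k r * rhs β ν (fun j => X j r) k)
        ≤ 2 * ν * ∑ n ∈ Finset.range (N + 1), 4 ^ n * X n r ^ 2
          + 2 * ν * ∑ n ∈ Finset.range (N + 1), 4 ^ n * Z n r ^ 2
          + 4 * K * ∑ k ∈ Finset.range (N + 1), (X k r - Z k r) ^ 2
          + 16 * C * (B / (4 * q)) ^ N * (∑ n ∈ Finset.range (N + 2), 4 ^ n * X n r ^ 2
            + ∑ n ∈ Finset.range (N + 2), 4 ^ n * Z n r ^ 2) := by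
      intro r hr
      have h1 := cross_id β ν (fun j => X j r) (fun j => Z j r) N
      have h2 := bulk_le (β := β) (K := K) (x := fun j => X j r) (d := fun j => X j r - Z j r) hν hK0
        (fun n => by
          rw [pow_mul_nat, ← hB]
          exact (mul_le_mul_of_nonneg_left (hXs' n r hr.1) (by positivity)).trans (hKn n))
        (fun n => by
          rw [pow_mul_nat, ← hB]
          exact (mul_le_mul_of_nonneg_left (hXs1 n r hr.1) (by positivity)).trans (hKn n)) N
      have h3 := bdry_le (c := Z N r) (d := Z (N + 1) r) (hXs' N r hr.1) (hXs1 N r hr.1)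
      have h4 : B ^ N * (8 * (C / q ^ N) * (X N r ^ 2 + X (N + 1) r ^ 2 + Z N r ^ 2
          + Z (N + 1) r ^ 2)) ≤ 8 * C * (B / (4 * q)) ^ N
          * (∑ n ∈ Finset.range (N + 2), 4 ^ n * X n r ^ 2
            + ∑ n ∈ Finset.range (N + 2), 4 ^ n * Z n r ^ 2) := by
        have e1 : ∀ Y : ℕ → ℝ → ℝ, (4 : ℝ) ^ N * (Y N r ^ 2 + Y (N + 1) r ^ 2)
            ≤ ∑ n ∈ Finset.range (N + 2), (4 : ℝ) ^ n * Y n r ^ 2 := by
          intro Y
          rw [Finset.sum_range_succ, Finset.sum_range_succ]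
          have b1 : 0 ≤ ∑ n ∈ Finset.range N, (4 : ℝ) ^ n * Y n r ^ 2 :=
            Finset.sum_nonneg fun n _ => by positivity
          have b2 : (4 : ℝ) ^ N * Y (N + 1) r ^ 2 ≤ 4 ^ (N + 1) * Y (N + 1) r ^ 2 :=
            mul_le_mul_of_nonneg_right (pow_le_pow_right₀ (by norm_num) (Nat.le_succ N))
              (sq_nonneg _)
          linarith
        have e2 : B ^ N * (8 * (C / q ^ N) * (X N r ^ 2 + X (N + 1) r ^ 2 + Z N r ^ 2
            + Z (N + 1) r ^ 2)) = 8 * C * (B / (4 * q)) ^ N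
            * ((4 : ℝ) ^ N * (X N r ^ 2 + X (N + 1) r ^ 2)
              + (4 : ℝ) ^ N * (Z N r ^ 2 + Z (N + 1) r ^ 2)) := by
          rw [div_pow, mul_pow]
          field_simp
          ring
        rw [e2]
        exact mul_le_mul_of_nonneg_left (add_le_add (e1 X) (e1 Z)) (by positivity)
      have h5 := mul_le_mul_of_nonneg_left h3 (by positivity : 0 ≤ B ^ N)
      have h6 : (2 : ℝ) ^ (β * N) = B ^ N := by rw [pow_mul_nat, hB]
      rw [h6] at h1
      rw [h1]
      nlinarith
    -- the integral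
    have hI : ∀ (Y : ℕ → ℝ → ℝ), (∀ k, ContinuousOn (Y k) (Icc 0 T)) → ∀ M : ℕ,
        IntervalIntegrable (fun r => ∑ n ∈ Finset.range M, (4 : ℝ) ^ n * Y n r ^ 2) volume 0 t :=
      fun Y hY M => hii _ (continuousOn_finsetSum _ fun n _ => continuousOn_const.mul ((hY n).pow 2))
    have h1 : -2 * ∫ r in (0 : ℝ)..t, ∑ k ∈ Finset.range (N + 1),
        (X k r * rhs β ν (fun j => Z j r) k + Z k r * rhs β ν (fun j => X j r) k)
        ≤ 2 * ν * (∫ r in (0 : ℝ)..t, ∑ n ∈ Finset.range (N + 1), 4 ^ n * X n r ^ 2)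
          + 2 * ν * (∫ r in (0 : ℝ)..t, ∑ n ∈ Finset.range (N + 1), 4 ^ n * Z n r ^ 2)
          + 4 * K * (∫ r in (0 : ℝ)..t, ∑ k ∈ Finset.range (N + 1), (X k r - Z k r) ^ 2)
          + 16 * C * (B / (4 * q)) ^ N
            * ((∫ r in (0 : ℝ)..t, ∑ n ∈ Finset.range (N + 2), 4 ^ n * X n r ^ 2)
            + ∫ r in (0 : ℝ)..t, ∑ n ∈ Finset.range (N + 2), 4 ^ n * Z n r ^ 2) := by
      rw [← intervalIntegral.integral_const_mul, ← intervalIntegral.integral_const_mul,
        ← intervalIntegral.integral_const_mul, ← intervalIntegral.integral_const_mul,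
        ← intervalIntegral.integral_add (hI X hcX _) (hI Z hcZ _),
        ← intervalIntegral.integral_const_mul,
        ← intervalIntegral.integral_add ((hI X hcX _).const_mul _) ((hI Z hcZ _).const_mul _),
        ← intervalIntegral.integral_add (((hI X hcX _).const_mul _).add
          ((hI Z hcZ _).const_mul _)) ((hii _ hyc).const_mul _),
        ← intervalIntegral.integral_add ((((hI X hcX _).const_mul _).add
          ((hI Z hcZ _).const_mul _)).add ((hii _ hyc).const_mul _))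
          (((hI X hcX _).add (hI Z hcZ _)).const_mul _)]
      refine intervalIntegral.integral_mono_on ht.1 ((hii _ hcr).const_mul _)
        (((((hI X hcX _).const_mul _).add
          ((hI Z hcZ _).const_mul _)).add ((hii _ hyc).const_mul _)).add
          (((hI X hcX _).add (hI Z hcZ _)).const_mul _)) hpt
    have h2 : ∀ Y : ℕ → ℝ → ℝ, (∀ k, ContinuousOn (Y k) (Icc 0 T)) →
        (∀ t, 0 ≤ t → ∀ N : ℕ, ∑ n ∈ Finset.range N, Y n t ^ 2
      + 2 * ν * ∫ r in (0 : ℝ)..t, ∑ n ∈ Finset.range N, 4 ^ n * Y n r ^ 2 ≤ E) →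
        ∫ r in (0 : ℝ)..t, ∑ n ∈ Finset.range (N + 2), 4 ^ n * Y n r ^ 2 ≤ E / (2 * ν) := by
      intro Y _ hY
      have e1 := hY t ht.1 (N + 2)
      have e2 : 0 ≤ ∑ n ∈ Finset.range (N + 2), Y n t ^ 2 := Finset.sum_nonneg fun n _ => sq_nonneg _
      rw [le_div_iff₀ (by positivity)]
      linarith
    have h3 := h2 X hcX hXen
    have h4 := h2 Z hcZ hZen
    have h5 : 16 * C * (B / (4 * q)) ^ N
        * ((∫ r in (0 : ℝ)..t, ∑ n ∈ Finset.range (N + 2), 4 ^ n * X n r ^ 2)
        + ∫ r in (0 : ℝ)..t, ∑ n ∈ Finset.range (N + 2), 4 ^ n * Z n r ^ 2)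
        ≤ 16 * C * (B / (4 * q)) ^ N * (E / ν) := by
      apply mul_le_mul_of_nonneg_left _ (by positivity)
      have e1 : E / (2 * ν) + E / (2 * ν) = E / ν := by
        field_simp
        ring
      linarith
    have h6 := hXen t ht.1 (N + 1)
    have h7 := hZen t ht.1 (N + 1)
    have h8 : ∑ k ∈ Finset.range (N + 1), (X k t - Z k t) ^ 2
        = ∑ k ∈ Finset.range (N + 1), X k t ^ 2 + ∑ k ∈ Finset.range (N + 1), Z k t ^ 2
          - 2 * ∑ k ∈ Finset.range (N + 1), X k t * Z k t := by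
      rw [Finset.mul_sum, ← Finset.sum_add_distrib, ← Finset.sum_sub_distrib]
      exact Finset.sum_congr rfl fun k _ => by ring
    rw [h8, hε]
    simp only
    rw [hJ] at h1
    linarith
  -- the limit
  have hlim : Tendsto (fun N : ℕ => ε N * Real.exp (4 * K * T)) atTop (𝓝 0) := by
    have h1 : Tendsto (fun N : ℕ => E - ∑ n ∈ Finset.range (N + 1), x n ^ 2) atTop (𝓝 (E - E)) := by
      have h2 := (hsum.hasSum.tendsto_sum_nat).comp (tendsto_add_atTop_nat 1)
      rw [← hE] at h2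
      exact h2.const_sub E
    have h3 : Tendsto (fun N : ℕ => (B / (4 * q)) ^ N) atTop (𝓝 0) :=
      tendsto_pow_atTop_nhds_zero_of_lt_one hσ0.le hσ
    have h4 := ((h1.const_mul 2).add ((h3.const_mul (16 * C)).mul_const (E / ν))).mul_const
      (Real.exp (4 * K * T))
    rw [sub_self, mul_zero, mul_zero, zero_mul, add_zero, zero_mul] at h4
    rw [hε]
    exact h4
  have h1 : (X n T - Z n T) ^ 2 ≤ 0 := by
    refine ge_of_tendsto hlim ?_
    filter_upwards [eventually_ge_atTop n] with N hN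
    refine le_trans ?_ (key N)
    exact Finset.single_le_sum (f := fun k => (X k T - Z k T) ^ 2) (fun k _ => sq_nonneg _)
      (Finset.mem_range.2 (Nat.lt_succ_of_le hN))
  have h2 : X n T - Z n T = 0 := by
    have := le_antisymm h1 (sq_nonneg _)
    exact pow_eq_zero_iff two_ne_zero |>.1 this
  linarith

end Run7.h969.Dz
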