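import Pool.Agent.Run7.h969.Dy.Defs

/-!
The dyadic model for real data (no sign condition): the statements of the parts (helper969).
-/

set_option autoImplicit false

open Set MeasureTheory

namespace Run7.h969.Dz

open Run7.h969.Dy

/-- The energy inequality from the time `s`. -/
def EI (ν : ℝ) (X : ℕ → ℝ → ℝ) (s : ℝ) : Prop :=
  Summable (fun n => X n s ^ 2) ∧ ∀ t, s ≤ t → ∀ N : ℕ,
    ∑ n ∈ Finset.range N, X n t ^ 2 + 2 * ν * ∫ r in s..t, ∑ n ∈ Finset.range N, 4 ^ n * X n r ^ 2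
      ≤ ∑' n, X n s ^ 2

/-- A Leray-Hopf solution on `[0, ∞)` with the initial value `x`: the energy inequality holds from
the time `0` and from almost every time. -/
structure LH (β ν : ℝ) (x : ℕ → ℝ) (X : ℕ → ℝ → ℝ) : Prop where
  sol : IsDy β ν x X
  en0 : EI ν X 0
  en : ∀ᵐ s : ℝ, 0 < s → EI ν X s

/-- C. The decay with a rate better than the critical one, uniformly in the truncation. -/
def StmC : Prop := ∀ β ν s K : ℝ, β ≤ 3 → 0 < ν → 0 < s → β - 2 < s → 0 ≤ K →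
  ∃ s' C : ℝ, 0 < s' ∧ β - 2 < s' ∧ s' ≤ s ∧ ∀ (T : ℝ) (N : ℕ) (x : ℕ → ℝ) (X : ℕ → ℝ → ℝ),
    0 < T → (∀ n : ℕ, (2 : ℝ) ^ (s * n) * |x n| ≤ K) → Gal β ν T N x X →
      ∀ t ∈ Icc 0 T, ∀ n : ℕ, (2 : ℝ) ^ (s' * n) * |X n t| ≤ C

/-- D. Higher regularity is preserved. -/
def StmD : Prop := ∀ (β ν s C r K : ℝ) (x : ℕ → ℝ) (X : ℕ → ℝ → ℝ), 0 < ν → β - 2 < s →
  IsDy β ν x X → (∀ (n : ℕ) t, 0 ≤ t → (2 : ℝ) ^ (s * n) * |X n t| ≤ C) →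
  (∀ n : ℕ, (2 : ℝ) ^ (r * n) * |x n| ≤ K) →
    ∃ C' : ℝ, ∀ (n : ℕ) t, 0 ≤ t → (2 : ℝ) ^ (r * n) * |X n t| ≤ C'

/-- E. The limit of the truncated systems. -/
def StmE : Prop := ∀ (β ν s C : ℝ) (x : ℕ → ℝ), 0 < ν → 0 < s → β - 2 < s →
  (∀ (T : ℝ) (N : ℕ) (X : ℕ → ℝ → ℝ), 0 < T → Gal β ν T N x X →
    ∀ t ∈ Icc 0 T, ∀ n : ℕ, (2 : ℝ) ^ (s * n) * |X n t| ≤ C) →
  ∃ X : ℕ → ℝ → ℝ, IsDy β ν x X ∧ ∀ (n : ℕ) t, 0 ≤ t → (2 : ℝ) ^ (s * n) * |X n t| ≤ C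

/-- E'. A solution which decays with a rate better than the critical one satisfies the energy
inequality from all times. -/
def StmE' : Prop := ∀ (β ν s C : ℝ) (x : ℕ → ℝ) (X : ℕ → ℝ → ℝ), 0 < ν → 0 < s → β - 2 < s →
  IsDy β ν x X → (∀ (n : ℕ) t, 0 ≤ t → (2 : ℝ) ^ (s * n) * |X n t| ≤ C) → ∀ t, 0 ≤ t → EI ν X t

/-- F. A solution which decays with a rate better than the critical one is unique among all the
solutions with the same initial values and the energy inequality. -/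
def StmF : Prop := ∀ (β ν s C : ℝ) (x : ℕ → ℝ) (X Z : ℕ → ℝ → ℝ), 0 < ν → 0 < s → β - 2 < s →
  IsDy β ν x X → (∀ (n : ℕ) t, 0 ≤ t → (2 : ℝ) ^ (s * n) * |X n t| ≤ C) →
  IsDy β ν x Z → EI ν Z 0 → ∀ n t, 0 ≤ t → Z n t = X n t

/-- H. Square summable data have Leray-Hopf solutions. -/
def StmH : Prop := ∀ (β ν : ℝ) (x : ℕ → ℝ), β < 3 → 0 < ν → Summable (fun n => x n ^ 2) →
  ∃ X : ℕ → ℝ → ℝ, LH β ν x X

/-- G. Smoothing. -/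
def StmS : Prop := ∀ (β ν s C : ℝ) (x : ℕ → ℝ) (X : ℕ → ℝ → ℝ), 0 < ν → β - 2 < s →
  IsDy β ν x X → (∀ (n : ℕ) t, 0 ≤ t → (2 : ℝ) ^ (s * n) * |X n t| ≤ C) →
    ∀ τ r : ℝ, 0 < τ → ∃ C' : ℝ, ∀ (n : ℕ) t, τ ≤ t → (2 : ℝ) ^ (r * n) * |X n t| ≤ C'

/-- The theorem for data with a decay rate better than the critical one. -/
def StmReal : Prop := ∀ (β ν s : ℝ) (x : ℕ → ℝ), β ≤ 3 → 0 < ν → 0 < s → β - 2 < s →
  (∃ K, ∀ n : ℕ, (2 : ℝ) ^ (s * n) * |x n| ≤ K) →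
    ∃ X : ℕ → ℝ → ℝ, IsDy β ν x X ∧ (∀ t, 0 ≤ t → EI ν X t) ∧
      (∀ Z, IsDy β ν x Z → EI ν Z 0 → ∀ n t, 0 ≤ t → Z n t = X n t) ∧
      (∀ r : ℝ, (∃ K, ∀ n : ℕ, (2 : ℝ) ^ (r * n) * |x n| ≤ K) →
        ∃ K, ∀ (n : ℕ) t, 0 ≤ t → (2 : ℝ) ^ (r * n) * |X n t| ≤ K) ∧
      ∀ τ r : ℝ, 0 < τ → ∃ K, ∀ (n : ℕ) t, τ ≤ t → (2 : ℝ) ^ (r * n) * |X n t| ≤ K

/-- The theorem for square summable data: all the Leray-Hopf solutions are smooth. -/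
def StmLH : Prop := ∀ (β ν : ℝ) (x : ℕ → ℝ) (X : ℕ → ℝ → ℝ), β < 3 → 0 < ν → LH β ν x X →
  ∀ τ r : ℝ, 0 < τ → ∃ K, ∀ (n : ℕ) t, τ ≤ t → (2 : ℝ) ^ (r * n) * |X n t| ≤ K

/-- The assembly. -/
theorem real_of (hC : StmC) (hD : StmD) (hE : StmE) (hE' : StmE') (hF : StmF) (hS : StmS) :
    StmReal := by
  intro β ν s x hβ hν hs hs2 ⟨K, hK⟩
  have hK0 : 0 ≤ K := by
    have := hK 0
    simp only [Nat.cast_zero, mul_zero, Real.rpow_zero, one_mul] at this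
    exact (abs_nonneg _).trans this
  obtain ⟨s', C, hs'0, hs'1, hs'2, hC'⟩ := hC β ν s K hβ hν hs hs2 hK0
  obtain ⟨X, hX, hXB⟩ := hE β ν s' C x hν hs'0 hs'1
    (fun T N X hT hG t ht n => hC' T N x X hT hK hG t ht n)
  refine ⟨X, hX, hE' β ν s' C x X hν hs'0 hs'1 hX hXB,
    fun Z hZ hZe => hF β ν s' C x X Z hν hs'0 hs'1 hX hXB hZ hZe, ?_, ?_⟩
  · rintro r ⟨K', hK'⟩
    exact hD β ν s' C r K' x X hν hs'1 hX hXB hK'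
  · intro τ r hτ
    exact hS β ν s' C x X hν hs'1 hX hXB τ r hτ

end Run7.h969.Dz
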