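import Pool.Agent.Run7.h969.Dy.Region
import Pool.Agent.Run7.h969.Dz.Defs

/-!
The dyadic model for real data: an invariant region with a margin (helper969).
-/

set_option autoImplicit false

open Set Filter Topology

namespace Run7.h969.Dz

open Run7.h969.Dy

/-- The relations between two neighbouring shells, with negative parts at most `e`. -/
def PP (κ a₁ a₂ b₂ c d lam e x y ν : ℝ) : Prop :=
  a₁ * x - (a₁ - 1) ≤ κ * (y + e) + lam * ν ∧ a₂ * x - b₂ ≤ κ * (y + e) + lam * ν ∧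
    y ≤ c * (x + e) + d

/-- The parameters of an invariant region, for the shells with the relative viscosity `ν ≥ νm`,
with the margin `μ`. -/
structure Reg (κ ρ a₁ a₂ b₂ c d lam νm μ : ℝ) : Prop where
  κ0 : 0 < κ
  κ4 : κ ≤ 4
  ρ1 : 1 < ρ
  a1 : 1 < a₁
  a14 : a₁ ≤ 4
  a2 : 1 ≤ a₂
  a24 : a₂ ≤ 4
  b2 : 0 < b₂
  ab2 : a₂ - b₂ ≤ 1
  c2 : 1 / 2 ≤ c
  c1 : c ≤ 1
  d0 : 0 < d
  cd : 1 ≤ c + d
  l0 : 0 < lam
  l1 : lam < 1
  kl : ∀ ν : ℝ, 0 < ν → νm ≤ ν → 1 ≤ κ + lam * ν
  low1 : ∀ w x y z ν : ℝ, 0 < ν → νm ≤ ν → 0 ≤ w → w ≤ 1 → 0 ≤ x → x ≤ 1 → 0 ≤ y → y ≤ 1 → 0 ≤ z →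
    a₁ * w - (a₁ - 1) ≤ κ * x + lam * (ν / ρ) → a₂ * x - b₂ ≤ κ * y + lam * ν → z ≤ c * y + d →
    κ * y + lam * ν = a₁ * x - (a₁ - 1) →
      μ ≤ κ * (4 / ρ) * (x ^ 2 - κ * (y * z) - ρ * ν * y) - a₁ * (w ^ 2 - κ * (x * y) - ν * x)
  low2 : ∀ w x y z ν : ℝ, 0 < ν → νm ≤ ν → 0 ≤ w → w ≤ 1 → 0 ≤ x → x ≤ 1 → 0 ≤ y → y ≤ 1 → 0 ≤ z →
    a₁ * w - (a₁ - 1) ≤ κ * x + lam * (ν / ρ) → a₁ * x - (a₁ - 1) ≤ κ * y + lam * ν →
    z ≤ c * y + d → κ * y + lam * ν = a₂ * x - b₂ →
      μ ≤ κ * (4 / ρ) * (x ^ 2 - κ * (y * z) - ρ * ν * y) - a₂ * (w ^ 2 - κ * (x * y) - ν * x)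
  upp : ∀ w x y z ν : ℝ, 0 < ν → νm ≤ ν → 0 ≤ w → w ≤ 1 → 0 ≤ x → x ≤ 1 → 0 ≤ y → y ≤ 1 → 0 ≤ z →
    x ≤ c * w + d → a₁ * y - (a₁ - 1) ≤ κ * z + lam * (ρ * ν) →
    a₂ * y - b₂ ≤ κ * z + lam * (ρ * ν) → y = c * x + d →
      μ ≤ c * (w ^ 2 - κ * (x * y) - ν * x) - (4 / ρ) * (x ^ 2 - κ * (y * z) - ρ * ν * y)

/-- The perturbation of the lower edges. -/
lemma low_pert {κ ρ a ν e w x y z : ℝ} (hκ : 0 < κ) (hκ4 : κ ≤ 4) (hρ : 1 < ρ) (ha : 1 ≤ a)
    (ha4 : a ≤ 4) (hν : 0 < ν) (he : 0 ≤ e) (he1 : e ≤ 1) (w0 : -e ≤ w) (w1 : w ≤ 1)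
    (x0 : 0 ≤ x) (x1 : x ≤ 1) (y0 : -e ≤ y) (z0 : -e ≤ z) :
    κ * (4 / ρ) * (x ^ 2 - κ * ((y + e) * max z 0) - ρ * ν * (y + e))
      - a * (max (w - κ * e) 0 ^ 2 - κ * (x * (y + e)) - ν * x) - 112 * e
    ≤ κ * (4 / ρ) * (x ^ 2 - κ * (y * z) - ρ * ν * y) - a * (w ^ 2 - κ * (x * y) - ν * x) := by
  have hρ0 : 0 < ρ := by linarith
  have h4ρ : 4 / ρ ≤ 4 := by
    rw [div_le_iff₀ hρ0]
    linarith
  have h4ρ0 : 0 ≤ 4 / ρ := by positivity
  obtain ⟨k, hk⟩ : ∃ k, k = 4 / ρ := ⟨_, rfl⟩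
  have e1 : κ * (4 / ρ) * (x ^ 2 - κ * ((y + e) * max z 0) - ρ * ν * (y + e))
      = κ * k * x ^ 2 - κ * κ * k * ((y + e) * max z 0) - 4 * κ * ν * (y + e) := by
    rw [hk]; field_simp
  have e2 : κ * (4 / ρ) * (x ^ 2 - κ * (y * z) - ρ * ν * y)
      = κ * k * x ^ 2 - κ * κ * k * (y * z) - 4 * κ * ν * y := by
    rw [hk]; field_simp
  rw [e1, e2]
  rw [← hk] at h4ρ h4ρ0
  -- the product
  have hee : e * e ≤ e := by nlinarith
  have hp : y * z - (y + e) * max z 0 ≤ e := by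
    rcases le_total 0 z with hz | hz
    · rw [max_eq_left hz]
      have : 0 ≤ e * z := mul_nonneg he hz
      linarith
    · rw [max_eq_right hz, mul_zero, sub_zero]
      rcases le_total 0 y with hy | hy
      · have := mul_nonpos_of_nonneg_of_nonpos hy hz
        linarith
      · have h1 : y * z = (-y) * (-z) := by ring
        have h2 : (-y) * (-z) ≤ e * e :=
          mul_le_mul (by linarith) (by linarith) (by linarith) he
        linarith
  have hkk0 : 0 ≤ κ * κ * k := by positivity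
  have hkk : κ * κ * k ≤ 64 := by
    have h1 : κ * κ ≤ 4 * 4 := mul_le_mul hκ4 hκ4 hκ.le (by norm_num)
    calc κ * κ * k ≤ 4 * 4 * 4 := mul_le_mul h1 h4ρ h4ρ0 (by norm_num)
      _ = 64 := by norm_num
  have h1 : κ * κ * k * (y * z - (y + e) * max z 0) ≤ 64 * e := by
    rcases le_total 0 (y * z - (y + e) * max z 0) with h | h
    · exact mul_le_mul hkk hp h (by norm_num)
    · have := mul_nonpos_of_nonneg_of_nonpos hkk0 h
      linarith
  -- the square
  have hκe : 0 ≤ κ * e := by positivity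
  have hκe4 : κ * e ≤ 4 * e := mul_le_mul_of_nonneg_right hκ4 he
  have h2 : w ^ 2 - max (w - κ * e) 0 ^ 2 ≤ 8 * e := by
    rcases le_total (w - κ * e) 0 with h | h
    · rw [max_eq_right h]
      rcases le_total 0 w with hw | hw
      · have : w ^ 2 ≤ w := by nlinarith
        nlinarith
      · nlinarith
    · rw [max_eq_left h]
      nlinarith
  have h2' : a * (w ^ 2 - max (w - κ * e) 0 ^ 2) ≤ 32 * e := by
    rcases le_total 0 (w ^ 2 - max (w - κ * e) 0 ^ 2) with h | h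
    · calc a * (w ^ 2 - max (w - κ * e) 0 ^ 2) ≤ 4 * (8 * e) :=
            mul_le_mul ha4 h2 h (by norm_num)
        _ = 32 * e := by ring
    · have := mul_nonpos_of_nonneg_of_nonpos (by linarith : 0 ≤ a) h
      linarith
  -- the mixed term
  have h3 : a * (κ * (x * e)) ≤ 16 * e := by
    have h4 : x * e ≤ e := by nlinarith
    have h5 : κ * (x * e) ≤ 4 * e := mul_le_mul hκ4 h4 (by positivity) (by norm_num)
    calc a * (κ * (x * e)) ≤ 4 * (4 * e) := mul_le_mul ha4 h5 (by positivity) (by norm_num)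
      _ = 16 * e := by ring
  have h6 : 0 ≤ 4 * κ * ν * e := by positivity
  nlinarith

/-- The perturbation of the upper edge. -/
lemma upp_pert {κ ρ c ν e w x y z : ℝ} (hκ : 0 < κ) (hκ4 : κ ≤ 4) (hρ : 1 < ρ) (hc : 0 ≤ c)
    (hc1 : c ≤ 1) (hν : 0 < ν) (he : 0 ≤ e) (he1 : e ≤ 1) (w0 : -e ≤ w) (w1 : w ≤ 1)
    (x0 : -e ≤ x) (y0 : 0 ≤ y) (y1 : y ≤ 1) :
    c * (min (w + 3 * e) 1 ^ 2 - κ * ((x + e) * y) - ν * (x + e))
      - (4 / ρ) * ((x + e) ^ 2 - κ * (y * (z + e)) - ρ * ν * y) - 112 * e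
    ≤ c * (w ^ 2 - κ * (x * y) - ν * x) - (4 / ρ) * (x ^ 2 - κ * (y * z) - ρ * ν * y) := by
  have hρ0 : 0 < ρ := by linarith
  have h4ρ : 4 / ρ ≤ 4 := by
    rw [div_le_iff₀ hρ0]
    linarith
  have h4ρ0 : 0 ≤ 4 / ρ := by positivity
  obtain ⟨k, hk⟩ : ∃ k, k = 4 / ρ := ⟨_, rfl⟩
  rw [← hk] at h4ρ h4ρ0 ⊢
  have hee : e * e ≤ e := by nlinarith
  have h1 : c * (min (w + 3 * e) 1 ^ 2 - w ^ 2) ≤ 6 * e := by
    have h2 : min (w + 3 * e) 1 ≤ w + 3 * e := min_le_left _ _
    have h3 : min (w + 3 * e) 1 ≤ 1 := min_le_right _ _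
    have h4 : w ≤ min (w + 3 * e) 1 := le_min (by linarith) w1
    obtain ⟨m, hm⟩ : ∃ m, m = min (w + 3 * e) 1 := ⟨_, rfl⟩
    rw [← hm] at h2 h3 h4 ⊢
    have h5 : m ^ 2 - w ^ 2 ≤ 6 * e := by
      have h6 : m ^ 2 - w ^ 2 = (m - w) * (m + w) := by ring
      rw [h6]
      rcases le_total 0 (m + w) with h | h
      · calc (m - w) * (m + w) ≤ (3 * e) * 2 :=
              mul_le_mul (by linarith) (by linarith) h (by linarith)
          _ = 6 * e := by ring
      · have := mul_nonpos_of_nonneg_of_nonpos (by linarith : 0 ≤ m - w) h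
        linarith
    rcases le_total 0 (m ^ 2 - w ^ 2) with h | h
    · calc c * (m ^ 2 - w ^ 2) ≤ 1 * (6 * e) := mul_le_mul hc1 h5 h (by norm_num)
        _ = 6 * e := one_mul _
    · have := mul_nonpos_of_nonneg_of_nonpos hc h
      linarith
  have h2 : k * (x ^ 2 - (x + e) ^ 2) ≤ 4 * e := by
    have h3 : x ^ 2 - (x + e) ^ 2 ≤ e := by nlinarith
    rcases le_total 0 (x ^ 2 - (x + e) ^ 2) with h | h
    · exact mul_le_mul h4ρ h3 h (by norm_num)
    · have := mul_nonpos_of_nonneg_of_nonpos h4ρ0 h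
      linarith
  have h3 : k * (κ * (y * e)) ≤ 16 * e := by
    have h4 : y * e ≤ e := by nlinarith
    have h5 : κ * (y * e) ≤ 4 * e := mul_le_mul hκ4 h4 (by positivity) (by norm_num)
    calc k * (κ * (y * e)) ≤ 4 * (4 * e) := mul_le_mul h4ρ h5 (by positivity) (by norm_num)
      _ = 16 * e := by ring
  have h4 : 0 ≤ c * (κ * (e * y)) := by positivity
  have h5 : 0 ≤ c * (ν * e) := by positivity
  nlinarith

/-- The four functions. -/
noncomputable def GG (κ ρ a₁ a₂ b₂ c d lam ν₀ e : ℝ) (W : ℕ → ℝ → ℝ) (j : Fin 4) (n : ℕ) (t : ℝ) :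
    ℝ :=
  ![1 - W n t, κ * (W (n + 1) t + e) + lam * (ρ ^ n * ν₀) - (a₁ * W n t - (a₁ - 1)),
    κ * (W (n + 1) t + e) + lam * (ρ ^ n * ν₀) - (a₂ * W n t - b₂),
    c * (W n t + e) + d - W (n + 1) t] j

set_option maxHeartbeats 1000000 in
theorem invariant {κ ρ a₁ a₂ b₂ c d lam νm μ : ℝ} (hR : Reg κ ρ a₁ a₂ b₂ c d lam νm μ)
    {T C₀ ν₀ δ e : ℝ} {N : ℕ} (hC₀ : 0 < C₀) (hν₀ : 0 < ν₀) (hνm : νm ≤ ν₀) (he : 0 ≤ e)
    (he1 : e ≤ 1) (heμ : 112 * e < μ) (heν : κ * e < (1 - lam) * ν₀) (W : ℕ → ℝ → ℝ)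
    (hneg : ∀ t ∈ Icc 0 T, ∀ n, -e ≤ W n t) (hz : ∀ n, N < n → ∀ t, W n t = 0)
    (hcont : ContinuousOn (W 0) (Icc 0 T))
    (hode : ∀ n, n + 1 ≤ N → ∀ t ∈ Icc 0 T, HasDerivWithinAt (W (n + 1))
      (C₀ * (4 / ρ) ^ (n + 1) * (W n t ^ 2 - κ * (W (n + 1) t * W (n + 2) t)
        - ρ ^ (n + 1) * ν₀ * W (n + 1) t)) (Icc 0 T) t)
    (hδ1 : δ < 1) (hδa : a₁ * δ < a₁ - 1) (hδb : a₂ * δ < b₂) (hδd : δ < d)
    (hsmall : ∀ t ∈ Icc 0 T, W 0 t ≤ δ ∧ W 1 t ≤ δ) (hinit : ∀ n, W n 0 ≤ δ)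
    (hT : 0 ≤ T) (hN : 1 < lam * (ρ ^ N * ν₀)) :
    ∀ n, ∀ t ∈ Icc 0 T, W n t ≤ 1 := by
  have hρ : 0 < ρ := by linarith [hR.ρ1]
  have ha1 : 0 < a₁ := by linarith [hR.a1]
  have ha2 : 0 < a₂ := by linarith [hR.a2]
  have hc0 : 0 < c := by linarith [hR.c2]
  have hWc : ∀ n, ContinuousOn (W n) (Icc 0 T) := by
    intro n
    rcases Nat.eq_zero_or_pos n with h | h
    · rw [h]; exact hcont
    · obtain ⟨m, rfl⟩ : ∃ m, n = m + 1 := ⟨n - 1, by omega⟩
      by_cases hm : m + 1 ≤ N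
      · exact fun t ht => (hode m hm t ht).continuousWithinAt
      · have h1 : W (m + 1) = fun _ => 0 := funext fun t => hz _ (by omega) t
        rw [h1]
        exact continuousOn_const
  have hνn : ∀ n, 0 < lam * (ρ ^ n * ν₀) := fun n => mul_pos hR.l0 (by positivity)
  have key := barrier (ι := Fin 4 × Fin (N + 1)) (T := T)
    (fun i t => GG κ ρ a₁ a₂ b₂ c d lam ν₀ e W i.1 i.2 t) ?_ ?_ ?_
  · intro n t ht
    by_cases hn : n ≤ N
    · have h1 := key (0, ⟨n, by omega⟩) t ht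
      simp only [GG, Matrix.cons_val_zero] at h1
      linarith
    · rw [hz n (by omega) t]
      exact zero_le_one
  · -- continuity
    rintro ⟨j, n⟩
    have h1 := hWc n
    have h2 := hWc (n + 1)
    fin_cases j
    · exact continuousOn_const.sub h1
    · exact (((h2.add continuousOn_const).const_smul κ).add continuousOn_const).sub
        ((h1.const_smul a₁).sub continuousOn_const)
    · exact (((h2.add continuousOn_const).const_smul κ).add continuousOn_const).sub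
        ((h1.const_smul a₂).sub continuousOn_const)
    · exact (((h1.add continuousOn_const).const_smul c).add continuousOn_const).sub h2
  · -- the time zero
    rintro ⟨j, n⟩
    have h1 := hinit n
    have h2 := hinit (n + 1)
    have h3 := hneg 0 ⟨le_rfl, hT⟩ n
    have h4 := hneg 0 ⟨le_rfl, hT⟩ (n + 1)
    have h5 := hνn n
    have h6 : 0 ≤ κ * (W (n + 1) 0 + e) := mul_nonneg hR.κ0.le (by linarith)
    fin_cases j
    · show 0 < 1 - W n 0
      linarith
    · show 0 < κ * (W (n + 1) 0 + e) + lam * (ρ ^ (n : ℕ) * ν₀) - (a₁ * W n 0 - (a₁ - 1))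
      have h7 : a₁ * W n 0 ≤ a₁ * δ := mul_le_mul_of_nonneg_left h1 ha1.le
      linarith
    · show 0 < κ * (W (n + 1) 0 + e) + lam * (ρ ^ (n : ℕ) * ν₀) - (a₂ * W n 0 - b₂)
      have h7 : a₂ * W n 0 ≤ a₂ * δ := mul_le_mul_of_nonneg_left h1 ha2.le
      linarith
    · show 0 < c * (W n 0 + e) + d - W (n + 1) 0
      have h7 : 0 ≤ c * (W n 0 + e) := mul_nonneg hc0.le (by linarith)
      linarith
  · -- the contact
    rintro ⟨j, ⟨n, hn⟩⟩ t ht hall hcontact
    have htI : t ∈ Icc 0 T := ⟨ht.1.le, ht.2⟩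
    have hW0 := hneg t htI
    have hW1 : ∀ m, W m t ≤ 1 := by
      intro m
      by_cases hm : m ≤ N
      · have h1 := hall (0, ⟨m, by omega⟩)
        simp only [GG, Matrix.cons_val_zero] at h1
        linarith
      · rw [hz m (by omega) t]
        exact zero_le_one
    have hPP : ∀ m, PP κ a₁ a₂ b₂ c d lam e (W m t) (W (m + 1) t) (ρ ^ m * ν₀) := by
      intro m
      by_cases hm : m ≤ N
      · have h1 := hall (1, ⟨m, by omega⟩)
        have h2 := hall (2, ⟨m, by omega⟩)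
        have h3 := hall (3, ⟨m, by omega⟩)
        have h1' : 0 ≤ κ * (W (m + 1) t + e) + lam * (ρ ^ m * ν₀) - (a₁ * W m t - (a₁ - 1)) := h1
        have h2' : 0 ≤ κ * (W (m + 1) t + e) + lam * (ρ ^ m * ν₀) - (a₂ * W m t - b₂) := h2
        have h3' : 0 ≤ c * (W m t + e) + d - W (m + 1) t := h3
        exact ⟨by linarith, by linarith, by linarith⟩
      · have h1 := hνn m
        have h2 : 0 ≤ κ * (0 + e) := mul_nonneg hR.κ0.le (by linarith)
        have h3 : 0 ≤ c * (0 + e) := mul_nonneg hc0.le (by linarith)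
        unfold PP
        rw [hz m (by omega) t, hz (m + 1) (by omega) t]
        exact ⟨by linarith [hR.a1], by linarith [hR.b2], by linarith [hR.d0]⟩
    obtain ⟨hsm0, hsm1⟩ := hsmall t htI
    rcases Nat.eq_zero_or_pos n with h0 | hpos'
    · -- the first shell
      exfalso
      subst h0
      have e0 := hW0 0
      have e1 := hW0 1
      have e2 := hνn 0
      have e3 : 0 ≤ κ * (W 1 t + e) := mul_nonneg hR.κ0.le (by linarith)
      fin_cases j
      · have h1 : 1 - W 0 t = 0 := hcontact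
        linarith
      · have h1 : κ * (W 1 t + e) + lam * (ρ ^ 0 * ν₀) - (a₁ * W 0 t - (a₁ - 1)) = 0 := hcontact
        have h7 : a₁ * W 0 t ≤ a₁ * δ := mul_le_mul_of_nonneg_left hsm0 ha1.le
        linarith
      · have h1 : κ * (W 1 t + e) + lam * (ρ ^ 0 * ν₀) - (a₂ * W 0 t - b₂) = 0 := hcontact
        have h7 : a₂ * W 0 t ≤ a₂ * δ := mul_le_mul_of_nonneg_left hsm0 ha2.le
        linarith
      · have h1 : c * (W 0 t + e) + d - W 1 t = 0 := hcontact
        have h7 : 0 ≤ c * (W 0 t + e) := mul_nonneg hc0.le (by linarith)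
        linarith
    · obtain ⟨m, rfl⟩ : ∃ m, n = m + 1 := ⟨n - 1, by omega⟩
      have hmN : m + 1 ≤ N := by omega
      have hd1 := hode m hmN t htI
      obtain ⟨C₁, hC₁⟩ : ∃ C₁, C₁ = C₀ * (4 / ρ) ^ (m + 1) := ⟨_, rfl⟩
      have hC₁0 : 0 < C₁ := by rw [hC₁]; positivity
      obtain ⟨ν, hν⟩ : ∃ ν, ν = ρ ^ (m + 1) * ν₀ := ⟨_, rfl⟩
      have hν0 : 0 < ν := by rw [hν]; positivity
      have hν₀ν : ν₀ ≤ ν := by
        have h1 : 1 * ν₀ ≤ ρ ^ (m + 1) * ν₀ :=
          mul_le_mul_of_nonneg_right (one_le_pow₀ hR.ρ1.le) hν₀.le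
        rw [hν]
        linarith
      have hνν : νm ≤ ν := hνm.trans hν₀ν
      have hP0 : PP κ a₁ a₂ b₂ c d lam e (W m t) (W (m + 1) t) (ν / ρ) := by
        have h1 : ν / ρ = ρ ^ m * ν₀ := by
          rw [hν, pow_succ]
          field_simp
        rw [h1]
        exact hPP m
      have hP1 : PP κ a₁ a₂ b₂ c d lam e (W (m + 1) t) (W (m + 2) t) ν := by
        rw [hν]
        exact hPP (m + 1)
      have hP2 : PP κ a₁ a₂ b₂ c d lam e (W (m + 2) t) (W (m + 3) t) (ρ * ν) := by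
        have h1 : ρ * ν = ρ ^ (m + 2) * ν₀ := by
          rw [hν]
          ring
        rw [h1]
        exact hPP (m + 2)
      rw [← hC₁, ← hν] at hd1
      by_cases hj : j = 0
      · -- the bound one
        subst hj
        have h1 : 1 - W (m + 1) t = 0 := hcontact
        have hx : W (m + 1) t = 1 := by linarith
        refine ⟨-(C₁ * (W m t ^ 2 - κ * (W (m + 1) t * W (m + 2) t) - ν * W (m + 1) t)), ?_, ?_⟩
        · have h2 := hP1.1
          rw [hx] at h2 ⊢
          have h3 : W m t ^ 2 ≤ 1 := by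
            have h8 := hW0 m
            have h9 := hW1 m
            nlinarith
          have h4 : W m t ^ 2 - κ * (1 * W (m + 2) t) - ν * 1 < 0 := by
            have h5 : (1 - lam) * ν₀ ≤ (1 - lam) * ν :=
              mul_le_mul_of_nonneg_left hν₀ν (by linarith [hR.l1])
            linarith
          have h5 : C₁ * (W m t ^ 2 - κ * (1 * W (m + 2) t) - ν * 1) < 0 :=
            mul_neg_of_pos_of_neg hC₁0 h4
          linarith
        · exact (hd1.const_sub 1)
      · -- the other contacts: `m + 2 ≤ N`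
        have hm2 : m + 2 ≤ N := by
          by_contra hlt
          have hmN' : m + 1 = N := by omega
          have h0 : W (m + 2) t = 0 := hz _ (by omega) t
          have h1 := hW1 (m + 1)
          have h2 := hW0 (m + 1)
          have h3 : 1 < lam * (ρ ^ (m + 1) * ν₀) := by rw [hmN']; exact hN
          have h6 : 0 ≤ κ * (0 + e) := mul_nonneg hR.κ0.le (by linarith)
          fin_cases j
          · exact hj rfl
          · have h4 : κ * (W (m + 2) t + e) + lam * (ρ ^ (m + 1) * ν₀)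
              - (a₁ * W (m + 1) t - (a₁ - 1)) = 0 := hcontact
            rw [h0] at h4
            have h5 : a₁ * W (m + 1) t ≤ a₁ * 1 := mul_le_mul_of_nonneg_left h1 ha1.le
            linarith
          · have h4 : κ * (W (m + 2) t + e) + lam * (ρ ^ (m + 1) * ν₀)
              - (a₂ * W (m + 1) t - b₂) = 0 := hcontact
            rw [h0] at h4
            have h5 : a₂ * W (m + 1) t ≤ a₂ * 1 := mul_le_mul_of_nonneg_left h1 ha2.le
            linarith [hR.ab2]
          · have h4 : c * (W (m + 1) t + e) + d - W (m + 2) t = 0 := hcontact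
            rw [h0] at h4
            have h5 : 0 ≤ c * (W (m + 1) t + e) := mul_nonneg hc0.le (by linarith)
            linarith [hR.d0]
        have hd2 := hode (m + 1) hm2 t htI
        have e1 : C₀ * (4 / ρ) ^ (m + 1 + 1) = C₁ * (4 / ρ) := by
          rw [hC₁, pow_succ]
          ring
        have e2 : ρ ^ (m + 1 + 1) * ν₀ = ρ * ν := by
          rw [hν]
          ring
        rw [e1, e2] at hd2
        obtain ⟨w, hw⟩ : ∃ w, w = W m t := ⟨_, rfl⟩
        obtain ⟨x, hx⟩ : ∃ x, x = W (m + 1) t := ⟨_, rfl⟩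
        obtain ⟨y, hy⟩ : ∃ y, y = W (m + 2) t := ⟨_, rfl⟩
        obtain ⟨z, hz'⟩ : ∃ z, z = W (m + 3) t := ⟨_, rfl⟩
        have w0 := hW0 m
        have w1 := hW1 m
        have x0 := hW0 (m + 1)
        have x1 := hW1 (m + 1)
        have y0 := hW0 (m + 2)
        have y1 := hW1 (m + 2)
        have z0 := hW0 (m + 3)
        have z1 := hW1 (m + 3)
        have hd2' : HasDerivWithinAt (W (m + 2)) (C₁ * (4 / ρ) * (W (m + 1) t ^ 2
            - κ * (W (m + 2) t * W (m + 3) t) - ρ * ν * W (m + 2) t)) (Icc 0 T) t := hd2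
        rw [← hw, ← hx, ← hy] at hd1
        rw [← hx, ← hy, ← hz'] at hd2'
        rw [← hw] at w0 w1
        rw [← hx] at x0 x1
        rw [← hy] at y0 y1
        rw [← hz'] at z0 z1
        rw [← hw, ← hx] at hP0
        rw [← hx, ← hy] at hP1
        rw [← hy, ← hz'] at hP2
        have hkl := hR.kl ν hν0 hνν
        have hlν : 0 < lam * ν := mul_pos hR.l0 hν0
        have hκye : 0 ≤ κ * (y + e) := mul_nonneg hR.κ0.le (by linarith)
        have hlνρ : 0 ≤ lam * (ν / ρ) := mul_nonneg hR.l0.le (by positivity)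
        have hκe0 : 0 ≤ κ * e := mul_nonneg hR.κ0.le he
        have hw'1 : max (w - κ * e) 0 ≤ 1 := max_le (by linarith) zero_le_one
        have hP0' : 0 ≤ x → a₁ * max (w - κ * e) 0 - (a₁ - 1) ≤ κ * x + lam * (ν / ρ) := by
          intro hx0
          have hκx : 0 ≤ κ * x := mul_nonneg hR.κ0.le hx0
          rcases le_total (w - κ * e) 0 with h | h
          · rw [max_eq_right h]
            linarith [hR.a1]
          · rw [max_eq_left h]
            have h1 := hP0.1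
            have h2 : 1 * (κ * e) ≤ a₁ * (κ * e) := mul_le_mul_of_nonneg_right hR.a1.le hκe0
            linarith
        have hz'' : max z 0 ≤ c * (y + e) + d := by
          have h1 : 0 ≤ c * (y + e) := mul_nonneg hc0.le (by linarith)
          exact max_le hP2.2.2 (by linarith [hR.d0])
        fin_cases j
        · exact absurd rfl hj
        · have hco : κ * (W (m + 2) t + e) + lam * (ρ ^ (m + 1) * ν₀)
            - (a₁ * W (m + 1) t - (a₁ - 1)) = 0 := hcontact
          rw [← hx, ← hy, ← hν] at hco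
          have hx0 : 0 ≤ x := by
            by_contra h
            have h1 : a₁ * x ≤ 0 := mul_nonpos_of_nonneg_of_nonpos ha1.le (not_le.1 h).le
            linarith [hR.a1]
          have hy' : y + e ≤ 1 := by
            by_contra h
            have h1 : κ * 1 < κ * (y + e) := mul_lt_mul_of_pos_left (not_le.1 h) hR.κ0
            have h2 : a₁ * x ≤ a₁ * 1 := mul_le_mul_of_nonneg_left x1 ha1.le
            linarith
          have h1 := hR.low1 (max (w - κ * e) 0) x (y + e) (max z 0) ν hν0 hνν (le_max_right _ _)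
            hw'1 hx0 x1 (by linarith) hy' (le_max_right _ _) (hP0' hx0) hP1.2.1 hz''
            (by linarith)
          have h2 := low_pert hR.κ0 hR.κ4 hR.ρ1 hR.a1.le hR.a14 hν0 he he1 w0 w1 hx0 x1 y0 z0
          refine ⟨_, ?_, (((hd2'.add_const e).const_mul κ).add_const _).sub
            ((hd1.const_mul a₁).sub_const _)⟩
          have h3 := mul_pos hC₁0 (by linarith : 0 < κ * (4 / ρ) * (x ^ 2 - κ * (y * z)
            - ρ * ν * y) - a₁ * (w ^ 2 - κ * (x * y) - ν * x))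
          linarith
        · have hco : κ * (W (m + 2) t + e) + lam * (ρ ^ (m + 1) * ν₀)
            - (a₂ * W (m + 1) t - b₂) = 0 := hcontact
          rw [← hx, ← hy, ← hν] at hco
          have hx0 : 0 ≤ x := by
            by_contra h
            have h1 : a₂ * x ≤ 0 := mul_nonpos_of_nonneg_of_nonpos ha2.le (not_le.1 h).le
            linarith [hR.b2]
          have hy' : y + e ≤ 1 := by
            by_contra h
            have h1 : κ * 1 < κ * (y + e) := mul_lt_mul_of_pos_left (not_le.1 h) hR.κ0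
            have h2 : a₂ * x ≤ a₂ * 1 := mul_le_mul_of_nonneg_left x1 ha2.le
            linarith [hR.ab2]
          have h1 := hR.low2 (max (w - κ * e) 0) x (y + e) (max z 0) ν hν0 hνν (le_max_right _ _)
            hw'1 hx0 x1 (by linarith) hy' (le_max_right _ _) (hP0' hx0) hP1.1 hz''
            (by linarith)
          have h2 := low_pert hR.κ0 hR.κ4 hR.ρ1 hR.a2 hR.a24 hν0 he he1 w0 w1 hx0 x1 y0 z0
          refine ⟨_, ?_, (((hd2'.add_const e).const_mul κ).add_const _).sub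
            ((hd1.const_mul a₂).sub_const _)⟩
          have h3 := mul_pos hC₁0 (by linarith : 0 < κ * (4 / ρ) * (x ^ 2 - κ * (y * z)
            - ρ * ν * y) - a₂ * (w ^ 2 - κ * (x * y) - ν * x))
          linarith
        · have hco : c * (W (m + 1) t + e) + d - W (m + 2) t = 0 := hcontact
          rw [← hx, ← hy] at hco
          have hxe : 0 ≤ c * (x + e) := mul_nonneg hc0.le (by linarith)
          have hy0 : 0 ≤ y := by linarith [hR.d0]
          have hx' : x + e ≤ 1 := by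
            by_contra h
            have h1 : c * 1 < c * (x + e) := mul_lt_mul_of_pos_left (not_le.1 h) hc0
            linarith [hR.cd]
          have hw3 : 0 ≤ min (w + 3 * e) 1 := le_min (by linarith) zero_le_one
          have hxw : x + e ≤ c * min (w + 3 * e) 1 + d := by
            rcases le_total (w + 3 * e) 1 with h | h
            · rw [min_eq_left h]
              have h1 := hP0.2.2
              have h2 : 1 / 2 * (2 * e) ≤ c * (2 * e) :=
                mul_le_mul_of_nonneg_right hR.c2 (by linarith)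
              linarith
            · rw [min_eq_right h]
              linarith [hR.cd]
          have h1 := hR.upp (min (w + 3 * e) 1) (x + e) y (z + e) ν hν0 hνν hw3
            (min_le_right _ _) (by linarith) hx' hy0 y1 (by linarith) hxw hP2.1 hP2.2.1
            (by linarith)
          have h2 := upp_pert (z := z) hR.κ0 hR.κ4 hR.ρ1 hc0.le hR.c1 hν0 he he1 w0 w1 x0 hy0 y1
          refine ⟨_, ?_, (((hd1.add_const e).const_mul c).add_const _).sub hd2'⟩
          have h3 := mul_pos hC₁0 (by linarith : 0 < c * (w ^ 2 - κ * (x * y) - ν * x)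
            - (4 / ρ) * (x ^ 2 - κ * (y * z) - ρ * ν * y))
          linarith

end Run7.h969.Dz
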