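import Pool.Agent.Run7.h969.Dy.Par
import Pool.Agent.Run7.h969.Dz.Region

/-!
The dyadic model for real data: the parameters of the invariant region with a margin (helper969).
-/

set_option autoImplicit false
set_option linter.unusedVariables false

open Set Filter Topology

namespace Run7.h969.Dz

open Run7.h969.Dy (Pol polA polB polD polE)

/-- The parameters are those of an invariant region if `ρ` is close to one. -/
theorem reg_of {κ ρ a₁ a₂ b₂ c d lam νm μ : ℝ} {m : ℝ → ℝ} (h : Pol κ a₁ a₂ b₂ c d lam m)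
    (hκ : 0 < κ) (hκ4 : κ ≤ 4) (hρ : 1 < ρ) (hm : ∀ ν, νm ≤ ν → 16 * (ρ - 1) + μ ≤ m ν)
    (a14 : a₁ ≤ 4) (a21 : 1 ≤ a₂) (a24 : a₂ ≤ 4) (c2 : 1 / 2 ≤ c) (c1 : c ≤ 1) (cd : 1 ≤ c + d)
    (kl : ∀ ν : ℝ, 0 < ν → νm ≤ ν → 1 ≤ κ + lam * ν) :
    Reg κ ρ a₁ a₂ b₂ c d lam νm μ := by
  have hρ0 : 0 < ρ := by linarith
  have hθ : 0 ≤ 1 - 1 / ρ := by
    rw [sub_nonneg, div_le_one hρ0]
    exact hρ.le
  have hθ1 : 1 - 1 / ρ ≤ ρ - 1 := by
    have h1 : 1 - 1 / ρ = (ρ - 1) / ρ := by field_simp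
    rw [h1, div_le_iff₀ hρ0]
    nlinarith
  have hdiv : ∀ ν : ℝ, 0 < ν → ν / ρ ≤ ν := fun ν hν => div_le_self hν.le hρ.le
  -- the lower edges
  have key : ∀ a w x y z ν : ℝ, 0 < ν → νm ≤ ν → 0 ≤ x → x ≤ 1 → 0 ≤ y → 0 ≤ z →
      z ≤ c * y + d → m ν ≤ 4 * κ * x ^ 2 - 4 * (κ * y) * (c * (κ * y) + κ * d) - 4 * ν * (κ * y) - a * w ^ 2
        + a * x * (κ * y + ν) →
      μ ≤ κ * (4 / ρ) * (x ^ 2 - κ * (y * z) - ρ * ν * y) - a * (w ^ 2 - κ * (x * y) - ν * x) := by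
    intro a w x y z ν hν hνm hx0 hx1 hy0 hz0 hz hmain
    have hm' := hm ν hνm
    have h1 : κ * (4 / ρ) * (x ^ 2 - κ * (y * z) - ρ * ν * y) =
        4 * κ * (x ^ 2 - κ * (y * z)) - 4 * κ * (1 - 1 / ρ) * (x ^ 2 - κ * (y * z))
          - 4 * κ * ν * y := by
      field_simp
      ring
    have h2 : x ^ 2 - κ * (y * z) ≤ 1 := by
      have h3 : x ^ 2 ≤ 1 := by nlinarith
      have h4 : 0 ≤ κ * (y * z) := by positivity
      linarith
    have h3 : 4 * κ * (1 - 1 / ρ) * (x ^ 2 - κ * (y * z)) ≤ 16 * (ρ - 1) := by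
      calc 4 * κ * (1 - 1 / ρ) * (x ^ 2 - κ * (y * z)) ≤ 4 * κ * (1 - 1 / ρ) * 1 :=
            mul_le_mul_of_nonneg_left h2 (by positivity)
        _ ≤ 4 * 4 * (1 - 1 / ρ) * 1 := by
            have := mul_le_mul_of_nonneg_right hκ4 hθ
            linarith
        _ ≤ 16 * (ρ - 1) := by linarith
    have h4 : κ * y * (κ * z) ≤ κ * y * (c * (κ * y) + κ * d) := by
      apply mul_le_mul_of_nonneg_left _ (by positivity)
      have := mul_le_mul_of_nonneg_left hz hκ.le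
      linarith
    rw [h1]
    nlinarith
  refine ⟨hκ, hκ4, hρ, h.a1, a14, a21, a24, h.b2, h.ab2, c2, c1, h.d0, cd, h.l0, h.l1, kl,
    ?_, ?_, ?_⟩
  · intro w x y z ν hν hνm w0 w1 x0 x1 y0 y1 z0 P0 P1 P2 he
    apply key a₁ w x y z ν hν hνm x0 x1 y0 z0 P2
    apply h.r1 x ν (κ * y) w x0 x1 (by linarith) hν.le (by positivity) he w0 w1
    have h2 := mul_le_mul_of_nonneg_left (hdiv ν hν) h.l0.le
    linarith
  · intro w x y z ν hν hνm w0 w1 x0 x1 y0 y1 z0 P0 P1 P2 he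
    apply key a₂ w x y z ν hν hνm x0 x1 y0 z0 P2
    apply h.r2 x ν (κ * y) w x0 x1 (by linarith) hν.le (by positivity) he w0 w1
    have h2 := mul_le_mul_of_nonneg_left (hdiv ν hν) h.l0.le
    linarith
  · intro w x y z ν hν hνm w0 w1 x0 x1 y0 y1 z0 P0 P1 P2 he
    have hm' := hm ν hνm
    obtain ⟨H, hH1, hH2, hmain⟩ := h.r3 x ν w y x0 x1 hν.le y1 he w0 w1 P0
    have hH : H ≤ κ * z + lam * (ρ * ν) := by
      rcases hH2 with hH2 | hH2
      · exact hH2.trans P1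
      · exact hH2.trans P2
    have h1 : (4 / ρ) * (x ^ 2 - κ * (y * z) - ρ * ν * y) =
        4 / ρ * (x ^ 2 - y * (κ * z)) - 4 * ν * y := by
      field_simp
    have h2 : 4 / ρ * (x ^ 2 - y * (κ * z)) ≤ 4 / ρ * (x ^ 2 - y * H) + 4 * lam * ν * y := by
      have h3 : y * H ≤ y * (κ * z + lam * (ρ * ν)) := mul_le_mul_of_nonneg_left hH y0
      have h4 : 4 / ρ * (x ^ 2 - y * H) + 4 * lam * ν * y =
          4 / ρ * (x ^ 2 - y * H + y * (lam * (ρ * ν))) := by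
        field_simp
      rw [h4]
      apply mul_le_mul_of_nonneg_left _ (by positivity)
      linarith
    have h3 : 4 / ρ * (x ^ 2 - y * H) ≤ 4 * (x ^ 2 - y * H) + 16 * (ρ - 1) := by
      have h4 : 4 / ρ * (x ^ 2 - y * H) =
          4 * (x ^ 2 - y * H) + 4 * (1 - 1 / ρ) * (y * H - x ^ 2) := by
        field_simp
        ring
      have h5 : y * H - x ^ 2 ≤ 1 := by
        have h6 : y * H ≤ 1 := by nlinarith
        nlinarith [sq_nonneg x]
      have h6 : 4 * (1 - 1 / ρ) * (y * H - x ^ 2) ≤ 4 * (1 - 1 / ρ) * 1 :=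
        mul_le_mul_of_nonneg_left h5 (by positivity)
      rw [h4]
      linarith
    rw [h1]
    nlinarith

theorem pol_all {κ : ℝ} (h1 : 1 ≤ κ) (h4 : κ ≤ 4) :
    ∃ a₁ a₂ b₂ c d lam : ℝ, Pol κ a₁ a₂ b₂ c d lam (fun _ => (κ - 1) / 4000) ∧
      a₁ ≤ 4 ∧ 1 ≤ a₂ ∧ a₂ ≤ 4 ∧ 1 / 2 ≤ c ∧ c ≤ 1 ∧ 1 ≤ c + d := by
  rcases le_or_gt κ (6 / 5) with h | h
  · exact ⟨_, _, _, _, _, _, (polA h1 h).mono fun _ => by linarith, by norm_num, by norm_num,
      by norm_num, by norm_num, by norm_num, by linarith⟩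
  · rcases le_or_gt κ (7 / 5) with h' | h'
    · exact ⟨_, _, _, _, _, _, (polB h.le h').mono fun _ => by linarith, by norm_num, by norm_num,
        by norm_num, by norm_num, by norm_num, by linarith⟩
    · exact ⟨_, _, _, _, _, _, (polD h'.le h4).mono fun _ => by linarith, by norm_num, by norm_num,
        by norm_num, by norm_num, by norm_num, by linarith⟩

/-- For `1 < Q ≤ 4` there are invariant regions with `ρ` arbitrarily close to one. -/
theorem reg_exists {Q η : ℝ} (hQ1 : 1 < Q) (hQ4 : Q ≤ 4) (hη : 0 < η) :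
    ∃ ρ : ℝ, 1 < ρ ∧ ρ ≤ 1 + η ∧ ∃ a₁ a₂ b₂ c d lam μ : ℝ, 0 < μ ∧
      Reg (Q / ρ ^ 3) ρ a₁ a₂ b₂ c d lam 0 μ := by
  have hcont : ContinuousAt (fun θ : ℝ => (Q / (1 + θ) ^ 3 - 1) / 4000 - 16 * θ) 0 := by
    have h1 : ContinuousAt (fun θ : ℝ => Q / (1 + θ) ^ 3) 0 := by
      apply ContinuousAt.div continuousAt_const (by fun_prop)
      norm_num
    fun_prop
  have hpos : 0 < (fun θ : ℝ => (Q / (1 + θ) ^ 3 - 1) / 4000 - 16 * θ) 0 := by
    norm_num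
    linarith
  have hev := hcont.eventually (lt_mem_nhds hpos)
  obtain ⟨δ, hδ, hball⟩ := Metric.eventually_nhds_iff.1 hev
  obtain ⟨θ, hθ⟩ : ∃ θ, θ = min (δ / 2) η := ⟨_, rfl⟩
  have hθ0 : 0 < θ := by rw [hθ]; exact lt_min (by positivity) hη
  have hθη : θ ≤ η := by rw [hθ]; exact min_le_right _ _
  have hθδ : θ ≤ δ / 2 := by rw [hθ]; exact min_le_left _ _
  have h1 : 0 < (Q / (1 + θ) ^ 3 - 1) / 4000 - 16 * θ := hball (by
    rw [Real.dist_eq, sub_zero, abs_of_pos hθ0]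
    linarith)
  have h2 : (1 : ℝ) ≤ (1 + θ) ^ 3 := one_le_pow₀ (by linarith)
  have h3 : Q / (1 + θ) ^ 3 ≤ 4 := (div_le_self (by linarith) h2).trans hQ4
  have h4 : 1 ≤ Q / (1 + θ) ^ 3 := by linarith
  obtain ⟨a₁, a₂, b₂, c, d, lam, hP, h5, h6, h7, h8, h9, h10⟩ := pol_all h4 h3
  refine ⟨1 + θ, by linarith, by linarith, a₁, a₂, b₂, c, d, lam,
    (Q / (1 + θ) ^ 3 - 1) / 4000 - 16 * θ, h1,
    reg_of hP (by linarith) h3 (by linarith) (fun _ _ => by linarith) h5 h6 h7 h8 h9 h10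
    fun ν hν _ => ?_⟩
  have := mul_pos hP.l0 hν
  linarith

/-- For `Q = 1` there are invariant regions for the shells with relative viscosity at least `νm`,
with fixed parameters and with `ρ` arbitrarily close to one. -/
theorem reg_three {νm η : ℝ} (hνm : 0 < νm) (hη : 0 < η) :
    ∃ ρ : ℝ, 1 < ρ ∧ ρ ≤ 1 + η ∧
      Reg (1 / ρ ^ 3) ρ (177 / 100) (53 / 50) (7 / 20) (63 / 100) (37 / 100) (18 / 25) νm
        (νm / 2000) := by
  have hcont : ContinuousAt (fun θ : ℝ => 1 / 2000 * νm - 20 * (1 - 1 / (1 + θ) ^ 3) - 16 * θ)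
      0 := by
    have h1 : ContinuousAt (fun θ : ℝ => 1 / (1 + θ) ^ 3) 0 := by
      apply ContinuousAt.div continuousAt_const (by fun_prop)
      norm_num
    fun_prop
  have hcont2 : ContinuousAt (fun θ : ℝ => 1 / (1 + θ) ^ 3) 0 := by
    apply ContinuousAt.div continuousAt_const (by fun_prop)
    norm_num
  have hpos : 0 < (fun θ : ℝ => 1 / 2000 * νm - 20 * (1 - 1 / (1 + θ) ^ 3) - 16 * θ) 0 := by
    norm_num
    exact hνm
  have hpos2 : 99 / 100 < (fun θ : ℝ => 1 / (1 + θ) ^ 3) 0 := by norm_num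
  have hev := (hcont.eventually (lt_mem_nhds hpos)).and (hcont2.eventually (lt_mem_nhds hpos2))
  obtain ⟨δ, hδ, hball⟩ := Metric.eventually_nhds_iff.1 hev
  obtain ⟨θ, hθ⟩ : ∃ θ, θ = min (δ / 2) η := ⟨_, rfl⟩
  have hθ0 : 0 < θ := by rw [hθ]; exact lt_min (by positivity) hη
  have hθη : θ ≤ η := by rw [hθ]; exact min_le_right _ _
  have hθδ : θ ≤ δ / 2 := by rw [hθ]; exact min_le_left _ _
  obtain ⟨h1, h2⟩ := hball (show dist θ 0 < δ by
    rw [Real.dist_eq, sub_zero, abs_of_pos hθ0]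
    linarith)
  have h3 : (1 : ℝ) ≤ (1 + θ) ^ 3 := one_le_pow₀ (by linarith)
  have h4 : 1 / (1 + θ) ^ 3 ≤ 1 := div_le_self (by norm_num) h3
  refine ⟨1 + θ, by linarith, by linarith, reg_of (polE h2.le h4) (by positivity) (by linarith)
    (by linarith) (fun ν hν => ?_) (by norm_num) (by norm_num) (by norm_num) (by norm_num)
    (by norm_num) (by norm_num) fun ν hν hν' => ?_⟩
  · have h5 : 1 / 1000 * νm ≤ 1 / 1000 * ν := by linarith
    linarith
  · have h5 : 1 - 1 / (1 + θ) ^ 3 ≤ 1 / 40000 * νm := by linarith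
    linarith

end Run7.h969.Dz
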