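import Pool.Agent.Run7.h969.Dz.Reg

/-!
The dyadic model for real data: energy inequality and weak-strong uniqueness (helper969).
-/

set_option autoImplicit false

open Set Filter Topology MeasureTheory

namespace Run7.h969.Dz

open Run7.h969.Dy

variable {β ν : ℝ} {x : ℕ → ℝ} {X Z : ℕ → ℝ → ℝ}

/-- The solution started at a later time. -/
lemma shift0 (hX : IsDy β ν x X) {a : ℝ} (ha : 0 ≤ a) :
    IsDy β ν (fun n => X n a) (fun n t => X n (a + t)) := by
  rcases ha.eq_or_lt with h | h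
  · rw [← h]
    refine ⟨fun n => by rw [zero_add], fun n => ?_, fun n t ht => ?_⟩
    · simpa only [zero_add] using hX.cont n
    · simpa only [zero_add] using hX.ode n t ht
  · exact Pool.Agent.Run7.h32.Dy.shift hX h

/-- The energy identity of the first shells. -/
lemma energy_id (hX : IsDy β ν x X) (N : ℕ) {t : ℝ} (ht : 0 ≤ t) :
    ∑ n ∈ Finset.range (N + 1), X n t ^ 2
      + 2 * ν * ∫ s in (0 : ℝ)..t, ∑ n ∈ Finset.range (N + 1), 4 ^ n * X n s ^ 2
      = ∑ n ∈ Finset.range (N + 1), X n 0 ^ 2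
        - 2 * ∫ s in (0 : ℝ)..t, (2 : ℝ) ^ (β * N) * (X N s ^ 2 * X (N + 1) s) := by
  have hc : ∀ k, ContinuousOn (X k) (Icc 0 t) := fun k => (hX.cont k).mono Icc_subset_Ici_self
  have hc1 : ContinuousOn (fun s => (2 : ℝ) ^ (β * N) * (X N s ^ 2 * X (N + 1) s)) (Icc 0 t) :=
    continuousOn_const.mul (((hc N).pow 2).mul (hc (N + 1)))
  have hc2 : ContinuousOn (fun s => ∑ n ∈ Finset.range (N + 1), (4 : ℝ) ^ n * X n s ^ 2)
      (Icc 0 t) := continuousOn_finsetSum _ fun n _ => continuousOn_const.mul ((hc n).pow 2)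
  have hi1 : IntervalIntegrable (fun s => (2 : ℝ) ^ (β * N) * (X N s ^ 2 * X (N + 1) s)) volume 0 t :=
    ContinuousOn.intervalIntegrable (by rw [uIcc_of_le ht]; exact hc1)
  have hi2 : IntervalIntegrable (fun s => ∑ n ∈ Finset.range (N + 1), (4 : ℝ) ^ n * X n s ^ 2)
      volume 0 t := ContinuousOn.intervalIntegrable (by rw [uIcc_of_le ht]; exact hc2)
  have h1 : ∫ s in (0 : ℝ)..t, (-2 * ((2 : ℝ) ^ (β * N) * (X N s ^ 2 * X (N + 1) s))
      - 2 * ν * ∑ n ∈ Finset.range (N + 1), 4 ^ n * X n s ^ 2)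
      = ∑ n ∈ Finset.range (N + 1), X n t ^ 2 - ∑ n ∈ Finset.range (N + 1), X n 0 ^ 2 := by
    refine intervalIntegral.integral_eq_sub_of_hasDerivAt_of_le ht
      (f := fun s => ∑ n ∈ Finset.range (N + 1), X n s ^ 2) ?_ ?_ ?_
    · exact continuousOn_finsetSum _ fun k _ => (hc k).pow 2
    · intro r hr
      have := Pool.Agent.Run7.h32.Dy.energy_hd (S := univ) (β := β) (ν := ν) (X := X) (t := r) N
        (fun n _ => (hX.ode n r hr.1).hasDerivWithinAt)
      exact this.hasDerivAt univ_mem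
    · exact (hi1.const_mul (-2)).sub (hi2.const_mul (2 * ν))
  rw [intervalIntegral.integral_sub (hi1.const_mul (-2)) (hi2.const_mul (2 * ν)),
    intervalIntegral.integral_const_mul (-2), intervalIntegral.integral_const_mul (2 * ν)] at h1
  linarith

/-- The bound `C (B / (4 q))^n 4^n` of the coefficients. -/
lemma rate_bd {B q C y : ℝ} (hB0 : 0 < B) (hq0 : 0 < q) {n : ℕ} (h : |y| ≤ C / q ^ n) :
    B ^ n * |y| ≤ C * (B / (4 * q)) ^ n * 4 ^ n := by
  calc B ^ n * |y| ≤ B ^ n * (C / q ^ n) := mul_le_mul_of_nonneg_left h (by positivity)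
    _ = _ := by
        rw [div_pow, mul_pow]
        field_simp

/-- The integral of a squared component is controlled by the dissipation. -/
lemma int_le_diss (hc : ∀ k, ContinuousOn (X k) (Ici 0)) {t D : ℝ} (ht : 0 ≤ t)
    {N M : ℕ} (hM : M ≤ N)
    (hD : ∫ s in (0 : ℝ)..t, ∑ n ∈ Finset.range (N + 1), (4 : ℝ) ^ n * X n s ^ 2 ≤ D) :
    ∫ s in (0 : ℝ)..t, (4 : ℝ) ^ M * X M s ^ 2 ≤ D := by
  refine le_trans ?_ hD
  have hc' : ∀ k, ContinuousOn (X k) (Icc 0 t) := fun k => (hc k).mono Icc_subset_Ici_self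
  refine intervalIntegral.integral_mono_on ht ?_ ?_ fun s hs => ?_
  · refine ContinuousOn.intervalIntegrable ?_
    rw [uIcc_of_le ht]
    exact continuousOn_const.mul ((hc' M).pow 2)
  · refine ContinuousOn.intervalIntegrable ?_
    rw [uIcc_of_le ht]
    exact continuousOn_finsetSum _ fun n _ => continuousOn_const.mul ((hc' n).pow 2)
  · exact Finset.single_le_sum (f := fun n => (4 : ℝ) ^ n * X n s ^ 2)
      (fun n _ => by positivity) (Finset.mem_range.2 (by omega))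

/-- Solutions which decay with a rate better than the critical one satisfy the energy inequality. -/
theorem ei_strong {s C : ℝ} (hν : 0 < ν) (hs0 : 0 < s) (hs : β - 2 < s) (hX : IsDy β ν x X)
    (hXs : ∀ (n : ℕ) t, 0 ≤ t → (2 : ℝ) ^ (s * n) * |X n t| ≤ C) : EI ν X 0 := by
  obtain ⟨B, hB⟩ : ∃ B : ℝ, B = 2 ^ β := ⟨_, rfl⟩
  obtain ⟨q, hq⟩ : ∃ q : ℝ, q = 2 ^ s := ⟨_, rfl⟩
  have hB0 : 0 < B := by rw [hB]; exact Real.rpow_pos_of_pos two_pos _
  have hq0 : 0 < q := by rw [hq]; exact Real.rpow_pos_of_pos two_pos _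
  have hq1 : 1 < q := by rw [hq]; exact Real.one_lt_rpow (by norm_num) hs0
  have hσ : B / (4 * q) < 1 := by
    rw [div_lt_one (by positivity), hB, hq]
    have h1 : (4 : ℝ) * 2 ^ s = 2 ^ (2 + s) := by
      rw [Real.rpow_add two_pos]
      norm_num
    rw [h1]
    exact Real.rpow_lt_rpow_of_exponent_lt (by norm_num) (by linarith)
  have hσ0 : 0 < B / (4 * q) := by positivity
  have hC0 : 0 ≤ C := by
    have h1 := hXs 0 0 le_rfl
    simp only [Nat.cast_zero, mul_zero, Real.rpow_zero, one_mul] at h1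
    exact (abs_nonneg _).trans h1
  have hXs' : ∀ (n : ℕ) t, 0 ≤ t → |X n t| ≤ C / q ^ n := by
    intro n t ht
    have := hXs n t ht
    rw [pow_mul_nat, ← hq] at this
    rw [le_div_iff₀ (by positivity), mul_comm]
    exact this
  have hsum : Summable fun n => X n 0 ^ 2 := by
    have hr1 : (q⁻¹) ^ 2 < 1 := pow_lt_one₀ (by positivity) (inv_lt_one_of_one_lt₀ hq1) two_ne_zero
    refine Summable.of_nonneg_of_le (fun n => sq_nonneg _) (fun n => ?_)
      ((summable_geometric_of_lt_one (by positivity) hr1).mul_left (C ^ 2))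
    calc X n 0 ^ 2 = |X n 0| ^ 2 := (sq_abs _).symm
      _ ≤ (C / q ^ n) ^ 2 := pow_le_pow_left₀ (abs_nonneg _) (hXs' n 0 le_rfl) 2
      _ = C ^ 2 * ((q⁻¹) ^ 2) ^ n := by
          rw [div_pow, ← pow_mul, ← pow_mul, inv_pow, div_eq_mul_inv, mul_comm n 2]
  refine ⟨hsum, fun t ht L => ?_⟩
  obtain ⟨E, hE⟩ : ∃ E, E = ∑' n, X n 0 ^ 2 := ⟨_, rfl⟩
  rw [← hE]
  have hEN : ∀ N : ℕ, ∑ n ∈ Finset.range N, X n 0 ^ 2 ≤ E := fun N => by
    rw [hE]
    exact hsum.sum_le_tsum _ fun n _ => sq_nonneg _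
  have hc' : ∀ k, ContinuousOn (X k) (Icc 0 t) := fun k => (hX.cont k).mono Icc_subset_Ici_self
  obtain ⟨I, hI⟩ : ∃ I : ℕ → ℝ, I = fun N => ∫ s in (0 : ℝ)..t,
    ∑ n ∈ Finset.range N, (4 : ℝ) ^ n * X n s ^ 2 := ⟨_, rfl⟩
  have hint : ∀ N : ℕ, IntervalIntegrable (fun s => ∑ n ∈ Finset.range N,
      (4 : ℝ) ^ n * X n s ^ 2) volume 0 t := fun N => by
    refine ContinuousOn.intervalIntegrable ?_
    rw [uIcc_of_le ht]
    exact continuousOn_finsetSum _ fun n _ => continuousOn_const.mul ((hc' n).pow 2)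
  have hImono : ∀ {N M : ℕ}, N ≤ M → I N ≤ I M := by
    intro N M hNM
    rw [hI]
    refine intervalIntegral.integral_mono_on ht (hint N) (hint M) fun s hs => ?_
    exact Finset.sum_le_sum_of_subset_of_nonneg (Finset.range_mono hNM)
      fun n _ _ => by positivity
  have hI0 : ∀ N, 0 ≤ I N := fun N => by
    rw [hI]
    exact intervalIntegral.integral_nonneg ht fun s _ => Finset.sum_nonneg fun n _ => by positivity
  -- the flux
  have hflux : ∀ N : ℕ, -∫ s in (0 : ℝ)..t, (2 : ℝ) ^ (β * N) * (X N s ^ 2 * X (N + 1) s)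
      ≤ C * (B / (4 * q)) ^ N * I (N + 1) := by
    intro N
    rw [← intervalIntegral.integral_neg, hI]
    simp only
    rw [← intervalIntegral.integral_const_mul]
    refine intervalIntegral.integral_mono_on ht ?_ ((hint (N + 1)).const_mul _) fun s hs => ?_
    · refine ContinuousOn.intervalIntegrable ?_
      rw [uIcc_of_le ht]
      exact (continuousOn_const.mul (((hc' N).pow 2).mul (hc' (N + 1)))).neg
    · have h1 : |X (N + 1) s| ≤ C / q ^ N := by
        refine (hXs' (N + 1) s hs.1).trans ?_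
        apply div_le_div_of_nonneg_left hC0 (by positivity)
        exact pow_le_pow_right₀ hq1.le (Nat.le_succ N)
      have h2 := rate_bd hB0 hq0 h1
      have h3 : (4 : ℝ) ^ N * X N s ^ 2 ≤ ∑ n ∈ Finset.range (N + 1), (4 : ℝ) ^ n * X n s ^ 2 :=
        Finset.single_le_sum (f := fun n => (4 : ℝ) ^ n * X n s ^ 2)
          (fun n _ => by positivity) (Finset.mem_range.2 (by omega))
      rw [pow_mul_nat, ← hB]
      calc -(B ^ N * (X N s ^ 2 * X (N + 1) s)) = X N s ^ 2 * (B ^ N * -X (N + 1) s) := by ring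
        _ ≤ X N s ^ 2 * (B ^ N * |X (N + 1) s|) := by
            apply mul_le_mul_of_nonneg_left _ (sq_nonneg _)
            apply mul_le_mul_of_nonneg_left _ (by positivity)
            exact neg_le_abs _
        _ ≤ X N s ^ 2 * (C * (B / (4 * q)) ^ N * 4 ^ N) :=
            mul_le_mul_of_nonneg_left h2 (sq_nonneg _)
        _ = C * (B / (4 * q)) ^ N * (4 ^ N * X N s ^ 2) := by ring
        _ ≤ _ := mul_le_mul_of_nonneg_left h3 (by positivity)
  have hid : ∀ N : ℕ, ∑ n ∈ Finset.range (N + 1), X n t ^ 2 + 2 * ν * I (N + 1)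
      ≤ E + 2 * (C * (B / (4 * q)) ^ N * I (N + 1)) := by
    intro N
    have h1 := energy_id hX N ht
    have h2 := hflux N
    have h3 := hEN (N + 1)
    have h4 : I (N + 1) = ∫ s in (0 : ℝ)..t,
      ∑ n ∈ Finset.range (N + 1), (4 : ℝ) ^ n * X n s ^ 2 := by rw [hI]
    rw [← h4] at h1
    linarith
  have hpow : Tendsto (fun N : ℕ => (B / (4 * q)) ^ N) atTop (𝓝 0) :=
    tendsto_pow_atTop_nhds_zero_of_lt_one hσ0.le hσ
  -- the dissipation is finite
  have hIb : ∀ N, I N ≤ E / ν := by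
    intro N
    have h1 : Tendsto (fun N : ℕ => C * (B / (4 * q)) ^ N) atTop (𝓝 0) := by
      simpa using hpow.const_mul C
    obtain ⟨N₁, hN₁⟩ := eventually_atTop.1 (h1.eventually (gt_mem_nhds (by positivity : 0 < ν / 2)))
    obtain ⟨M, hM⟩ : ∃ M, M = max N N₁ := ⟨_, rfl⟩
    have h2 := hN₁ M (by rw [hM]; exact le_max_right _ _)
    have h3 := hid M
    have h4 : I N ≤ I (M + 1) := hImono (by
      have : N ≤ M := by rw [hM]; exact le_max_left _ _
      omega)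
    have h5 : C * (B / (4 * q)) ^ M * I (M + 1) ≤ ν / 2 * I (M + 1) :=
      mul_le_mul_of_nonneg_right h2.le (hI0 _)
    have h6 : 0 ≤ ∑ n ∈ Finset.range (M + 1), X n t ^ 2 := Finset.sum_nonneg fun n _ => sq_nonneg _
    rw [le_div_iff₀ hν]
    nlinarith
  have hlim : Tendsto (fun N : ℕ => E + 2 * (C * (B / (4 * q)) ^ N * (E / ν))) atTop
      (𝓝 (E + 2 * (C * 0 * (E / ν)))) :=
    (((hpow.const_mul C).mul_const (E / ν)).const_mul 2).const_add E
  rw [mul_zero, zero_mul, mul_zero, add_zero] at hlim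
  refine ge_of_tendsto hlim ?_
  filter_upwards [eventually_ge_atTop L] with N hN
  have h1 := hid N
  have h2 : ∑ n ∈ Finset.range L, X n t ^ 2 ≤ ∑ n ∈ Finset.range (N + 1), X n t ^ 2 :=
    Finset.sum_le_sum_of_subset_of_nonneg (Finset.range_mono (by omega)) fun n _ _ => sq_nonneg _
  have h3 : I L ≤ I (N + 1) := hImono (by omega)
  have h4 : C * (B / (4 * q)) ^ N * I (N + 1) ≤ C * (B / (4 * q)) ^ N * (E / ν) :=
    mul_le_mul_of_nonneg_left (hIb _) (by positivity)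
  have h5 : I L = ∫ s in (0 : ℝ)..t, ∑ n ∈ Finset.range L, (4 : ℝ) ^ n * X n s ^ 2 := by rw [hI]
  rw [← h5]
  have h6 : 2 * ν * I L ≤ 2 * ν * I (N + 1) := mul_le_mul_of_nonneg_left h3 (by positivity)
  linarith

/-- The energy inequality of the shifted solution. -/
lemma ei_shift {a : ℝ} : EI ν (fun n t => X n (a + t)) 0 ↔ EI ν X a := by
  unfold EI
  simp only [add_zero]
  have key : ∀ (t : ℝ) (N : ℕ), ∫ r in (0 : ℝ)..t, ∑ n ∈ Finset.range N, 4 ^ n * X n (a + r) ^ 2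
      = ∫ r in a..(a + t), ∑ n ∈ Finset.range N, 4 ^ n * X n r ^ 2 := by
    intro t N
    have := intervalIntegral.integral_comp_add_left
      (a := 0) (b := t) (fun r => ∑ n ∈ Finset.range N, (4 : ℝ) ^ n * X n r ^ 2) a
    rw [add_zero] at this
    exact this
  refine and_congr Iff.rfl ⟨fun h t ht N => ?_, fun h t ht N => ?_⟩
  · have h1 := h (t - a) (by linarith) N
    rw [key] at h1
    simp only [add_sub_cancel] at h1
    exact h1
  · have h1 := h (a + t) (by linarith) N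
    rw [key]
    exact h1

theorem stmE' : StmE' := by
  intro β ν s C x X hν hs0 hs hX hXs t ht
  rw [← ei_shift]
  exact ei_strong hν hs0 hs (shift0 hX ht) fun n r hr => hXs n (t + r) (by linarith)

/-! ### weak-strong uniqueness -/

/-- The identity for the product of two solutions. -/
lemma cross_id (β ν : ℝ) (x z : ℕ → ℝ) (N : ℕ) :
    ∑ n ∈ Finset.range (N + 1), (x n * rhs β ν z n + z n * rhs β ν x n)
      = -((2 : ℝ) ^ (β * N) * (x N ^ 2 * x (N + 1))) - (2 : ℝ) ^ (β * N) * (z N ^ 2 * z (N + 1))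
        - ν * ∑ n ∈ Finset.range (N + 1), 4 ^ n * x n ^ 2
        - ν * ∑ n ∈ Finset.range (N + 1), 4 ^ n * z n ^ 2
        - (∑ n ∈ Finset.range N, (2 : ℝ) ^ (β * n) * x n * ((x n - z n) * (x (n + 1) - z (n + 1)))
        - ∑ n ∈ Finset.range (N + 1), (2 : ℝ) ^ (β * n) * x (n + 1) * (x n - z n) ^ 2
        - ν * ∑ n ∈ Finset.range (N + 1), 4 ^ n * (x n - z n) ^ 2
        + (2 : ℝ) ^ (β * N) * ((x N - z N) ^ 2 * (x (N + 1) - z (N + 1)))
        - (2 : ℝ) ^ (β * N) * x N * ((x N - z N) * (x (N + 1) - z (N + 1)))) := by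
  have h1 := Pool.Agent.Run7.h32.Dy.energy_sum β ν x N
  have h2 := Pool.Agent.Run7.h32.Dy.energy_sum β ν z N
  have h3 := Pool.Agent.Run7.h32.Dy.diff_sum β ν x z N
  have h4 : ∑ n ∈ Finset.range (N + 1), (x n - z n) * (rhs β ν x n - rhs β ν z n)
      = ∑ n ∈ Finset.range (N + 1), x n * rhs β ν x n + ∑ n ∈ Finset.range (N + 1), z n * rhs β ν z n
        - ∑ n ∈ Finset.range (N + 1), (x n * rhs β ν z n + z n * rhs β ν x n) := by
    rw [← Finset.sum_add_distrib, ← Finset.sum_sub_distrib]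
    exact Finset.sum_congr rfl fun n _ => by ring
  rw [h1, h2, h3] at h4
  linarith

/-- The bulk terms are absorbed. -/
lemma bulk_le {K : ℝ} (hν : 0 < ν) {x d : ℕ → ℝ} (hK0 : 0 ≤ K)
    (hK : ∀ n : ℕ, (2 : ℝ) ^ (β * n) * |x n| ≤ ν / 4 * 4 ^ n + K)
    (hK' : ∀ n : ℕ, (2 : ℝ) ^ (β * n) * |x (n + 1)| ≤ ν / 4 * 4 ^ n + K) (N : ℕ) :
    ∑ n ∈ Finset.range N, (2 : ℝ) ^ (β * n) * x n * (d n * d (n + 1))
        - ∑ n ∈ Finset.range (N + 1), (2 : ℝ) ^ (β * n) * x (n + 1) * d n ^ 2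
        - ν * ∑ n ∈ Finset.range (N + 1), 4 ^ n * d n ^ 2
      ≤ 2 * K * ∑ n ∈ Finset.range (N + 1), d n ^ 2 := by
  have hp : ∀ n : ℕ, (0 : ℝ) < 2 ^ (β * n) := fun n => Real.rpow_pos_of_pos two_pos _
  obtain ⟨Q, hQ⟩ : ∃ Q, Q = ∑ n ∈ Finset.range (N + 1), (4 : ℝ) ^ n * d n ^ 2 := ⟨_, rfl⟩
  obtain ⟨y, hy⟩ : ∃ y, y = ∑ n ∈ Finset.range (N + 1), d n ^ 2 := ⟨_, rfl⟩
  have hQ0 : 0 ≤ Q := by rw [hQ]; exact Finset.sum_nonneg fun n _ => by positivity
  have hy0 : 0 ≤ y := by rw [hy]; exact Finset.sum_nonneg fun n _ => by positivity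
  have h1 : ∑ n ∈ Finset.range N, (2 : ℝ) ^ (β * n) * x n * (d n * d (n + 1))
      ≤ ∑ n ∈ Finset.range N, (ν / 4 * 4 ^ n + K) * ((d n ^ 2 + d (n + 1) ^ 2) / 2) := by
    refine Finset.sum_le_sum fun n _ => ?_
    have e1 : x n * (d n * d (n + 1)) ≤ |x n| * ((d n ^ 2 + d (n + 1) ^ 2) / 2) := by
      have e2 : |d n * d (n + 1)| ≤ (d n ^ 2 + d (n + 1) ^ 2) / 2 := by
        rw [abs_le]
        constructor <;> nlinarith [sq_nonneg (d n - d (n + 1)), sq_nonneg (d n + d (n + 1))]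
      calc x n * (d n * d (n + 1)) ≤ |x n * (d n * d (n + 1))| := le_abs_self _
        _ = |x n| * |d n * d (n + 1)| := abs_mul _ _
        _ ≤ _ := mul_le_mul_of_nonneg_left e2 (abs_nonneg _)
    calc (2 : ℝ) ^ (β * n) * x n * (d n * d (n + 1)) = (2 : ℝ) ^ (β * n) * (x n * (d n * d (n + 1))) := by
          ring
      _ ≤ (2 : ℝ) ^ (β * n) * (|x n| * ((d n ^ 2 + d (n + 1) ^ 2) / 2)) :=
          mul_le_mul_of_nonneg_left e1 (hp n).le
      _ = (2 : ℝ) ^ (β * n) * |x n| * ((d n ^ 2 + d (n + 1) ^ 2) / 2) := by ring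
      _ ≤ _ := mul_le_mul_of_nonneg_right (hK n) (by positivity)
  have h2 : -∑ n ∈ Finset.range (N + 1), (2 : ℝ) ^ (β * n) * x (n + 1) * d n ^ 2
      ≤ ∑ n ∈ Finset.range (N + 1), (ν / 4 * 4 ^ n + K) * d n ^ 2 := by
    rw [← Finset.sum_neg_distrib]
    refine Finset.sum_le_sum fun n _ => ?_
    calc -((2 : ℝ) ^ (β * n) * x (n + 1) * d n ^ 2) = (2 : ℝ) ^ (β * n) * -x (n + 1) * d n ^ 2 := by
          ring
      _ ≤ (2 : ℝ) ^ (β * n) * |x (n + 1)| * d n ^ 2 := by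
          apply mul_le_mul_of_nonneg_right _ (sq_nonneg _)
          exact mul_le_mul_of_nonneg_left (neg_le_abs _) (hp n).le
      _ ≤ _ := mul_le_mul_of_nonneg_right (hK' n) (sq_nonneg _)
  have h3 : ∑ n ∈ Finset.range (N + 1), (ν / 4 * 4 ^ n + K) * d n ^ 2 = ν / 4 * Q + K * y := by
    rw [hQ, hy, Finset.mul_sum, Finset.mul_sum, ← Finset.sum_add_distrib]
    exact Finset.sum_congr rfl fun n _ => by ring
  have h4 : ∑ n ∈ Finset.range N, (ν / 4 * 4 ^ n + K) * ((d n ^ 2 + d (n + 1) ^ 2) / 2)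
      ≤ ν / 4 * Q + K * y := by
    have e1 : ∑ n ∈ Finset.range N, (4 : ℝ) ^ n * d n ^ 2 ≤ Q := by
      rw [hQ, Finset.sum_range_succ]
      have : 0 ≤ (4 : ℝ) ^ N * d N ^ 2 := by positivity
      linarith
    have e2 : ∑ n ∈ Finset.range N, (4 : ℝ) ^ n * d (n + 1) ^ 2 ≤ Q := by
      rw [hQ, Finset.sum_range_succ' (fun n => (4 : ℝ) ^ n * d n ^ 2) N]
      have h5 : ∑ n ∈ Finset.range N, (4 : ℝ) ^ n * d (n + 1) ^ 2
          ≤ ∑ n ∈ Finset.range N, (4 : ℝ) ^ (n + 1) * d (n + 1) ^ 2 :=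
        Finset.sum_le_sum fun n _ => mul_le_mul_of_nonneg_right
          (pow_le_pow_right₀ (by norm_num) (Nat.le_succ n)) (sq_nonneg _)
      have h6 : 0 ≤ (4 : ℝ) ^ 0 * d 0 ^ 2 := by positivity
      linarith
    have e3 : ∑ n ∈ Finset.range N, d n ^ 2 ≤ y := by
      rw [hy, Finset.sum_range_succ]
      have : 0 ≤ d N ^ 2 := by positivity
      linarith
    have e4 : ∑ n ∈ Finset.range N, d (n + 1) ^ 2 ≤ y := by
      rw [hy, Finset.sum_range_succ' (fun n => d n ^ 2) N]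
      have : 0 ≤ d 0 ^ 2 := by positivity
      linarith
    have e5 : ∑ n ∈ Finset.range N, (ν / 4 * 4 ^ n + K) * ((d n ^ 2 + d (n + 1) ^ 2) / 2)
        = ν / 8 * ∑ n ∈ Finset.range N, (4 : ℝ) ^ n * d n ^ 2
          + ν / 8 * ∑ n ∈ Finset.range N, (4 : ℝ) ^ n * d (n + 1) ^ 2
          + K / 2 * ∑ n ∈ Finset.range N, d n ^ 2
          + K / 2 * ∑ n ∈ Finset.range N, d (n + 1) ^ 2 := by
      rw [Finset.mul_sum, Finset.mul_sum, Finset.mul_sum, Finset.mul_sum,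
        ← Finset.sum_add_distrib, ← Finset.sum_add_distrib, ← Finset.sum_add_distrib]
      exact Finset.sum_congr rfl fun n _ => by ring
    rw [e5]
    nlinarith
  rw [← hQ, ← hy]
  rw [h3] at h2
  nlinarith [mul_nonneg hν.le hQ0]

/-- The boundary terms. -/
lemma bdry_le {a b c d w : ℝ} (ha : |a| ≤ w) (hb : |b| ≤ w) :
    a ^ 2 * b + c ^ 2 * d + (a - c) ^ 2 * (b - d) - a * ((a - c) * (b - d))
      ≤ 8 * w * (a ^ 2 + b ^ 2 + c ^ 2 + d ^ 2) := by
  have hw : 0 ≤ w := (abs_nonneg _).trans ha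
  have e : a ^ 2 * b + c ^ 2 * d + (a - c) ^ 2 * (b - d) - a * ((a - c) * (b - d))
      = a * (a * b) + b * (c ^ 2) - a * (c * b) + a * (c * d) := by ring
  have h1 : ∀ p r : ℝ, |p| ≤ w → p * r ≤ w * |r| := by
    intro p r hp
    calc p * r ≤ |p * r| := le_abs_self _
      _ = |p| * |r| := abs_mul _ _
      _ ≤ w * |r| := mul_le_mul_of_nonneg_right hp (abs_nonneg _)
  have h2 : ∀ p r : ℝ, |p * r| ≤ p ^ 2 + r ^ 2 := by
    intro p r
    rw [abs_le]
    constructor <;> nlinarith [sq_nonneg (p - r), sq_nonneg (p + r), sq_nonneg p, sq_nonneg r]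
  have h3 := h1 a (a * b) ha
  have h4 := h1 b (c ^ 2) hb
  have h5 := h1 (-a) (c * b) (by rwa [abs_neg])
  have h6 := h1 a (c * d) ha
  have h7 := mul_le_mul_of_nonneg_left (h2 a b) hw
  have h8 := mul_le_mul_of_nonneg_left (h2 c b) hw
  have h9 := mul_le_mul_of_nonneg_left (h2 c d) hw
  have h10 : |c ^ 2| = c ^ 2 := abs_of_nonneg (sq_nonneg _)
  rw [h10] at h4
  rw [e]
  have h11 : 0 ≤ w * (a ^ 2) := mul_nonneg hw (sq_nonneg _)
  have h12 : 0 ≤ w * (b ^ 2) := mul_nonneg hw (sq_nonneg _)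
  have h13 : 0 ≤ w * (c ^ 2) := mul_nonneg hw (sq_nonneg _)
  have h14 : 0 ≤ w * (d ^ 2) := mul_nonneg hw (sq_nonneg _)
  nlinarith

end Run7.h969.Dz
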