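import Pool.Agent.Run7.h969.Dz.LH

/-!
The dyadic model for real data: the critical decay `2^n X_n → 0`, `β ≤ 3` (helper969).
-/

set_option autoImplicit false

open Set Filter Topology MeasureTheory

namespace Run7.h969.Dz

open Run7.h969.Dy

lemma rate3 {β : ℝ} (hβ : β ≤ 3) (n : ℕ) : (2 : ℝ) ^ (β * n) ≤ 2 ^ n * 4 ^ n := by
  have g2 : (2 : ℝ) ^ n * 4 ^ n = (2 : ℝ) ^ (3 * (n : ℝ)) := by
    rw [Real.rpow_mul two_pos.le, Real.rpow_natCast, ← mul_pow]
    norm_num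
  rw [g2]
  apply Real.rpow_le_rpow_of_exponent_le one_le_two
  gcongr

/-- The tails stay small. -/
theorem tail_small {β ν T : ℝ} {N n₀ : ℕ} {x : ℕ → ℝ} {X : ℕ → ℝ → ℝ} (hβ : β ≤ 3) (hν : 0 < ν)
    (hG : Gal β ν T N x X) (hx : ∀ n ≥ n₀, (2 : ℝ) ^ n * |x n| ≤ ν / 8)
    (h0 : ∀ t ∈ Icc 0 T, (2 : ℝ) ^ n₀ * |X n₀ t| ≤ ν / 8) :
    ∀ n ≥ n₀, ∀ t ∈ Icc 0 T, (2 : ℝ) ^ n * |X n t| ≤ ν / 4 := by
  obtain ⟨w, hw⟩ : ∃ w : ℝ, w = ν / 4 := ⟨_, rfl⟩
  have hw0 : 0 < w := by rw [hw]; positivity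
  have hν4 : ν = 4 * w := by rw [hw]; ring
  have hc := Pool.Agent.Run7.h32.Dy.gal_cont hG
  have key := barrier (ι := Fin (N + 1)) (T := T)
    (fun i t => if n₀ < (i : ℕ) then (w / 2 ^ (i : ℕ)) ^ 2 - X i t ^ 2 else 1) ?_ ?_ ?_
  · intro n hn t ht
    rw [← hw]
    by_cases hN : n ≤ N
    · rcases Nat.lt_or_ge n₀ n with hn' | hn'
      · have h1 := key ⟨n, by omega⟩ t ht
        rw [if_pos (show n₀ < n from hn')] at h1
        have h2 : |X n t| ≤ w / 2 ^ n := by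
          apply abs_le_of_sq_le_sq _ (by positivity)
          have h3 : 0 < (w / 2 ^ n) ^ 2 - X n t ^ 2 := h1
          linarith
        rw [le_div_iff₀ (by positivity), mul_comm] at h2
        exact h2
      · obtain rfl : n = n₀ := le_antisymm hn' hn
        have := h0 t ht
        linarith
    · rw [hG.zero n (by omega) t, abs_zero, mul_zero]
      exact hw0.le
  · intro i
    by_cases hi : n₀ < (i : ℕ)
    · simp only [hi, ite_true]
      exact continuousOn_const.sub ((hc _).pow 2)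
    · simp only [hi, ite_false]
      exact continuousOn_const
  · intro i
    by_cases hi : n₀ < (i : ℕ)
    · simp only [hi, ite_true]
      rw [hG.init i (by omega)]
      have h1 := hx i hi.le
      have h2 : |x i| < w / 2 ^ (i : ℕ) := by
        rw [lt_div_iff₀ (by positivity), mul_comm]
        linarith
      have h3 : x i ^ 2 < (w / 2 ^ (i : ℕ)) ^ 2 := by
        rw [← sq_abs (x i)]
        exact pow_lt_pow_left₀ h2 (abs_nonneg _) two_ne_zero
      linarith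
    · simp only [hi, ite_false]
      exact one_pos
  · intro i t ht hall hi0
    by_cases hi : n₀ < (i : ℕ)
    · simp only [hi, ite_true] at hi0 ⊢
      obtain ⟨n, hn⟩ := i
      simp only at hi hi0 ⊢
      obtain ⟨m, rfl⟩ : ∃ m, n = m + 1 := ⟨n - 1, by omega⟩
      have htI : t ∈ Icc 0 T := ⟨ht.1.le, ht.2⟩
      have hd := ((hG.ode (m + 1) (by omega) t htI).pow 2).const_sub ((w / 2 ^ (m + 1)) ^ 2)
      refine ⟨_, ?_, hd⟩
      have h1 : X (m + 1) t ^ 2 = (w / 2 ^ (m + 1)) ^ 2 := by linarith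
      have h1' : |X (m + 1) t| = w / 2 ^ (m + 1) := by
        rw [← sq_abs (X (m + 1) t)] at h1
        exact (pow_left_inj₀ (abs_nonneg _) (by positivity) two_ne_zero).1 h1
      have h2 : |X (m + 2) t| ≤ w / 2 ^ (m + 2) := by
        by_cases hN : m + 2 ≤ N
        · have h3 := hall ⟨m + 2, by omega⟩
          rw [if_pos (show n₀ < m + 2 by omega)] at h3
          apply abs_le_of_sq_le_sq _ (by positivity)
          have h3' : 0 ≤ (w / 2 ^ (m + 2)) ^ 2 - X (m + 2) t ^ 2 := h3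
          linarith
        · rw [hG.zero (m + 2) (by omega) t, abs_zero]
          positivity
      have h3 : |X m t| ≤ w / 2 ^ m := by
        rcases Nat.lt_or_ge n₀ m with hm | hm
        · have h3 := hall ⟨m, by omega⟩
          rw [if_pos (show n₀ < m by omega)] at h3
          apply abs_le_of_sq_le_sq _ (by positivity)
          have h3' : 0 ≤ (w / 2 ^ m) ^ 2 - X m t ^ 2 := h3
          linarith
        · obtain rfl : m = n₀ := by omega
          rw [le_div_iff₀ (by positivity), mul_comm]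
          have := h0 t htI
          linarith
      have hr1 := rate3 hβ m
      have hr2 := rate3 hβ (m + 1)
      have hp1 : (0 : ℝ) < 2 ^ (β * m) := Real.rpow_pos_of_pos two_pos _
      have hp2 : (0 : ℝ) < 2 ^ (β * (m + 1 : ℕ)) := Real.rpow_pos_of_pos two_pos _
      have e1 : (2 : ℝ) ^ (β * m) * X m t ^ 2 * |X (m + 1) t| ≤ w ^ 3 / 2 := by
        calc (2 : ℝ) ^ (β * m) * X m t ^ 2 * |X (m + 1) t|
            ≤ (2 ^ m * 4 ^ m) * (w / 2 ^ m) ^ 2 * (w / 2 ^ (m + 1)) := by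
              rw [h1']
              have h4 : X m t ^ 2 ≤ (w / 2 ^ m) ^ 2 := by
                rw [← sq_abs]
                exact pow_le_pow_left₀ (abs_nonneg _) h3 2
              apply mul_le_mul_of_nonneg_right _ (by positivity)
              exact mul_le_mul hr1 h4 (sq_nonneg _) (by positivity)
          _ = w ^ 3 / 2 := by
              rw [show (4 : ℝ) ^ m = 2 ^ m * 2 ^ m by rw [← mul_pow]; norm_num, pow_succ (2 : ℝ) m]
              field_simp
      have e2 : (2 : ℝ) ^ (β * (m + 1 : ℕ)) * X (m + 1) t ^ 2 * |X (m + 2) t| ≤ w ^ 3 / 2 := by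
        calc (2 : ℝ) ^ (β * (m + 1 : ℕ)) * X (m + 1) t ^ 2 * |X (m + 2) t|
            ≤ (2 ^ (m + 1) * 4 ^ (m + 1)) * (w / 2 ^ (m + 1)) ^ 2 * (w / 2 ^ (m + 2)) := by
              rw [h1]
              exact mul_le_mul (mul_le_mul_of_nonneg_right hr2 (by positivity)) h2 (abs_nonneg _)
                (by positivity)
          _ = w ^ 3 / 2 := by
              rw [show (4 : ℝ) ^ (m + 1) = 2 ^ (m + 1) * 2 ^ (m + 1) by rw [← mul_pow]; norm_num,
                show (2 : ℝ) ^ (m + 2) = 2 ^ (m + 1) * 2 by ring]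
              field_simp
      have e3 : (4 : ℝ) ^ (m + 1) * X (m + 1) t ^ 2 = w ^ 2 := by
        rw [h1, show (4 : ℝ) ^ (m + 1) = 2 ^ (m + 1) * 2 ^ (m + 1) by rw [← mul_pow]; norm_num]
        field_simp
      have f1 : (2 : ℝ) ^ (β * m) * X m t ^ 2 * X (m + 1) t ≤ w ^ 3 / 2 :=
        le_trans (mul_le_mul_of_nonneg_left (le_abs_self _)
          (mul_nonneg hp1.le (sq_nonneg _))) e1
      have f2 : -(w ^ 3 / 2) ≤ (2 : ℝ) ^ (β * (m + 1 : ℕ)) * X (m + 1) t ^ 2 * X (m + 2) t := by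
        have : (2 : ℝ) ^ (β * (m + 1 : ℕ)) * X (m + 1) t ^ 2 * -X (m + 2) t
            ≤ (2 : ℝ) ^ (β * (m + 1 : ℕ)) * X (m + 1) t ^ 2 * |X (m + 2) t| :=
          mul_le_mul_of_nonneg_left (neg_le_abs _) (mul_nonneg hp2.le (sq_nonneg _))
        linarith
      simp only [rhs]
      push_cast at f2
      have e4 : -(((2 : ℕ) : ℝ) * X (m + 1) t ^ (2 - 1) * ((2 : ℝ) ^ (β * m) * X m t ^ 2
          - (2 : ℝ) ^ (β * ((m : ℝ) + 1)) * (X (m + 1) t * X (m + 2) t)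
          - ν * 4 ^ (m + 1) * X (m + 1) t))
          = 2 * ((2 : ℝ) ^ (β * ((m : ℝ) + 1)) * X (m + 1) t ^ 2 * X (m + 2) t)
            - 2 * ((2 : ℝ) ^ (β * m) * X m t ^ 2 * X (m + 1) t)
            + 2 * ν * ((4 : ℝ) ^ (m + 1) * X (m + 1) t ^ 2) := by
        norm_num
        ring
      rw [e4, e3, hν4]
      have h9 : 0 < w ^ 3 := by positivity
      nlinarith
    · simp only [hi, ite_false] at hi0
      exact absurd hi0 one_ne_zero

/-- The supersolution. -/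
theorem tail_super {β ν T : ℝ} {N n₀ : ℕ} {x : ℕ → ℝ} {X : ℕ → ℝ → ℝ} (hβ : β ≤ 3) (hν : 0 < ν)
    (hG : Gal β ν T N x X) (hx : ∀ n ≥ n₀, (2 : ℝ) ^ n * |x n| ≤ ν / 8)
    (h0 : ∀ t ∈ Icc 0 T, (2 : ℝ) ^ n₀ * |X n₀ t| ≤ ν / 8) :
    ∀ m : ℕ, ∀ t ∈ Icc 0 T, (2 : ℝ) ^ (n₀ + m) * |X (n₀ + m) t|
      ≤ ν / 8 * ((1 / 2) ^ m + Real.exp (-(ν * 2 ^ m) * t)) := by
  have hsm := tail_small hβ hν hG hx h0
  have hc := Pool.Agent.Run7.h32.Dy.gal_cont hG
  intro m
  induction m with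
  | zero =>
    intro t ht
    have h1 := h0 t ht
    have h2 : 0 ≤ ν / 8 * Real.exp (-(ν * 2 ^ 0) * t) := by positivity
    rw [add_zero, pow_zero (1 / 2 : ℝ), mul_add, mul_one]
    linarith
  | succ m ih =>
    obtain ⟨n, hn⟩ : ∃ n, n = n₀ + m := ⟨_, rfl⟩
    rw [← hn] at ih
    rw [← add_assoc, ← hn]
    intro t ht
    by_cases hN : n + 1 ≤ N
    swap
    · rw [hG.zero (n + 1) (by omega) t, abs_zero, mul_zero]
      positivity
    obtain ⟨φ, hφ⟩ : ∃ φ : ℝ → ℝ, φ = fun r =>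
      ν / 8 * ((1 / 2) ^ (m + 1) + Real.exp (-(ν * 2 ^ (m + 1)) * r)) := ⟨_, rfl⟩
    obtain ⟨a, ha⟩ : ∃ a : ℝ → ℝ, a = fun r =>
      (2 : ℝ) ^ (β * ((n : ℝ) + 1)) * X (n + 2) r + ν * 4 ^ (n + 1) := ⟨_, rfl⟩
    have hac : ContinuousOn a (Icc 0 T) := by
      rw [ha]
      exact (continuousOn_const.mul (hc _)).add continuousOn_const
    have hφd : ∀ r : ℝ, HasDerivAt φ (ν / 8 * (Real.exp (-(ν * 2 ^ (m + 1)) * r)
        * (-(ν * 2 ^ (m + 1)) * 1))) r := fun r => by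
      rw [hφ]
      exact ((((hasDerivAt_id r).const_mul _).exp).const_add _).const_mul (ν / 8)
    -- the damping
    have hal : ∀ r ∈ Icc 0 T, 7 / 8 * ν * 4 ^ (n + 1) ≤ a r := by
      intro r hr
      have h1 := hsm (n + 2) (by omega) r hr
      have h2 := rate3 hβ (n + 1)
      push_cast at h2
      have h3 : (2 : ℝ) ^ (β * ((n : ℝ) + 1)) * |X (n + 2) r| ≤ ν / 8 * 4 ^ (n + 1) := by
        calc (2 : ℝ) ^ (β * ((n : ℝ) + 1)) * |X (n + 2) r|
            ≤ (2 ^ (n + 1) * 4 ^ (n + 1)) * |X (n + 2) r| :=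
              mul_le_mul_of_nonneg_right h2 (abs_nonneg _)
          _ = 4 ^ (n + 1) / 2 * (2 ^ (n + 2) * |X (n + 2) r|) := by ring
          _ ≤ 4 ^ (n + 1) / 2 * (ν / 4) := mul_le_mul_of_nonneg_left h1 (by positivity)
          _ = _ := by ring
      have h4 : -((2 : ℝ) ^ (β * ((n : ℝ) + 1)) * |X (n + 2) r|)
          ≤ (2 : ℝ) ^ (β * ((n : ℝ) + 1)) * X (n + 2) r := by
        rw [← mul_neg]
        exact mul_le_mul_of_nonneg_left (neg_abs_le _) (Real.rpow_nonneg two_pos.le _)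
      rw [ha]
      simp only
      linarith
    -- the main inequality
    have hmain : ∀ r ∈ Icc 0 T, 2 ^ (n + 1) * ((2 : ℝ) ^ (β * n) * X n r ^ 2)
        ≤ ν / 8 * (Real.exp (-(ν * 2 ^ (m + 1)) * r) * (-(ν * 2 ^ (m + 1)) * 1)) + a r * φ r := by
      intro r hr
      have i1 := ih r hr
      obtain ⟨e, he⟩ : ∃ e, e = Real.exp (-(ν * 2 ^ m) * r) := ⟨_, rfl⟩
      have he0 : 0 < e := he ▸ Real.exp_pos _
      have he2 : Real.exp (-(ν * 2 ^ (m + 1)) * r) = e ^ 2 := by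
        rw [he, ← Real.exp_nat_mul]
        congr 1
        push_cast
        ring
      have j1 : (2 : ℝ) ^ (n + 1) * ((2 : ℝ) ^ (β * n) * X n r ^ 2)
          ≤ 2 * 4 ^ n * (2 ^ n * |X n r|) ^ 2 := by
        have g1 := rate3 hβ n
        calc (2 : ℝ) ^ (n + 1) * ((2 : ℝ) ^ (β * n) * X n r ^ 2)
            ≤ (2 : ℝ) ^ (n + 1) * ((2 ^ n * 4 ^ n) * X n r ^ 2) := by gcongr
          _ = (2 : ℝ) ^ (n + 1) * ((2 ^ n * 4 ^ n) * |X n r| ^ 2) := by rw [sq_abs]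
          _ = _ := by ring
      have j2 : ((2 : ℝ) ^ n * |X n r|) ^ 2 ≤ (ν / 8 * ((1 / 2) ^ m + e)) ^ 2 := by
        rw [← he] at i1
        gcongr
      obtain ⟨p, hp⟩ : ∃ p : ℝ, p = (1 / 2) ^ m := ⟨_, rfl⟩
      have hp0 : 0 < p := by rw [hp]; positivity
      have hp1 : p ≤ 1 := by
        rw [hp]
        exact pow_le_one₀ (by norm_num) (by norm_num)
      have hpe : (1 / 2 : ℝ) ^ (m + 1) = p / 2 := by
        rw [hp, pow_succ]
        ring
      have j3 : (ν / 8 * (p + e)) ^ 2 ≤ ν ^ 2 / 32 * (p + e ^ 2) := by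
        have k1 : (p + e) ^ 2 ≤ 2 * (p + e ^ 2) := by nlinarith [sq_nonneg (p - e)]
        calc (ν / 8 * (p + e)) ^ 2 = ν ^ 2 / 64 * (p + e) ^ 2 := by ring
          _ ≤ ν ^ 2 / 64 * (2 * (p + e ^ 2)) := mul_le_mul_of_nonneg_left k1 (by positivity)
          _ = _ := by ring
      have j4 : (2 : ℝ) ^ m ≤ 4 ^ n := by
        calc (2 : ℝ) ^ m ≤ 4 ^ m := by gcongr; norm_num
          _ ≤ 4 ^ n := pow_le_pow_right₀ (by norm_num) (by omega)
      rw [← hp] at j2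
      rw [he2]
      have hφr : φ r = ν / 8 * (p / 2 + e ^ 2) := by rw [hφ]; simp only; rw [he2, hpe]
      rw [hφr]
      have j5 : 2 * 4 ^ n * (2 ^ n * |X n r|) ^ 2 ≤ 2 * 4 ^ n * (ν ^ 2 / 32 * (p + e ^ 2)) := by
        have := j2.trans j3
        gcongr
      have j6 := mul_le_mul_of_nonneg_right (hal r hr)
        (by positivity : 0 ≤ ν / 8 * (p / 2 + e ^ 2))
      have j7 : 2 * 4 ^ n * (ν ^ 2 / 32 * (p + e ^ 2))
          ≤ ν / 8 * (e ^ 2 * (-(ν * 2 ^ (m + 1)) * 1))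
            + 7 / 8 * ν * 4 ^ (n + 1) * (ν / 8 * (p / 2 + e ^ 2)) := by
        have k2 : ν ^ 2 * e ^ 2 * 2 ^ m ≤ ν ^ 2 * e ^ 2 * 4 ^ n := by gcongr
        have k3 : 0 ≤ ν ^ 2 * 4 ^ n * p := by positivity
        have k4 : 0 ≤ ν ^ 2 * e ^ 2 * 4 ^ n := by positivity
        have e1 : ν / 8 * (e ^ 2 * (-(ν * 2 ^ (m + 1)) * 1))
            + 7 / 8 * ν * 4 ^ (n + 1) * (ν / 8 * (p / 2 + e ^ 2))
            = 7 / 32 * (ν ^ 2 * 4 ^ n * p) + 7 / 16 * (ν ^ 2 * e ^ 2 * 4 ^ n)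
              - 1 / 4 * (ν ^ 2 * e ^ 2 * 2 ^ m) := by ring
        have e2 : 2 * 4 ^ n * (ν ^ 2 / 32 * (p + e ^ 2))
            = 1 / 16 * (ν ^ 2 * 4 ^ n * p) + 1 / 16 * (ν ^ 2 * e ^ 2 * 4 ^ n) := by ring
        rw [e1, e2]
        linarith
      linarith
    have hode : ∀ r ∈ Icc 0 T, HasDerivWithinAt (fun r => (2 : ℝ) ^ (n + 1) * X (n + 1) r)
        (2 ^ (n + 1) * ((2 : ℝ) ^ (β * n) * X n r ^ 2) - a r * (2 ^ (n + 1) * X (n + 1) r))
        (Icc 0 T) r := by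
      intro r hr
      refine ((hG.ode (n + 1) hN r hr).const_mul ((2 : ℝ) ^ (n + 1))).congr_deriv ?_
      rw [ha]
      simp only [rhs]
      ring
    have hgn : ∀ r, 0 ≤ 2 ^ (n + 1) * ((2 : ℝ) ^ (β * n) * X n r ^ 2) := fun r =>
      mul_nonneg (by positivity) (mul_nonneg (Real.rpow_nonneg two_pos.le _) (sq_nonneg _))
    have hinit : |(2 : ℝ) ^ (n + 1) * X (n + 1) 0| ≤ φ 0 := by
      rw [abs_mul, abs_of_pos (by positivity : (0 : ℝ) < 2 ^ (n + 1)), hG.init (n + 1) hN, hφ]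
      simp only [mul_zero, Real.exp_zero]
      have h1 := hx (n + 1) (by omega)
      have h2 : 0 ≤ ν / 8 * (1 / 2) ^ (m + 1) := by positivity
      linarith
    have h1 := Pool.Agent.Run7.h32.Dy.nn_of_lin (T := T)
      (f := fun r => φ r - (2 : ℝ) ^ (n + 1) * X (n + 1) r)
      (g := fun r => ν / 8 * (Real.exp (-(ν * 2 ^ (m + 1)) * r) * (-(ν * 2 ^ (m + 1)) * 1))
        + a r * φ r - 2 ^ (n + 1) * ((2 : ℝ) ^ (β * n) * X n r ^ 2)) (a := a)
      (fun r hr => (((hφd r).hasDerivWithinAt).sub (hode r hr)).congr_deriv (by ring)) hac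
      (fun r hr => by
        have := hmain r hr
        linarith)
      (by
        have := (le_abs_self _).trans hinit
        linarith)
    have h2 := Pool.Agent.Run7.h32.Dy.nn_of_lin (T := T)
      (f := fun r => φ r + (2 : ℝ) ^ (n + 1) * X (n + 1) r)
      (g := fun r => ν / 8 * (Real.exp (-(ν * 2 ^ (m + 1)) * r) * (-(ν * 2 ^ (m + 1)) * 1))
        + a r * φ r + 2 ^ (n + 1) * ((2 : ℝ) ^ (β * n) * X n r ^ 2)) (a := a)
      (fun r hr => (((hφd r).hasDerivWithinAt).add (hode r hr)).congr_deriv (by ring)) hac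
      (fun r hr => by
        have := hmain r hr
        have := hgn r
        linarith)
      (by
        have := (neg_abs_le _).trans' (neg_le_neg hinit)
        linarith)
    have h3 := h1 t ht
    have h4 := h2 t ht
    have h5 : (2 : ℝ) ^ (n + 1) * |X (n + 1) t| = |(2 : ℝ) ^ (n + 1) * X (n + 1) t| := by
      rw [abs_mul, abs_of_pos (by positivity : (0 : ℝ) < 2 ^ (n + 1))]
    have h6 : φ t = ν / 8 * ((1 / 2) ^ (m + 1) + Real.exp (-(ν * 2 ^ (m + 1)) * t)) := by rw [hφ]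
    rw [h5, ← h6, abs_le]
    constructor <;> linarith

end Run7.h969.Dz
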