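import Pool.Agent.Run7.h969.Dz.WS

/-!
The dyadic model for real data: existence (helper969; the ultrafilter limit follows helper32).
-/

set_option autoImplicit false

open Set Filter Topology MeasureTheory

namespace Run7.h969.Dz

open Run7.h969.Dy
open Pool.Agent.Run7.h32.Dy (stmA rhs_bd Rb Lb gal_taylor hd_of_sq)

/-- The energy equality of the truncated system between two times. -/
lemma gal_energy2 {β ν T : ℝ} {N : ℕ} {x : ℕ → ℝ} {X : ℕ → ℝ → ℝ} (h : Gal β ν T N x X)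
    {s t : ℝ} (hs : s ∈ Icc 0 T) (ht : t ∈ Icc 0 T) :
    ∑ n ∈ Finset.range (N + 1), X n t ^ 2
      + 2 * ν * ∫ r in s..t, ∑ n ∈ Finset.range (N + 1), 4 ^ n * X n r ^ 2
      = ∑ n ∈ Finset.range (N + 1), X n s ^ 2 := by
  have h1 := gal_energy h ht
  have h2 := gal_energy h hs
  have hi : ContinuousOn (fun s => ∑ n ∈ Finset.range (N + 1), (4 : ℝ) ^ n * X n s ^ 2) (Icc 0 T) :=
    continuousOn_finsetSum _ fun n _ => continuousOn_const.mul ((gal_cont h n).pow 2)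
  have hii : ∀ r ∈ Icc 0 T, IntervalIntegrable
      (fun s => ∑ n ∈ Finset.range (N + 1), (4 : ℝ) ^ n * X n s ^ 2) volume 0 r := by
    intro r hr
    refine ContinuousOn.intervalIntegrable ?_
    rw [uIcc_of_le hr.1]
    exact hi.mono (Icc_subset_Icc_right hr.2)
  have h3 := intervalIntegral.integral_interval_sub_left (hii t ht) (hii s hs)
  rw [← h3]
  linarith

/-- The truncated solutions have a subsequence which converges to a solution. -/
theorem exist_sub {β ν : ℝ} {x : ℕ → ℝ} (hν : 0 < ν) (hx2 : Summable fun n => x n ^ 2) :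
    ∃ (X : ℕ → ℝ → ℝ) (Y : ℕ → ℕ → ℝ → ℝ) (φ : ℕ → ℕ), IsDy β ν x X ∧ StrictMono φ ∧
      (∀ N : ℕ, Gal β ν ((N : ℝ) + 1) N x (Y N)) ∧
      ∀ n t, 0 ≤ t → Tendsto (fun k => Y (φ k) n t) atTop (𝓝 (X n t)) := by
  have hex : ∀ N : ℕ, ∃ Y : ℕ → ℝ → ℝ, Gal β ν ((N : ℝ) + 1) N x Y := fun N =>
    stmA β ν ((N : ℝ) + 1) N x hν (by positivity)
  choose Y hY using hex
  obtain ⟨M, hM⟩ : ∃ M : ℕ → ℝ, ∀ n, M n = √(∑' n, x n ^ 2) := ⟨fun _ => _, fun _ => rfl⟩
  have hYa : ∀ N : ℕ, ∀ t ∈ Icc (0 : ℝ) ((N : ℝ) + 1), ∀ n, |Y N n t| ≤ M n := by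
    intro N t ht n
    rw [hM]
    rcases le_or_gt n N with hn | hn
    · have h2 := gal_energy (hY N) ht
      have h3 : 0 ≤ 2 * ν * ∫ s in (0 : ℝ)..t, ∑ n ∈ Finset.range (N + 1), 4 ^ n * Y N n s ^ 2 :=
        mul_nonneg (by positivity) (intervalIntegral.integral_nonneg ht.1 fun s _ =>
          Finset.sum_nonneg fun n _ => by positivity)
      have h4 : Y N n t ^ 2 ≤ ∑ k ∈ Finset.range (N + 1), Y N k t ^ 2 :=
        Finset.single_le_sum (f := fun k => Y N k t ^ 2) (fun k _ => sq_nonneg _)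
          (Finset.mem_range.2 (Nat.lt_succ_of_le hn))
      have h5 := hx2.sum_le_tsum (Finset.range (N + 1)) fun n _ => sq_nonneg _
      apply Real.abs_le_sqrt
      linarith
    · rw [(hY N).zero n hn t, abs_zero]
      exact Real.sqrt_nonneg _
  set U : Ultrafilter ℕ := hyperfilter ℕ with hU
  have hUle : (U : Filter ℕ) ≤ atTop := Nat.hyperfilter_le_atTop
  have hev : ∀ t : ℝ, 0 ≤ t → ∀ᶠ N : ℕ in U, t ∈ Icc (0 : ℝ) ((N : ℝ) + 1) := by
    intro t ht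
    have h1 : ∀ᶠ N : ℕ in atTop, t ≤ (N : ℝ) := eventually_ge_atTop ⌈t⌉₊ |>.mono fun N hN =>
      (Nat.le_ceil t).trans (by exact_mod_cast hN)
    have h2 : ∀ᶠ N : ℕ in U, t ≤ (N : ℝ) := hUle h1
    exact h2.mono fun N hN => ⟨ht, by linarith⟩
  have hlim : ∀ (n : ℕ) (t : ℝ), ∃ l : ℝ, 0 ≤ t → Tendsto (fun N => Y N n t) U (𝓝 l) := by
    intro n t
    by_cases ht : 0 ≤ t
    · have h1 : Icc (-M n) (M n) ∈ U.map fun N => Y N n t := by
        rw [Ultrafilter.mem_map]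
        filter_upwards [hev t ht] with N hN
        exact abs_le.1 (hYa N t hN n)
      obtain ⟨l, -, hl⟩ := isCompact_Icc.ultrafilter_le_nhds (U.map fun N => Y N n t)
        (le_principal_iff.2 h1)
      exact ⟨l, fun _ => hl⟩
    · exact ⟨0, fun h => absurd h ht⟩
  choose X hX using hlim
  have hrhs : ∀ (n : ℕ) (t : ℝ), 0 ≤ t →
      Tendsto (fun N => rhs β ν (fun k => Y N k t) n) U (𝓝 (rhs β ν (fun k => X k t) n)) := by
    intro n t ht
    cases n with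
    | zero =>
      simp only [rhs]
      exact (((hX 0 t ht).mul (hX 1 t ht)).neg).sub ((hX 0 t ht).const_mul ν)
    | succ n =>
      simp only [rhs]
      exact ((((hX n t ht).pow 2).const_mul _).sub
        (((hX (n + 1) t ht).mul (hX (n + 2) t ht)).const_mul _)).sub
        ((hX (n + 1) t ht).const_mul _)
  have htay : ∀ (n : ℕ) (t : ℝ), 0 ≤ t → ∀ r : ℝ, 0 ≤ r →
      |X n r - X n t - (r - t) * rhs β ν (fun k => X k t) n|
        ≤ Lb β ν M (Rb β ν M) n * |r - t| ^ 2 := by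
    intro n t ht r hr
    have h1 : Tendsto (fun N => |Y N n r - Y N n t - (r - t) * rhs β ν (fun k => Y N k t) n|) U
        (𝓝 |X n r - X n t - (r - t) * rhs β ν (fun k => X k t) n|) :=
      (((hX n r hr).sub (hX n t ht)).sub ((hrhs n t ht).const_mul _)).abs
    refine le_of_tendsto h1 ?_
    have h2 : ∀ᶠ N : ℕ in U, n + 1 ≤ N := hUle (eventually_ge_atTop (n + 1))
    filter_upwards [hev t ht, hev r hr, h2] with N hN1 hN2 hN3
    exact gal_taylor hν (hY N) (hYa N) hN3 hN1 hN2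
  have hd : ∀ (n : ℕ) (t : ℝ), 0 ≤ t →
      HasDerivWithinAt (X n) (rhs β ν (fun k => X k t) n) (Ici 0) t := fun n t ht =>
    hd_of_sq fun r hr => htay n t ht r hr
  have hdy : IsDy β ν x X := by
    refine ⟨?_, ?_, ?_⟩
    · intro n
      refine tendsto_nhds_unique (hX n 0 le_rfl) ?_
      refine tendsto_const_nhds.congr' ?_
      have h2 : ∀ᶠ N : ℕ in U, n ≤ N := hUle (eventually_ge_atTop n)
      filter_upwards [h2] with N hN
      exact ((hY N).init n hN).symm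
    · exact fun n t ht => (hd n t ht).continuousWithinAt
    · exact fun n t ht => (hd n t ht.le).hasDerivAt (Ici_mem_nhds ht)
  -- the common Lipschitz constants
  have hRb0 : ∀ n, 0 ≤ Rb β ν M n := fun n =>
    (abs_nonneg _).trans (rhs_bd hν (hYa 0 0 ⟨le_rfl, by positivity⟩) n)
  have hYL : ∀ N n : ℕ, n ≤ N → ∀ a ∈ Icc (0 : ℝ) ((N : ℝ) + 1), ∀ b ∈ Icc (0 : ℝ) ((N : ℝ) + 1),
      |Y N n a - Y N n b| ≤ Rb β ν M n * |a - b| := by
    intro N n hn a ha b hb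
    have := Convex.norm_image_sub_le_of_norm_hasDerivWithin_le (f := Y N n)
      (f' := fun t => rhs β ν (fun k => Y N k t) n) (C := Rb β ν M n)
      (s := Icc (0 : ℝ) ((N : ℝ) + 1)) (x := b) (y := a)
      (fun t ht => (hY N).ode n hn t ht) (fun t ht => rhs_bd hν (hYa N t ht) n) (convex_Icc _ _)
      hb ha
    rwa [Real.norm_eq_abs, Real.norm_eq_abs] at this
  have hXL : ∀ n : ℕ, ∀ a, 0 ≤ a → ∀ b, 0 ≤ b → |X n a - X n b| ≤ Rb β ν M n * |a - b| := by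
    intro n a ha b hb
    have h1 : Tendsto (fun N => |Y N n a - Y N n b|) U (𝓝 |X n a - X n b|) :=
      ((hX n a ha).sub (hX n b hb)).abs
    refine le_of_tendsto h1 ?_
    have h2 : ∀ᶠ N : ℕ in U, n ≤ N := hUle (eventually_ge_atTop n)
    filter_upwards [hev a ha, hev b hb, h2] with N hN1 hN2 hN3
    exact hYL N n hN3 a hN1 b hN2
  -- the subsequence
  have hfreq : ∀ k : ℕ, ∃ᶠ N in atTop, (∀ n ≤ k, ∀ i ≤ (k + 1) ^ 2,
      |Y N n ((i : ℝ) / (k + 1)) - X n ((i : ℝ) / (k + 1))| < 1 / ((k : ℝ) + 1)) ∧ k + 1 ≤ N := by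
    intro k
    have h1 : ∀ᶠ N : ℕ in U, (∀ n ∈ Finset.range (k + 1), ∀ i ∈ Finset.range ((k + 1) ^ 2 + 1),
        |Y N n ((i : ℝ) / (k + 1)) - X n ((i : ℝ) / (k + 1))| < 1 / ((k : ℝ) + 1)) := by
      rw [Filter.eventually_all_finset]
      intro n _
      rw [Filter.eventually_all_finset]
      intro i _
      have h2 := hX n ((i : ℝ) / (k + 1)) (by positivity)
      rw [Metric.tendsto_nhds] at h2
      have h3 := h2 (1 / ((k : ℝ) + 1)) (by positivity)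
      filter_upwards [h3] with N hN
      rwa [Real.dist_eq] at hN
    have h2 : ∀ᶠ N : ℕ in U, k + 1 ≤ N := hUle (eventually_ge_atTop (k + 1))
    have h3 := (h1.and h2).frequently
    refine (h3.filter_mono hUle).mono fun N hN => ⟨fun n hn i hi => ?_, hN.2⟩
    exact hN.1 n (Finset.mem_range.2 (by omega)) i (Finset.mem_range.2 (by omega))
  obtain ⟨φ, hφ, hφP⟩ := extraction_forall_of_frequently hfreq
  refine ⟨X, Y, φ, hdy, hφ, hY, fun n t ht => ?_⟩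
  rw [Metric.tendsto_atTop]
  intro ε hε
  obtain ⟨k₁, hk₁⟩ := exists_nat_gt ((2 * Rb β ν M n + 1) / ε)
  obtain ⟨k₂, hk₂⟩ := exists_nat_gt t
  refine ⟨max n (max k₁ k₂), fun k hk => ?_⟩
  have hkn : n ≤ k := (le_max_left _ _).trans hk
  have hkk₁ : k₁ ≤ k := ((le_max_left _ _).trans (le_max_right _ _)).trans hk
  have hkk₂ : k₂ ≤ k := ((le_max_right _ _).trans (le_max_right _ _)).trans hk
  have hk1 : (0 : ℝ) < (k : ℝ) + 1 := by positivity
  have htk : t ≤ (k : ℝ) + 1 := by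
    have : (k₂ : ℝ) ≤ k := by exact_mod_cast hkk₂
    linarith
  obtain ⟨i, hi⟩ : ∃ i, i = ⌊t * (k + 1)⌋₊ := ⟨_, rfl⟩
  have hi1 : (i : ℝ) ≤ t * (k + 1) := by
    rw [hi]
    exact Nat.floor_le (by positivity)
  have hi2 : t * (k + 1) < (i : ℝ) + 1 := by
    rw [hi]
    exact Nat.lt_floor_add_one _
  have hi3 : i ≤ (k + 1) ^ 2 := by
    have h1 : (i : ℝ) ≤ ((k : ℝ) + 1) ^ 2 := by nlinarith
    exact_mod_cast h1
  have hd1 : |t - (i : ℝ) / (k + 1)| ≤ 1 / ((k : ℝ) + 1) := by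
    rw [abs_le]
    constructor
    · have h1 : (i : ℝ) / (k + 1) ≤ t := by
        rw [div_le_iff₀ hk1]
        exact hi1
      have h2 : 0 ≤ 1 / ((k : ℝ) + 1) := by positivity
      linarith
    · rw [sub_le_iff_le_add, ← add_div, le_div_iff₀ hk1]
      linarith
  obtain ⟨hP1, hP2⟩ := hφP k
  have hφk : k + 1 ≤ φ k := hP2
  have hφk' : (k : ℝ) + 1 ≤ (φ k : ℝ) := by exact_mod_cast hφk
  have hiI : (i : ℝ) / (k + 1) ∈ Icc (0 : ℝ) ((φ k : ℝ) + 1) := by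
    refine ⟨by positivity, ?_⟩
    have h1 : (i : ℝ) / (k + 1) ≤ t := by
      rw [div_le_iff₀ hk1]
      exact hi1
    linarith
  have htI : t ∈ Icc (0 : ℝ) ((φ k : ℝ) + 1) := ⟨ht, by linarith⟩
  have h1 := hYL (φ k) n (by omega) t htI _ hiI
  have h2 := hXL n _ hiI.1 t ht
  have h3 := hP1 n hkn i hi3
  have h4 : Rb β ν M n * |t - (i : ℝ) / (k + 1)| ≤ Rb β ν M n * (1 / ((k : ℝ) + 1)) :=
    mul_le_mul_of_nonneg_left hd1 (hRb0 n)
  rw [abs_sub_comm ((i : ℝ) / (k + 1)) t] at h2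
  rw [Real.dist_eq]
  have h5 : Y (φ k) n t - X n t = (Y (φ k) n t - Y (φ k) n ((i : ℝ) / (k + 1)))
      + (Y (φ k) n ((i : ℝ) / (k + 1)) - X n ((i : ℝ) / (k + 1)))
      + (X n ((i : ℝ) / (k + 1)) - X n t) := by ring
  rw [h5]
  have h6 : (2 * Rb β ν M n + 1) * (1 / ((k : ℝ) + 1)) < ε := by
    have h7 : (k₁ : ℝ) ≤ k := by exact_mod_cast hkk₁
    rw [div_lt_iff₀ hε] at hk₁
    rw [mul_one_div, div_lt_iff₀ hk1]
    nlinarith
  calc |(Y (φ k) n t - Y (φ k) n ((i : ℝ) / (k + 1)))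
      + (Y (φ k) n ((i : ℝ) / (k + 1)) - X n ((i : ℝ) / (k + 1)))
      + (X n ((i : ℝ) / (k + 1)) - X n t)|
      ≤ |Y (φ k) n t - Y (φ k) n ((i : ℝ) / (k + 1))|
        + |Y (φ k) n ((i : ℝ) / (k + 1)) - X n ((i : ℝ) / (k + 1))|
        + |X n ((i : ℝ) / (k + 1)) - X n t| :=
        (abs_add_le _ _).trans (add_le_add (abs_add_le _ _) le_rfl)
    _ < ε := by linarith

theorem stmE : StmE := by
  intro β ν s C x hν hs0 hs hb
  have hpos : ∀ n : ℕ, (0 : ℝ) < 2 ^ (s * n) := fun n => Real.rpow_pos_of_pos two_pos _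
  obtain ⟨q, hq⟩ : ∃ q : ℝ, q = 2 ^ s := ⟨_, rfl⟩
  have hq1 : 1 < q := by rw [hq]; exact Real.one_lt_rpow (by norm_num) hs0
  have hx : ∀ n : ℕ, (2 : ℝ) ^ (s * n) * |x n| ≤ C := by
    intro n
    obtain ⟨Y, hY⟩ := stmA β ν 1 n x hν one_pos
    have := hb 1 n Y one_pos hY 0 ⟨le_rfl, zero_le_one⟩ n
    rwa [hY.init n le_rfl] at this
  have hx2 : Summable fun n => x n ^ 2 := by
    have hr1 : (q⁻¹) ^ 2 < 1 := pow_lt_one₀ (by positivity) (inv_lt_one_of_one_lt₀ hq1) two_ne_zero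
    refine Summable.of_nonneg_of_le (fun n => sq_nonneg _) (fun n => ?_)
      ((summable_geometric_of_lt_one (by positivity) hr1).mul_left (C ^ 2))
    have h1 : |x n| ≤ C / q ^ n := by
      have h2 := hx n
      rw [pow_mul_nat, ← hq] at h2
      rw [le_div_iff₀ (by positivity), mul_comm]
      exact h2
    calc x n ^ 2 = |x n| ^ 2 := (sq_abs _).symm
      _ ≤ (C / q ^ n) ^ 2 := pow_le_pow_left₀ (abs_nonneg _) h1 2
      _ = C ^ 2 * ((q⁻¹) ^ 2) ^ n := by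
          rw [div_pow, ← pow_mul, ← pow_mul, inv_pow, div_eq_mul_inv, mul_comm n 2]
  obtain ⟨X, Y, φ, hX, hφ, hY, hlim⟩ := exist_sub (β := β) hν hx2
  refine ⟨X, hX, fun n t ht => ?_⟩
  have h1 : Tendsto (fun k => (2 : ℝ) ^ (s * n) * |Y (φ k) n t|) atTop
      (𝓝 ((2 : ℝ) ^ (s * n) * |X n t|)) := ((hlim n t ht).abs).const_mul _
  refine le_of_tendsto h1 ?_
  filter_upwards [eventually_ge_atTop ⌈t⌉₊] with k hk
  have h2 : k ≤ φ k := hφ.id_le k
  have h3 : t ≤ (φ k : ℝ) + 1 := by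
    have h4 : (⌈t⌉₊ : ℝ) ≤ φ k := by exact_mod_cast hk.trans h2
    have h5 := Nat.le_ceil t
    linarith
  exact hb ((φ k : ℝ) + 1) (φ k) (Y (φ k)) (by positivity) (hY (φ k)) t ⟨ht, h3⟩ n

end Run7.h969.Dz
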