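import Pool.Agent.Run7.h969.Dz.Exist

/-!
The dyadic model for real data: Leray-Hopf solutions (helper969).
-/

set_option autoImplicit false

open Set Filter Topology MeasureTheory
open scoped ENNReal

namespace Run7.h969.Dz

open Run7.h969.Dy

/-- Existence of Leray-Hopf solutions, with the truncated solutions which converge to them. -/
theorem exist_lh_sub {β ν : ℝ} {x : ℕ → ℝ} (hν : 0 < ν) (hx2 : Summable fun n => x n ^ 2) :
    ∃ (X : ℕ → ℝ → ℝ) (Y : ℕ → ℕ → ℝ → ℝ) (φ : ℕ → ℕ), LH β ν x X ∧ StrictMono φ ∧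
      (∀ N : ℕ, Gal β ν ((N : ℝ) + 1) N x (Y N)) ∧
      ∀ n t, 0 ≤ t → Tendsto (fun k => Y (φ k) n t) atTop (𝓝 (X n t)) := by
  obtain ⟨X, Y, φ, hX, hφ, hY, hlim⟩ := exist_sub (β := β) hν hx2
  obtain ⟨E, hE⟩ : ∃ E, E = ∑' n, x n ^ 2 := ⟨_, rfl⟩
  have hE0 : 0 ≤ E := by rw [hE]; exact tsum_nonneg fun n => sq_nonneg _
  have hφk : ∀ k, k ≤ φ k := fun k => hφ.id_le k
  have hev : ∀ t : ℝ, 0 ≤ t → ∀ᶠ k : ℕ in atTop, t ≤ (φ k : ℝ) + 1 := by
    intro t _
    filter_upwards [eventually_ge_atTop ⌈t⌉₊] with k hk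
    have h4 : (⌈t⌉₊ : ℝ) ≤ φ k := by exact_mod_cast hk.trans (hφk k)
    have h5 := Nat.le_ceil t
    linarith
  -- the energy of the truncated solutions
  have hen : ∀ k : ℕ, ∀ t, 0 ≤ t → t ≤ (φ k : ℝ) + 1 →
      ∑ n ∈ Finset.range (φ k + 1), Y (φ k) n t ^ 2 ≤ E := by
    intro k t ht0 ht1
    have h1 := gal_energy (hY (φ k)) ⟨ht0, ht1⟩
    have h2 : 0 ≤ 2 * ν * ∫ s in (0 : ℝ)..t, ∑ n ∈ Finset.range (φ k + 1),
        4 ^ n * Y (φ k) n s ^ 2 :=
      mul_nonneg (by positivity) (intervalIntegral.integral_nonneg ht0 fun s _ =>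
        Finset.sum_nonneg fun n _ => by positivity)
    have h3 := hx2.sum_le_tsum (Finset.range (φ k + 1)) fun n _ => sq_nonneg _
    rw [hE]
    linarith
  have hsumlim : ∀ (t : ℝ), 0 ≤ t → ∀ L : ℕ, Tendsto
      (fun k => ∑ n ∈ Finset.range L, Y (φ k) n t ^ 2) atTop
      (𝓝 (∑ n ∈ Finset.range L, X n t ^ 2)) := fun t ht L =>
    tendsto_finsetSum _ fun n _ => (hlim n t ht).pow 2
  have hXE : ∀ t, 0 ≤ t → ∀ L : ℕ, ∑ n ∈ Finset.range L, X n t ^ 2 ≤ E := by
    intro t ht L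
    refine le_of_tendsto (hsumlim t ht L) ?_
    filter_upwards [hev t ht, eventually_ge_atTop L] with k hk hkL
    refine le_trans ?_ (hen k t ht hk)
    exact Finset.sum_le_sum_of_subset_of_nonneg (Finset.range_mono (by have := hφk k; omega))
      fun n _ _ => sq_nonneg _
  have hXs : ∀ t, 0 ≤ t → Summable fun n => X n t ^ 2 := fun t ht =>
    summable_of_sum_range_le (fun n => sq_nonneg _) (hXE t ht)
  -- the limit of the left hand side
  have hLlim : ∀ s t : ℝ, 0 ≤ s → s ≤ t → ∀ L : ℕ, Tendsto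
      (fun k => ∑ n ∈ Finset.range L, Y (φ k) n t ^ 2
        + 2 * ν * ∫ r in s..t, ∑ n ∈ Finset.range L, 4 ^ n * Y (φ k) n r ^ 2) atTop
      (𝓝 (∑ n ∈ Finset.range L, X n t ^ 2
        + 2 * ν * ∫ r in s..t, ∑ n ∈ Finset.range L, 4 ^ n * X n r ^ 2)) := by
    intro s t hs hst L
    refine (hsumlim t (hs.trans hst) L).add (Tendsto.const_mul _ ?_)
    refine intervalIntegral.tendsto_integral_filter_of_dominated_convergence
      (fun _ => 4 ^ L * E) ?_ ?_ intervalIntegrable_const ?_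
    · filter_upwards [hev t (hs.trans hst)] with k hk
      rw [uIoc_of_le hst]
      have h1 : ContinuousOn (fun r => ∑ n ∈ Finset.range L, (4 : ℝ) ^ n * Y (φ k) n r ^ 2)
          (Ioc s t) :=
        (continuousOn_finsetSum _ fun n _ => continuousOn_const.mul
          ((Run7.h969.Dy.gal_cont (hY (φ k)) n).pow 2)).mono fun r hr =>
          ⟨hs.trans hr.1.le, hr.2.trans hk⟩
      exact h1.aestronglyMeasurable measurableSet_Ioc
    · filter_upwards [hev t (hs.trans hst), eventually_ge_atTop L] with k hk hkL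
      refine Eventually.of_forall fun r hr => ?_
      rw [uIoc_of_le hst] at hr
      rw [Real.norm_eq_abs, abs_of_nonneg (Finset.sum_nonneg fun n _ => by positivity)]
      calc ∑ n ∈ Finset.range L, (4 : ℝ) ^ n * Y (φ k) n r ^ 2
          ≤ ∑ n ∈ Finset.range L, (4 : ℝ) ^ L * Y (φ k) n r ^ 2 :=
            Finset.sum_le_sum fun n hn => mul_le_mul_of_nonneg_right
              (pow_le_pow_right₀ (by norm_num) (Finset.mem_range.1 hn).le) (sq_nonneg _)
        _ = 4 ^ L * ∑ n ∈ Finset.range L, Y (φ k) n r ^ 2 := by rw [Finset.mul_sum]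
        _ ≤ 4 ^ L * ∑ n ∈ Finset.range (φ k + 1), Y (φ k) n r ^ 2 := by
            apply mul_le_mul_of_nonneg_left _ (by positivity)
            exact Finset.sum_le_sum_of_subset_of_nonneg
              (Finset.range_mono (by have := hφk k; omega)) fun n _ _ => sq_nonneg _
        _ ≤ 4 ^ L * E := mul_le_mul_of_nonneg_left
            (hen k r (hs.trans hr.1.le) (hr.2.trans hk)) (by positivity)
    · refine Eventually.of_forall fun r hr => ?_
      rw [uIoc_of_le hst] at hr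
      exact tendsto_finsetSum _ fun n _ => ((hlim n r (hs.trans hr.1.le)).pow 2).const_mul _
  -- the inequality of the truncated solutions
  have hLle : ∀ s t : ℝ, 0 ≤ s → s ≤ t → ∀ L : ℕ, ∀ᶠ k in atTop,
      ∑ n ∈ Finset.range L, Y (φ k) n t ^ 2
        + 2 * ν * ∫ r in s..t, ∑ n ∈ Finset.range L, 4 ^ n * Y (φ k) n r ^ 2
      ≤ ∑ n ∈ Finset.range (φ k + 1), Y (φ k) n s ^ 2 := by
    intro s t hs hst L
    filter_upwards [hev t (hs.trans hst), eventually_ge_atTop L] with k hk hkL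
    have h1 := gal_energy2 (hY (φ k)) ⟨hs, hst.trans hk⟩ ⟨hs.trans hst, hk⟩
    have hsub : Finset.range L ⊆ Finset.range (φ k + 1) :=
      Finset.range_mono (by have := hφk k; omega)
    have h2 : ∑ n ∈ Finset.range L, Y (φ k) n t ^ 2
        ≤ ∑ n ∈ Finset.range (φ k + 1), Y (φ k) n t ^ 2 :=
      Finset.sum_le_sum_of_subset_of_nonneg hsub fun n _ _ => sq_nonneg _
    have hii : ∀ M : ℕ, IntervalIntegrable (fun r => ∑ n ∈ Finset.range M,
        (4 : ℝ) ^ n * Y (φ k) n r ^ 2) volume s t := by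
      intro M
      refine ContinuousOn.intervalIntegrable ?_
      rw [uIcc_of_le hst]
      exact (continuousOn_finsetSum _ fun n _ => continuousOn_const.mul
          ((Run7.h969.Dy.gal_cont (hY (φ k)) n).pow 2)).mono fun r hr =>
          ⟨hs.trans hr.1, hr.2.trans hk⟩
    have h3 : ∫ r in s..t, ∑ n ∈ Finset.range L, (4 : ℝ) ^ n * Y (φ k) n r ^ 2
        ≤ ∫ r in s..t, ∑ n ∈ Finset.range (φ k + 1), (4 : ℝ) ^ n * Y (φ k) n r ^ 2 :=
      intervalIntegral.integral_mono_on hst (hii _) (hii _) fun r _ =>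
        Finset.sum_le_sum_of_subset_of_nonneg hsub fun n _ _ => by positivity
    have h4 := mul_le_mul_of_nonneg_left h3 (by positivity : 0 ≤ 2 * ν)
    linarith
  refine ⟨X, Y, φ, ⟨hX, ⟨hXs 0 le_rfl, fun t ht L => ?_⟩, ?_⟩, hφ, hY, hlim⟩
  · -- from the time zero
    have h0 : ∑' n, X n 0 ^ 2 = E := by
      rw [hE]
      exact tsum_congr fun n => by rw [hX.init]
    rw [h0]
    refine le_of_tendsto (hLlim 0 t le_rfl ht L) ?_
    filter_upwards [hLle 0 t le_rfl ht L] with k hk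
    exact hk.trans (hen k 0 le_rfl (by positivity))
  · -- from almost every time
    -- the tails, extended to the line
    obtain ⟨c, hc⟩ : ∃ c : ℕ → ℝ → ℝ, c = fun k s => max 0 (min s ((φ k : ℝ) + 1)) := ⟨_, rfl⟩
    have hcc : ∀ k, Continuous (c k) := fun k => by
      rw [hc]
      exact continuous_const.max (continuous_id.min continuous_const)
    have hcI : ∀ k s, c k s ∈ Icc (0 : ℝ) ((φ k : ℝ) + 1) := fun k s => by
      rw [hc]
      exact ⟨le_max_left _ _, max_le (by positivity) (min_le_right _ _)⟩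
    have hcid : ∀ k s, 0 ≤ s → s ≤ (φ k : ℝ) + 1 → c k s = s := fun k s h1 h2 => by
      rw [hc]
      simp only
      rw [min_eq_left h2, max_eq_right h1]
    obtain ⟨τ, hτ⟩ : ∃ τ : ℕ → ℕ → ℝ → ℝ, τ = fun M k s =>
      ∑ n ∈ Finset.range (φ k + 1), Y (φ k) n s ^ 2 - ∑ n ∈ Finset.range M, Y (φ k) n s ^ 2 :=
      ⟨_, rfl⟩
    obtain ⟨F, hF⟩ : ∃ F : ℕ → ℕ → ℝ → ℝ≥0∞, F = fun M k s => ENNReal.ofReal (τ M k (c k s)) :=
      ⟨_, rfl⟩
    have hFm : ∀ M k, Measurable (F M k) := by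
      intro M k
      rw [hF]
      apply ENNReal.measurable_ofReal.comp
      apply Continuous.measurable
      rw [hτ]
      have h1 : ∀ n, Continuous fun s => Y (φ k) n (c k s) := fun n =>
        (Run7.h969.Dy.gal_cont (hY (φ k)) n).comp_continuous (hcc k) (hcI k)
      exact (continuous_finsetSum _ fun n _ => (h1 n).pow 2).sub
        (continuous_finsetSum _ fun n _ => (h1 n).pow 2)
    have hFint : ∀ (T : ℕ) (M : ℕ), ∀ᶠ k in atTop,
        ∫⁻ s in Ioc (0 : ℝ) T, F M k s ≤ ENNReal.ofReal (E / (2 * ν) / 4 ^ M) := by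
      intro T M
      filter_upwards [hev T (Nat.cast_nonneg T), eventually_ge_atTop M] with k hk hkM
      have hT0 : (0 : ℝ) ≤ T := Nat.cast_nonneg T
      have hMk : M ≤ φ k + 1 := by have := hφk k; omega
      have hcn : ∀ n, ContinuousOn (Y (φ k) n) (Icc (0 : ℝ) T) := fun n =>
        (Run7.h969.Dy.gal_cont (hY (φ k)) n).mono (Icc_subset_Icc_right hk)
      have hτc : ContinuousOn (τ M k) (Icc (0 : ℝ) T) := by
        rw [hτ]
        exact (continuousOn_finsetSum _ fun n _ => (hcn n).pow 2).sub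
          (continuousOn_finsetSum _ fun n _ => (hcn n).pow 2)
      have hτ0 : ∀ s, 0 ≤ τ M k s := by
        intro s
        rw [hτ]
        simp only
        rw [sub_nonneg]
        exact Finset.sum_le_sum_of_subset_of_nonneg (Finset.range_mono hMk)
          fun n _ _ => sq_nonneg _
      have e1 : ∫⁻ s in Ioc (0 : ℝ) T, F M k s = ∫⁻ s in Ioc (0 : ℝ) T, ENNReal.ofReal (τ M k s) := by
        refine setLIntegral_congr_fun measurableSet_Ioc fun s hs => ?_
        rw [hF]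
        simp only
        rw [hcid k s hs.1.le (hs.2.trans hk)]
      rw [e1, ← ofReal_integral_eq_lintegral_ofReal
        ((hτc.integrableOn_Icc).mono_set Ioc_subset_Icc_self)
        (Eventually.of_forall fun s => hτ0 s)]
      apply ENNReal.ofReal_le_ofReal
      rw [← intervalIntegral.integral_of_le hT0]
      have e2 : ∀ s ∈ Icc (0 : ℝ) T, τ M k s
          ≤ (1 / 4 ^ M) * ∑ n ∈ Finset.range (φ k + 1), (4 : ℝ) ^ n * Y (φ k) n s ^ 2 := by
        intro s _
        have e3 : τ M k s = ∑ n ∈ Finset.Ico M (φ k + 1), Y (φ k) n s ^ 2 := by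
          rw [hτ]
          simp only
          rw [Finset.sum_Ico_eq_sub _ hMk]
        have e4 : ∑ n ∈ Finset.Ico M (φ k + 1), (4 : ℝ) ^ M * Y (φ k) n s ^ 2
            ≤ ∑ n ∈ Finset.range (φ k + 1), (4 : ℝ) ^ n * Y (φ k) n s ^ 2 := by
          calc ∑ n ∈ Finset.Ico M (φ k + 1), (4 : ℝ) ^ M * Y (φ k) n s ^ 2
              ≤ ∑ n ∈ Finset.Ico M (φ k + 1), (4 : ℝ) ^ n * Y (φ k) n s ^ 2 :=
                Finset.sum_le_sum fun n hn => mul_le_mul_of_nonneg_right
                  (pow_le_pow_right₀ (by norm_num) (Finset.mem_Ico.1 hn).1) (sq_nonneg _)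
            _ ≤ _ := by
                refine Finset.sum_le_sum_of_subset_of_nonneg (fun n hn => ?_)
                  fun n _ _ => by positivity
                exact Finset.mem_range.2 (Finset.mem_Ico.1 hn).2
        rw [← Finset.mul_sum, ← e3] at e4
        rw [div_mul_eq_mul_div, le_div_iff₀ (by positivity)]
        linarith
      have hi1 : IntervalIntegrable (τ M k) volume 0 T := by
        refine ContinuousOn.intervalIntegrable ?_
        rw [uIcc_of_le hT0]
        exact hτc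
      have hi2 : IntervalIntegrable (fun s => ∑ n ∈ Finset.range (φ k + 1),
          (4 : ℝ) ^ n * Y (φ k) n s ^ 2) volume 0 T := by
        refine ContinuousOn.intervalIntegrable ?_
        rw [uIcc_of_le hT0]
        exact continuousOn_finsetSum _ fun n _ => continuousOn_const.mul ((hcn n).pow 2)
      have h1 := intervalIntegral.integral_mono_on hT0 hi1 (hi2.const_mul _) e2
      rw [intervalIntegral.integral_const_mul] at h1
      refine h1.trans ?_
      have h2 := gal_energy (hY (φ k)) ⟨hT0, hk⟩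
      have h3 := hx2.sum_le_tsum (Finset.range (φ k + 1)) fun n _ => sq_nonneg _
      have h4 : 0 ≤ ∑ n ∈ Finset.range (φ k + 1), Y (φ k) n T ^ 2 :=
        Finset.sum_nonneg fun n _ => sq_nonneg _
      have h5 : ∫ s in (0 : ℝ)..T, ∑ n ∈ Finset.range (φ k + 1), (4 : ℝ) ^ n * Y (φ k) n s ^ 2
          ≤ E / (2 * ν) := by
        rw [le_div_iff₀ (by positivity), hE]
        linarith
      have h6 := mul_le_mul_of_nonneg_left h5 (by positivity : (0 : ℝ) ≤ 1 / 4 ^ M)
      calc (1 / 4 ^ M) * ∫ s in (0 : ℝ)..T, ∑ n ∈ Finset.range (φ k + 1),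
            (4 : ℝ) ^ n * Y (φ k) n s ^ 2 ≤ 1 / 4 ^ M * (E / (2 * ν)) := h6
        _ = _ := by ring
    obtain ⟨g, hg⟩ : ∃ g : ℕ → ℝ → ℝ≥0∞, g = fun M s => liminf (fun k => F M k s) atTop := ⟨_, rfl⟩
    have hgm : ∀ M, Measurable (g M) := fun M => by
      rw [hg]
      exact Measurable.liminf (hFm M)
    have hgint : ∀ (T M : ℕ), ∫⁻ s in Ioc (0 : ℝ) T, g M s ≤ ENNReal.ofReal (E / (2 * ν) / 4 ^ M) := by
      intro T M
      rw [hg]
      refine (lintegral_liminf_le (hFm M)).trans ?_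
      exact liminf_le_of_frequently_le' (hFint T M).frequently
    have hinf : ∀ T : ℕ, ∀ᵐ s ∂(volume.restrict (Ioc (0 : ℝ) T)), ⨅ M, g M s = 0 := by
      intro T
      have h1 : ∫⁻ s in Ioc (0 : ℝ) T, ⨅ M, g M s = 0 := by
        have h2 : ∀ M : ℕ, ∫⁻ s in Ioc (0 : ℝ) T, ⨅ M, g M s
            ≤ ENNReal.ofReal (E / (2 * ν) / 4 ^ M) := fun M =>
          (lintegral_mono fun s => iInf_le _ M).trans (hgint T M)
        have h3 : Tendsto (fun M : ℕ => ENNReal.ofReal (E / (2 * ν) / 4 ^ M)) atTop (𝓝 0) := by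
          rw [← ENNReal.ofReal_zero]
          apply ENNReal.tendsto_ofReal
          have h4 : Tendsto (fun M : ℕ => (4 : ℝ) ^ M) atTop atTop :=
            tendsto_pow_atTop_atTop_of_one_lt (by norm_num)
          exact h4.const_div_atTop _
        exact le_antisymm (ge_of_tendsto' h3 h2) bot_le
      have h2 := (lintegral_eq_zero_iff (Measurable.iInf hgm)).1 h1
      exact h2
    have hinf' : ∀ᵐ s : ℝ, 0 < s → ⨅ M, g M s = 0 := by
      have h1 : ∀ T : ℕ, ∀ᵐ s : ℝ, s ∈ Ioc (0 : ℝ) T → ⨅ M, g M s = 0 := fun T =>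
        (ae_restrict_iff' measurableSet_Ioc).1 (hinf T)
      filter_upwards [ae_all_iff.2 h1] with s hs hs0
      obtain ⟨T, hT⟩ := exists_nat_ge s
      exact hs T ⟨hs0, hT⟩
    filter_upwards [hinf'] with s hs hs0
    have hs' := hs hs0
    refine ⟨hXs s hs0.le, fun t ht L => ?_⟩
    refine le_of_forall_pos_le_add fun ε hε => ?_
    have h1 : ⨅ M, g M s < ENNReal.ofReal ε := by
      rw [hs']
      exact ENNReal.ofReal_pos.2 hε
    obtain ⟨M, hM⟩ := iInf_lt_iff.1 h1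
    rw [hg] at hM
    simp only at hM
    have h2 : ∃ᶠ k in atTop, F M k s < ENNReal.ofReal ε := frequently_lt_of_liminf_lt (by isBoundedDefault) hM
    have h3 : ∃ᶠ k in atTop, ∑ n ∈ Finset.range L, Y (φ k) n t ^ 2
        + 2 * ν * (∫ r in s..t, ∑ n ∈ Finset.range L, 4 ^ n * Y (φ k) n r ^ 2)
        - ∑ n ∈ Finset.range M, Y (φ k) n s ^ 2 ≤ ε := by
      refine (h2.and_eventually ((hLle s t hs0.le ht L).and (hev s hs0.le))).mono ?_
      rintro k ⟨h4, h5, h6⟩
      rw [hF] at h4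
      simp only at h4
      rw [hcid k s hs0.le h6] at h4
      have h7 : τ M k s < ε := by
        by_contra h
        exact absurd h4 (not_lt.2 (ENNReal.ofReal_le_ofReal (not_lt.1 h)))
      rw [hτ] at h7
      simp only at h7
      linarith
    have h4 := le_of_tendsto_of_frequently
      ((hLlim s t hs0.le ht L).sub (hsumlim s hs0.le M)) h3
    have h5 := (hXs s hs0.le).sum_le_tsum (Finset.range M) fun n _ => sq_nonneg _
    linarith

/-- Existence of Leray-Hopf solutions. -/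
theorem exist_lh {β ν : ℝ} {x : ℕ → ℝ} (hν : 0 < ν) (hx2 : Summable fun n => x n ^ 2) :
    ∃ X : ℕ → ℝ → ℝ, LH β ν x X := by
  obtain ⟨X, -, -, hX, -⟩ := exist_lh_sub (β := β) hν hx2
  exact ⟨X, hX⟩

/-- Almost every time the dissipation is finite. -/
theorem diss_ae {β ν : ℝ} {x : ℕ → ℝ} {X : ℕ → ℝ → ℝ} (hν : 0 < ν) (hX : IsDy β ν x X)
    (hen : EI ν X 0) {T : ℝ} (hT : 0 ≤ T) :
    ∀ᵐ s ∂(volume.restrict (Ioc 0 T)), ∃ K : ℝ, ∀ N : ℕ,
      ∑ n ∈ Finset.range N, (4 : ℝ) ^ n * X n s ^ 2 ≤ K := by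
  obtain ⟨E, hE⟩ : ∃ E, E = ∑' n, X n 0 ^ 2 := ⟨_, rfl⟩
  have hcn : ∀ n, ContinuousOn (X n) (Icc 0 T) := fun n => (hX.cont n).mono Icc_subset_Ici_self
  have hsc : ∀ N : ℕ, ContinuousOn (fun s => ∑ n ∈ Finset.range N, (4 : ℝ) ^ n * X n s ^ 2)
      (Icc 0 T) := fun N => continuousOn_finsetSum _ fun n _ => continuousOn_const.mul ((hcn n).pow 2)
  have hm : ∀ N : ℕ, AEMeasurable (fun s => ENNReal.ofReal
      (∑ n ∈ Finset.range N, (4 : ℝ) ^ n * X n s ^ 2)) (volume.restrict (Ioc 0 T)) := fun N =>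
    ENNReal.measurable_ofReal.comp_aemeasurable
      (((hsc N).mono Ioc_subset_Icc_self).aemeasurable measurableSet_Ioc)
  have hmono : ∀ s, Monotone fun N : ℕ => ENNReal.ofReal
      (∑ n ∈ Finset.range N, (4 : ℝ) ^ n * X n s ^ 2) := fun s N M hNM =>
    ENNReal.ofReal_le_ofReal (Finset.sum_le_sum_of_subset_of_nonneg (Finset.range_mono hNM)
      fun n _ _ => by positivity)
  have hint : ∀ N : ℕ, ∫⁻ s in Ioc 0 T, ENNReal.ofReal
      (∑ n ∈ Finset.range N, (4 : ℝ) ^ n * X n s ^ 2) ≤ ENNReal.ofReal (E / (2 * ν)) := by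
    intro N
    rw [← ofReal_integral_eq_lintegral_ofReal
        (((hsc N).integrableOn_Icc).mono_set Ioc_subset_Icc_self)
        (Eventually.of_forall fun s => Finset.sum_nonneg fun n _ => by positivity)]
    apply ENNReal.ofReal_le_ofReal
    rw [← intervalIntegral.integral_of_le hT]
    have h1 := hen.2 T hT N
    have h2 : 0 ≤ ∑ n ∈ Finset.range N, X n T ^ 2 := Finset.sum_nonneg fun n _ => sq_nonneg _
    rw [le_div_iff₀ (by positivity), hE]
    linarith
  have hsup : ∫⁻ s in Ioc 0 T, ⨆ N : ℕ, ENNReal.ofReal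
      (∑ n ∈ Finset.range N, (4 : ℝ) ^ n * X n s ^ 2) ≤ ENNReal.ofReal (E / (2 * ν)) := by
    rw [lintegral_iSup' hm (Eventually.of_forall hmono)]
    exact iSup_le hint
  have hfin : ∫⁻ s in Ioc 0 T, ⨆ N : ℕ, ENNReal.ofReal
      (∑ n ∈ Finset.range N, (4 : ℝ) ^ n * X n s ^ 2) ≠ ∞ :=
    (hsup.trans_lt ENNReal.ofReal_lt_top).ne
  have hae := ae_lt_top' (AEMeasurable.iSup hm) hfin
  filter_upwards [hae] with s hs
  refine ⟨(⨆ N : ℕ, ENNReal.ofReal (∑ n ∈ Finset.range N, (4 : ℝ) ^ n * X n s ^ 2)).toReal,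
    fun N => ?_⟩
  have h2 : ENNReal.ofReal (∑ m ∈ Finset.range N, (4 : ℝ) ^ m * X m s ^ 2)
      ≤ ⨆ N : ℕ, ENNReal.ofReal (∑ m ∈ Finset.range N, (4 : ℝ) ^ m * X m s ^ 2) :=
    le_iSup (fun N : ℕ => ENNReal.ofReal
      (∑ m ∈ Finset.range N, (4 : ℝ) ^ m * X m s ^ 2)) N
  exact (ENNReal.ofReal_le_iff_le_toReal hs.ne).1 h2

/-- All the Leray-Hopf solutions are smooth. -/
theorem stmLH (hR : StmReal) : StmLH := by
  intro β ν x X hβ hν hX τ r hτ
  -- a good time
  have h1 := diss_ae hν hX.sol hX.en0 (T := τ / 2) (by positivity)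
  have h2 : ∀ᵐ s ∂(volume.restrict (Ioc 0 (τ / 2))), 0 < s → EI ν X s := ae_restrict_of_ae hX.en
  have h3 : ∀ᵐ s ∂(volume.restrict (Ioc 0 (τ / 2))), s ∈ Ioc 0 (τ / 2) :=
    ae_restrict_mem measurableSet_Ioc
  have hne : (volume.restrict (Ioc (0 : ℝ) (τ / 2))) ≠ 0 := by
    rw [Ne, Measure.restrict_eq_zero, Real.volume_Ioc]
    simp only [sub_zero, ENNReal.ofReal_eq_zero, not_le]
    positivity
  have : (ae (volume.restrict (Ioc (0 : ℝ) (τ / 2)))).NeBot := ae_neBot.2 hne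
  obtain ⟨a, ⟨K, hK'⟩, hEI, ha⟩ := ((h1.and (h2.and h3)).exists)
  have hEa := hEI ha.1
  have hK : ∀ n : ℕ, (4 : ℝ) ^ n * X n a ^ 2 ≤ K := fun n =>
    (Finset.single_le_sum (f := fun m => (4 : ℝ) ^ m * X m a ^ 2) (fun m _ => by positivity)
      (Finset.mem_range.2 (Nat.lt_succ_self n))).trans (hK' (n + 1))
  have hK0 : 0 ≤ K := by
    have := hK 0
    have h4 : 0 ≤ (4 : ℝ) ^ 0 * X 0 a ^ 2 := by positivity
    linarith
  obtain ⟨Y, hY, -, hYu, -, hYs⟩ := hR β ν 1 (fun n => X n a) hβ.le hν one_pos (by linarith)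
    ⟨√K, fun n => by
      rw [one_mul, Real.rpow_natCast]
      apply Real.le_sqrt_of_sq_le
      rw [mul_pow, sq_abs, ← pow_mul, mul_comm n 2, pow_mul]
      have := hK n
      norm_num
      exact this⟩
  have h4 := hYu _ (shift0 hX.sol ha.1.le) (ei_shift.2 hEa)
  obtain ⟨K', hK'⟩ := hYs (τ / 2) r (by positivity)
  refine ⟨K', fun n t ht => ?_⟩
  have h5 := h4 n (t - a) (by linarith [ha.2])
  rw [add_sub_cancel] at h5
  rw [h5]
  exact hK' n (t - a) (by linarith [ha.2])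

end Run7.h969.Dz
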