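import Pool.Agent.Run7.h969.Dz.WSC

/-!
The dyadic model for real data, `β ≤ 3`: all the Leray-Hopf solutions are smooth (helper969).
-/

set_option autoImplicit false

open Set Filter Topology MeasureTheory

namespace Run7.h969.Dz

open Run7.h969.Dy
open Pool.Agent.Run7.h32.Dy (rhs_bd Rb)

lemma gal_mono {β ν T T' : ℝ} {N : ℕ} {x : ℕ → ℝ} {X : ℕ → ℝ → ℝ} (h : Gal β ν T' N x X)
    (hT : T ≤ T') : Gal β ν T N x X :=
  ⟨h.init, h.zero, fun n hn t ht =>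
    (h.ode n hn t ⟨ht.1, ht.2.trans hT⟩).mono (Icc_subset_Icc_right hT)⟩

/-- Data with finite enstrophy: a solution with small tails on a short interval. -/
theorem crit_exist {β ν : ℝ} {x : ℕ → ℝ} (hβ : β ≤ 3) (hν : 0 < ν)
    (hx4 : Summable fun n : ℕ => (4 : ℝ) ^ n * x n ^ 2) :
    ∃ X : ℕ → ℝ → ℝ, LH β ν x X ∧ ∃ T > 0, ∃ n₀ : ℕ,
      (∀ n ≥ n₀, ∀ t ∈ Icc 0 T, (2 : ℝ) ^ n * |X n t| ≤ ν / 4) ∧
      ∀ t ∈ Ioc 0 T, ∃ K : ℝ, ∀ n : ℕ, (4 : ℝ) ^ n * |X n t| ≤ K := by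
  have hx2 : Summable fun n => x n ^ 2 := by
    refine hx4.of_nonneg_of_le (fun n => sq_nonneg _) fun n => ?_
    have h1 : (1 : ℝ) ≤ 4 ^ n := one_le_pow₀ (by norm_num)
    nlinarith [sq_nonneg (x n)]
  have hlim : Tendsto (fun n : ℕ => (2 : ℝ) ^ n * |x n|) atTop (𝓝 0) := by
    have h1 := hx4.tendsto_atTop_zero.sqrt
    rw [Real.sqrt_zero] at h1
    refine h1.congr fun n => ?_
    have h2 : (4 : ℝ) ^ n * x n ^ 2 = ((2 : ℝ) ^ n * |x n|) ^ 2 := by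
      rw [mul_pow, ← pow_mul, mul_comm n 2, pow_mul, sq_abs]
      norm_num
    rw [h2, Real.sqrt_sq (by positivity)]
  obtain ⟨n₀, hn₀⟩ := (hlim.eventually (gt_mem_nhds
    (show (0 : ℝ) < ν / 16 by positivity))).exists_forall_of_atTop
  obtain ⟨X, Y, φ, hX, hφ, hY, hYlim⟩ := exist_lh_sub (β := β) hν hx2
  obtain ⟨E, hE⟩ : ∃ E, E = ∑' n, x n ^ 2 := ⟨_, rfl⟩
  obtain ⟨M, hM⟩ : ∃ M : ℕ → ℝ, ∀ n, M n = √E := ⟨fun _ => _, fun _ => rfl⟩
  have hYa : ∀ N : ℕ, ∀ t ∈ Icc (0 : ℝ) ((N : ℝ) + 1), ∀ n, |Y N n t| ≤ M n := by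
    intro N t ht n
    rw [hM, hE]
    rcases le_or_gt n N with hn | hn
    · have h2 := gal_energy (hY N) ht
      have h3 : 0 ≤ 2 * ν * ∫ s in (0 : ℝ)..t, ∑ n ∈ Finset.range (N + 1), 4 ^ n * Y N n s ^ 2 :=
        mul_nonneg (by positivity) (intervalIntegral.integral_nonneg ht.1 fun s _ =>
          Finset.sum_nonneg fun n _ => by positivity)
      have h4 : Y N n t ^ 2 ≤ ∑ k ∈ Finset.range (N + 1), Y N k t ^ 2 :=
        Finset.single_le_sum (f := fun k => Y N k t ^ 2) (fun k _ => sq_nonneg _)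
          (Finset.mem_range.2 (Nat.lt_succ_of_le hn))
      have h5 := hx2.sum_le_tsum (Finset.range (N + 1)) fun n _ => sq_nonneg _
      apply Real.abs_le_sqrt
      linarith
    · rw [(hY N).zero n hn t, abs_zero]
      exact Real.sqrt_nonneg _
  obtain ⟨R, hR⟩ : ∃ R, R = Rb β ν M n₀ := ⟨_, rfl⟩
  have hR0 : 0 ≤ R := by
    rw [hR]
    exact (abs_nonneg _).trans (rhs_bd hν (hYa 0 0 ⟨le_rfl, by positivity⟩) n₀)
  obtain ⟨T, hT⟩ : ∃ T, T = min 1 (ν / 16 / (2 ^ n₀ * (R + 1))) := ⟨_, rfl⟩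
  have hT0 : 0 < T := by rw [hT]; exact lt_min one_pos (by positivity)
  have hT1 : T ≤ 1 := by rw [hT]; exact min_le_left _ _
  have hT2 : 2 ^ n₀ * (R * T) ≤ ν / 16 := by
    have h1 : T ≤ ν / 16 / (2 ^ n₀ * (R + 1)) := by rw [hT]; exact min_le_right _ _
    rw [le_div_iff₀ (by positivity)] at h1
    have h2 : 0 ≤ 2 ^ n₀ * T := by positivity
    linarith
  have hTN : ∀ N : ℕ, T ≤ (N : ℝ) + 1 := fun N => hT1.trans (by linarith [Nat.cast_nonneg (α := ℝ) N])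
  have hG : ∀ N : ℕ, Gal β ν T N x (Y N) := fun N => gal_mono (hY N) (hTN N)
  have h0 : ∀ N : ℕ, ∀ t ∈ Icc 0 T, (2 : ℝ) ^ n₀ * |Y N n₀ t| ≤ ν / 8 := by
    intro N t ht
    rcases le_or_gt n₀ N with hn | hn
    · have h1 := Convex.norm_image_sub_le_of_norm_hasDerivWithin_le (f := Y N n₀)
        (f' := fun t => rhs β ν (fun k => Y N k t) n₀) (C := R)
        (s := Icc (0 : ℝ) T) (x := 0) (y := t)
        (fun t ht => (hG N).ode n₀ hn t ht) (fun t ht => by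
          rw [hR]
          exact rhs_bd hν (hYa N t ⟨ht.1, ht.2.trans (hTN N)⟩) n₀) (convex_Icc _ _)
        ⟨le_rfl, hT0.le⟩ ht
      rw [Real.norm_eq_abs, Real.norm_eq_abs, sub_zero, abs_of_nonneg ht.1,
        (hG N).init n₀ hn] at h1
      have h2 : |Y N n₀ t| ≤ |x n₀| + R * T := by
        have h3 := abs_sub_abs_le_abs_sub (Y N n₀ t) (x n₀)
        have h4 : R * t ≤ R * T := mul_le_mul_of_nonneg_left ht.2 hR0
        linarith
      have h5 := mul_le_mul_of_nonneg_left h2 (by positivity : (0 : ℝ) ≤ 2 ^ n₀)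
      have h6 := hn₀ n₀ le_rfl
      linarith
    · rw [(hG N).zero n₀ hn t, abs_zero, mul_zero]
      positivity
  have hx8 : ∀ n ≥ n₀, (2 : ℝ) ^ n * |x n| ≤ ν / 8 := fun n hn => by
    have := hn₀ n hn
    linarith
  have hpass : ∀ (n : ℕ) (t c : ℝ), 0 ≤ t → (∀ N : ℕ, (2 : ℝ) ^ n * |Y N n t| ≤ c) →
      (2 : ℝ) ^ n * |X n t| ≤ c := by
    intro n t c ht hc
    exact le_of_tendsto' (((hYlim n t ht).abs).const_mul _) fun k => hc (φ k)
  refine ⟨X, hX, T, hT0, n₀, ?_, ?_⟩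
  · intro n hn t ht
    exact hpass n t _ ht.1 fun N => tail_small hβ hν (hG N) hx8 (h0 N) n hn t ht
  · intro t ht
    have hE0 : 0 ≤ √E := Real.sqrt_nonneg _
    have hq1 : 0 ≤ (4 : ℝ) ^ n₀ * √E := by positivity
    have ht0 : 0 < t := ht.1
    have hq2 : 0 ≤ (2 : ℝ) ^ n₀ * (ν / 8 * (1 + 1 / (ν * t))) := by positivity
    refine ⟨4 ^ n₀ * √E + 2 ^ n₀ * (ν / 8 * (1 + 1 / (ν * t))), fun n => ?_⟩
    rcases le_total n₀ n with hn | hn
    · obtain ⟨m, rfl⟩ := Nat.exists_eq_add_of_le hn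
      have h1 := hpass (n₀ + m) t _ ht0.le fun N =>
        tail_super hβ hν (hG N) hx8 (h0 N) m t ⟨ht0.le, ht.2⟩
      have h2 : Real.exp (-(ν * 2 ^ m) * t) ≤ 1 / (ν * t) * (1 / 2) ^ m := by
        have h4 : ν * 2 ^ m * t ≤ Real.exp (ν * 2 ^ m * t) := by
          have := Real.add_one_le_exp (ν * 2 ^ m * t)
          linarith
        have h5 : Real.exp (-(ν * 2 ^ m) * t) = 1 / Real.exp (ν * 2 ^ m * t) := by
          rw [one_div, ← Real.exp_neg]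
          congr 1
          ring
        rw [h5]
        calc 1 / Real.exp (ν * 2 ^ m * t) ≤ 1 / (ν * 2 ^ m * t) := by gcongr
          _ = _ := by
            rw [one_div_pow]
            field_simp
      have h6 : (4 : ℝ) ^ (n₀ + m) * |X (n₀ + m) t|
          = 2 ^ n₀ * (2 ^ m * ((2 : ℝ) ^ (n₀ + m) * |X (n₀ + m) t|)) := by
        rw [show (4 : ℝ) ^ (n₀ + m) = 2 ^ (n₀ + m) * 2 ^ (n₀ + m) by
          rw [← mul_pow]; norm_num, pow_add (2 : ℝ) n₀ m]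
        ring
      have h7 : 2 ^ m * ((2 : ℝ) ^ (n₀ + m) * |X (n₀ + m) t|) ≤ ν / 8 * (1 + 1 / (ν * t)) := by
        calc 2 ^ m * ((2 : ℝ) ^ (n₀ + m) * |X (n₀ + m) t|)
            ≤ 2 ^ m * (ν / 8 * ((1 / 2) ^ m + 1 / (ν * t) * (1 / 2) ^ m)) := by
              refine mul_le_mul_of_nonneg_left (h1.trans ?_) (by positivity)
              gcongr
          _ = ν / 8 * (1 + 1 / (ν * t)) := by
              rw [one_div_pow]
              field_simp
      rw [h6]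
      have h8 := mul_le_mul_of_nonneg_left h7 (by positivity : (0 : ℝ) ≤ 2 ^ n₀)
      linarith
    · have h1 : (4 : ℝ) ^ n ≤ 4 ^ n₀ := pow_le_pow_right₀ (by norm_num) hn
      have h2 : |X n t| ≤ √E := by
        refine le_of_tendsto' ((hYlim n t ht0.le).abs) fun k => ?_
        have := hYa (φ k) t ⟨ht0.le, ht.2.trans (hTN _)⟩ n
        rwa [hM] at this
      have h4 : (4 : ℝ) ^ n * |X n t| ≤ 4 ^ n₀ * √E := by gcongr
      linarith

/-- All the Leray-Hopf solutions are smooth, `β ≤ 3`. -/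
theorem lh_smooth (hR : StmReal) {β ν : ℝ} {x : ℕ → ℝ} {X : ℕ → ℝ → ℝ} (hβ : β ≤ 3) (hν : 0 < ν)
    (hX : LH β ν x X) {τ : ℝ} (r : ℝ) (hτ : 0 < τ) :
    ∃ K, ∀ (n : ℕ) t, τ ≤ t → (2 : ℝ) ^ (r * n) * |X n t| ≤ K := by
  have hne : ∀ a : ℝ, 0 < a → (ae (volume.restrict (Ioc (0 : ℝ) a))).NeBot := by
    intro a ha
    apply ae_neBot.2
    rw [Ne, Measure.restrict_eq_zero, Real.volume_Ioc]
    simp only [sub_zero, ENNReal.ofReal_eq_zero, not_le]
    exact ha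
  -- a good time
  have h1 := diss_ae hν hX.sol hX.en0 (T := τ / 4) (by positivity)
  have h2 : ∀ᵐ s ∂(volume.restrict (Ioc 0 (τ / 4))), 0 < s → EI ν X s := ae_restrict_of_ae hX.en
  have h3 : ∀ᵐ s ∂(volume.restrict (Ioc 0 (τ / 4))), s ∈ Ioc 0 (τ / 4) :=
    ae_restrict_mem measurableSet_Ioc
  have := hne (τ / 4) (by positivity)
  obtain ⟨a, ⟨K, hK⟩, hEI, ha⟩ := ((h1.and (h2.and h3)).exists)
  have hEa := hEI ha.1
  have ha0 : 0 < a := ha.1
  have hs4 : Summable fun n : ℕ => (4 : ℝ) ^ n * X n a ^ 2 :=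
    summable_of_sum_range_le (fun n => by positivity) hK
  obtain ⟨Y, hY, T, hT, n₀, hYt, hYK⟩ := crit_exist hβ hν hs4
  have hu := ws_crit hβ hν hY.sol hY.en0 hYt (shift0 hX.sol ha0.le) (ei_shift.2 hEa)
  -- a second good time
  obtain ⟨c, hc⟩ : ∃ c, c = min T (τ / 4) := ⟨_, rfl⟩
  have hc0 : 0 < c := by rw [hc]; exact lt_min hT (by positivity)
  have hcT : c ≤ T := by rw [hc]; exact min_le_left _ _
  have hcτ : c ≤ τ / 4 := by rw [hc]; exact min_le_right _ _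
  have h4 : ∀ᵐ s : ℝ, 0 < a + s → EI ν X (a + s) :=
    (measurePreserving_add_left volume a).quasiMeasurePreserving.tendsto_ae.eventually hX.en
  have h5 : ∀ᵐ s ∂(volume.restrict (Ioc 0 c)), 0 < a + s → EI ν X (a + s) := ae_restrict_of_ae h4
  have h6 : ∀ᵐ s ∂(volume.restrict (Ioc 0 c)), s ∈ Ioc 0 c := ae_restrict_mem measurableSet_Ioc
  have := hne c hc0
  obtain ⟨b, hEIb, hb⟩ := (h5.and h6).exists
  have hb0 : 0 < b := hb.1
  have hbc : b ≤ c := hb.2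
  have hEb := hEIb (by linarith)
  obtain ⟨K₂, hK₂⟩ := hYK b ⟨hb0, hbc.trans hcT⟩
  obtain ⟨W, -, -, hWu, -, hWs⟩ := hR β ν 2 (fun n => X n (a + b)) hβ hν two_pos (by linarith)
    ⟨K₂, fun n => by
      have e : (2 : ℝ) ^ ((2 : ℝ) * n) = 4 ^ n := by
        rw [Real.rpow_mul two_pos.le, Real.rpow_natCast]
        norm_num
      have e2 : X n (a + b) = Y n b := hu n b ⟨hb0.le, hbc.trans hcT⟩
      rw [e, e2]
      exact hK₂ n⟩
  have h7 := hWu _ (shift0 hX.sol (by linarith)) (ei_shift.2 hEb)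
  obtain ⟨K', hK'⟩ := hWs (τ / 2) r (by positivity)
  refine ⟨K', fun n t ht => ?_⟩
  have h8 := h7 n (t - (a + b)) (by linarith [ha.2])
  rw [add_sub_cancel] at h8
  rw [h8]
  exact hK' n (t - (a + b)) (by linarith [ha.2])

end Run7.h969.Dz
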