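import Pool.Agent.Run7.h969.Dz.Tail

/-!
The dyadic model for real data: weak-strong uniqueness with critical decay (helper969).
-/

set_option autoImplicit false

open Set Filter Topology MeasureTheory

namespace Run7.h969.Dz

open Run7.h969.Dy

/-- The dissipation of the shell `N` tends to zero. -/
lemma diss_tend {β ν : ℝ} {x : ℕ → ℝ} {X : ℕ → ℝ → ℝ} (hν : 0 < ν) (hX : IsDy β ν x X)
    (hen : EI ν X 0) {T : ℝ} (hT : 0 ≤ T) :
    Tendsto (fun N : ℕ => ∫ s in (0 : ℝ)..T, 4 ^ N * X N s ^ 2) atTop (𝓝 0) := by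
  have hc : ∀ k, ContinuousOn (X k) (Icc 0 T) := fun k => (hX.cont k).mono Icc_subset_Ici_self
  have hi : ∀ n : ℕ, IntervalIntegrable (fun s => (4 : ℝ) ^ n * X n s ^ 2) volume 0 T := fun n =>
    ContinuousOn.intervalIntegrable (by
      rw [uIcc_of_le hT]
      exact continuousOn_const.mul ((hc n).pow 2))
  have h0 : ∀ n : ℕ, 0 ≤ ∫ s in (0 : ℝ)..T, (4 : ℝ) ^ n * X n s ^ 2 := fun n =>
    intervalIntegral.integral_nonneg hT fun s _ => by positivity
  have hs : Summable fun N : ℕ => ∫ s in (0 : ℝ)..T, (4 : ℝ) ^ N * X N s ^ 2 := by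
    refine summable_of_sum_range_le h0 (c := (∑' n, X n 0 ^ 2) / (2 * ν)) fun N => ?_
    have h1 := hen.2 T hT N
    have h2 : 0 ≤ ∑ n ∈ Finset.range N, X n T ^ 2 := Finset.sum_nonneg fun n _ => sq_nonneg _
    rw [← intervalIntegral.integral_finsetSum fun n _ => hi n, le_div_iff₀ (by positivity)]
    linarith
  exact hs.tendsto_atTop_zero

set_option maxHeartbeats 1000000 in
/-- Weak-strong uniqueness for solutions with small tails in the critical norm. -/
theorem ws_crit {β ν T₀ : ℝ} {n₀ : ℕ} {x : ℕ → ℝ} {X Z : ℕ → ℝ → ℝ} (hβ : β ≤ 3) (hν : 0 < ν)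
    (hX : IsDy β ν x X) (hXe : EI ν X 0)
    (htail : ∀ n ≥ n₀, ∀ t ∈ Icc 0 T₀, (2 : ℝ) ^ n * |X n t| ≤ ν / 4)
    (hZ : IsDy β ν x Z) (hZe : EI ν Z 0) : ∀ n, ∀ t ∈ Icc 0 T₀, Z n t = X n t := by
  obtain ⟨B, hB⟩ : ∃ B : ℝ, B = 2 ^ β := ⟨_, rfl⟩
  have hB0 : 0 < B := by rw [hB]; exact Real.rpow_pos_of_pos two_pos _
  have hB3 : ∀ n : ℕ, B ^ n ≤ 2 ^ n * 4 ^ n := by
    intro n
    have := rate3 hβ n
    rwa [pow_mul_nat, ← hB] at this
  -- the energy
  obtain ⟨E, hE⟩ : ∃ E, E = ∑' n, x n ^ 2 := ⟨_, rfl⟩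
  have hE0 : 0 ≤ E := by rw [hE]; exact tsum_nonneg fun n => sq_nonneg _
  have hsum : Summable fun n => x n ^ 2 := by
    have := hXe.1
    simpa only [hX.init] using this
  have hXen : ∀ t, 0 ≤ t → ∀ N : ℕ, ∑ n ∈ Finset.range N, X n t ^ 2
      + 2 * ν * ∫ r in (0 : ℝ)..t, ∑ n ∈ Finset.range N, 4 ^ n * X n r ^ 2 ≤ E := by
    intro t ht N
    have := hXe.2 t ht N
    simpa only [hX.init, ← hE] using this
  have hZen : ∀ t, 0 ≤ t → ∀ N : ℕ, ∑ n ∈ Finset.range N, Z n t ^ 2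
      + 2 * ν * ∫ r in (0 : ℝ)..t, ∑ n ∈ Finset.range N, 4 ^ n * Z n r ^ 2 ≤ E := by
    intro t ht N
    have := hZe.2 t ht N
    simpa only [hZ.init, ← hE] using this
  have hXb : ∀ (n : ℕ) t, 0 ≤ t → |X n t| ≤ √E := by
    intro n t ht
    apply Real.abs_le_sqrt
    have h1 := hXen t ht (n + 1)
    have h2 : X n t ^ 2 ≤ ∑ k ∈ Finset.range (n + 1), X k t ^ 2 :=
      Finset.single_le_sum (f := fun k => X k t ^ 2) (fun k _ => sq_nonneg _)
        (Finset.mem_range.2 (Nat.lt_succ_self n))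
    have h3 : 0 ≤ ∫ r in (0 : ℝ)..t, ∑ n ∈ Finset.range (n + 1), 4 ^ n * X n r ^ 2 :=
      intervalIntegral.integral_nonneg ht fun r _ => Finset.sum_nonneg fun k _ => by positivity
    have h4 : 0 ≤ 2 * ν * ∫ r in (0 : ℝ)..t, ∑ n ∈ Finset.range (n + 1), 4 ^ n * X n r ^ 2 := by
      positivity
    linarith
  -- the constant of absorption
  obtain ⟨K, hKd⟩ : ∃ K, K = ∑ n ∈ Finset.range n₀, B ^ n * √E := ⟨_, rfl⟩
  have hK0 : 0 ≤ K := by rw [hKd]; exact Finset.sum_nonneg fun n _ => by positivity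
  have hlow : ∀ n : ℕ, n < n₀ → B ^ n * √E ≤ K := by
    intro n hn
    rw [hKd]
    exact Finset.single_le_sum (f := fun n => B ^ n * √E) (fun n _ => by positivity)
      (Finset.mem_range.2 hn)
  have hKn : ∀ n : ℕ, ∀ t ∈ Icc 0 T₀, B ^ n * |X n t| ≤ ν / 4 * 4 ^ n + K := by
    intro n t ht
    by_cases hn : n₀ ≤ n
    · have h1 := htail n hn t ht
      calc B ^ n * |X n t| ≤ (2 ^ n * 4 ^ n) * |X n t| :=
            mul_le_mul_of_nonneg_right (hB3 n) (abs_nonneg _)
        _ = 4 ^ n * (2 ^ n * |X n t|) := by ring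
        _ ≤ 4 ^ n * (ν / 4) := mul_le_mul_of_nonneg_left h1 (by positivity)
        _ ≤ _ := by linarith
    · have h1 := mul_le_mul_of_nonneg_left (hXb n t ht.1) (by positivity : 0 ≤ B ^ n)
      have h2 := hlow n (by omega)
      have h3 : 0 ≤ ν / 4 * 4 ^ n := by positivity
      linarith
  have hKn1 : ∀ n : ℕ, ∀ t ∈ Icc 0 T₀, B ^ n * |X (n + 1) t| ≤ ν / 4 * 4 ^ n + K := by
    intro n t ht
    by_cases hn : n₀ ≤ n
    · have h1 := htail (n + 1) (by omega) t ht
      calc B ^ n * |X (n + 1) t| ≤ (2 ^ n * 4 ^ n) * |X (n + 1) t| :=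
            mul_le_mul_of_nonneg_right (hB3 n) (abs_nonneg _)
        _ = 4 ^ n / 2 * (2 ^ (n + 1) * |X (n + 1) t|) := by ring
        _ ≤ 4 ^ n / 2 * (ν / 4) := mul_le_mul_of_nonneg_left h1 (by positivity)
        _ ≤ ν / 4 * 4 ^ n + K := by
          have : 0 ≤ 4 ^ n / 2 * (ν / 4) := by positivity
          linarith
    · have h1 := mul_le_mul_of_nonneg_left (hXb (n + 1) t ht.1) (by positivity : 0 ≤ B ^ n)
      have h2 := hlow n (by omega)
      have h3 : 0 ≤ ν / 4 * 4 ^ n := by positivity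
      linarith
  intro n T hTT
  have hT := hTT.1
  have hcX : ∀ k, ContinuousOn (X k) (Icc 0 T) := fun k => (hX.cont k).mono Icc_subset_Ici_self
  have hcZ : ∀ k, ContinuousOn (Z k) (Icc 0 T) := fun k => (hZ.cont k).mono Icc_subset_Ici_self
  obtain ⟨D, hD⟩ : ∃ D : (ℕ → ℝ → ℝ) → ℕ → ℝ, D = fun Y N =>
    ∫ s in (0 : ℝ)..T, (4 : ℝ) ^ N * Y N s ^ 2 := ⟨_, rfl⟩
  -- the bound for every `N`
  obtain ⟨ε, hε⟩ : ∃ ε : ℕ → ℝ, ε = fun N => 2 * (E - ∑ n ∈ Finset.range (N + 1), x n ^ 2)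
    + 4 * ν * (D X N + D X (N + 1) + D Z N + D Z (N + 1)) := ⟨_, rfl⟩
  have key : ∀ N : ℕ, n₀ ≤ N → ∑ k ∈ Finset.range (N + 1), (X k T - Z k T) ^ 2
      ≤ ε N * Real.exp (4 * K * T) := by
    intro N hN
    have hyc : ContinuousOn (fun t => ∑ k ∈ Finset.range (N + 1), (X k t - Z k t) ^ 2) (Icc 0 T) :=
      continuousOn_finsetSum _ fun k _ => ((hcX k).sub (hcZ k)).pow 2
    refine gron hyc (by positivity) (fun t ht => ?_) T ⟨hT, le_rfl⟩
    have hsub : Icc 0 t ⊆ Icc 0 T := Icc_subset_Icc_right ht.2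
    have hii : ∀ f : ℝ → ℝ, ContinuousOn f (Icc 0 T) → IntervalIntegrable f volume 0 t := by
      intro f hf
      refine ContinuousOn.intervalIntegrable ?_
      rw [uIcc_of_le ht.1]
      exact hf.mono hsub
    -- the product
    have hcr : ContinuousOn (fun r => ∑ k ∈ Finset.range (N + 1),
        (X k r * rhs β ν (fun j => Z j r) k + Z k r * rhs β ν (fun j => X j r) k)) (Icc 0 T) :=
      continuousOn_finsetSum _ fun k _ =>
        ((hcX k).mul (Pool.Agent.Run7.h32.Dy.rhs_cont hcZ k)).add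
          ((hcZ k).mul (Pool.Agent.Run7.h32.Dy.rhs_cont hcX k))
    have hJ : ∫ r in (0 : ℝ)..t, ∑ k ∈ Finset.range (N + 1),
        (X k r * rhs β ν (fun j => Z j r) k + Z k r * rhs β ν (fun j => X j r) k)
        = ∑ k ∈ Finset.range (N + 1), X k t * Z k t - ∑ k ∈ Finset.range (N + 1), x k ^ 2 := by
      have h0 : ∑ k ∈ Finset.range (N + 1), x k ^ 2
          = ∑ k ∈ Finset.range (N + 1), X k 0 * Z k 0 :=
        Finset.sum_congr rfl fun k _ => by rw [hX.init, hZ.init, pow_two]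
      rw [h0]
      refine intervalIntegral.integral_eq_sub_of_hasDerivAt_of_le ht.1
        (f := fun r => ∑ k ∈ Finset.range (N + 1), X k r * Z k r) ?_ ?_ (hii _ hcr)
      · exact continuousOn_finsetSum _ fun k _ => ((hcX k).mono hsub).mul ((hcZ k).mono hsub)
      · intro r hr
        have h1 : HasDerivAt (fun r => ∑ k ∈ Finset.range (N + 1), X k r * Z k r)
            (∑ k ∈ Finset.range (N + 1), (rhs β ν (fun j => X j r) k * Z k r
              + X k r * rhs β ν (fun j => Z j r) k)) r :=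
          HasDerivAt.fun_sum fun k _ => (hX.ode k r hr.1).fun_mul (hZ.ode k r hr.1)
        refine h1.congr_deriv ?_
        exact Finset.sum_congr rfl fun k _ => by ring
    -- the pointwise bound
    have hpt : ∀ r ∈ Icc 0 t, -2 * ∑ k ∈ Finset.range (N + 1),
        (X k r * rhs β ν (fun j => Z j r) k + Z k r * rhs β ν (fun j => X j r) k)
        ≤ 2 * ν * ∑ n ∈ Finset.range (N + 1), 4 ^ n * X n r ^ 2
          + 2 * ν * ∑ n ∈ Finset.range (N + 1), 4 ^ n * Z n r ^ 2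
          + 4 * K * ∑ k ∈ Finset.range (N + 1), (X k r - Z k r) ^ 2
          + 4 * ν * (4 ^ N * X N r ^ 2 + 4 ^ (N + 1) * X (N + 1) r ^ 2
            + 4 ^ N * Z N r ^ 2 + 4 ^ (N + 1) * Z (N + 1) r ^ 2) := by
      intro r hr
      have hr0 : r ∈ Icc 0 T₀ := ⟨hr.1, hr.2.trans (ht.2.trans hTT.2)⟩
      have h1 := cross_id β ν (fun j => X j r) (fun j => Z j r) N
      have h2 := bulk_le (β := β) (K := K) (x := fun j => X j r) (d := fun j => X j r - Z j r) hν hK0
        (fun n => by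
          rw [pow_mul_nat, ← hB]
          exact hKn n r hr0)
        (fun n => by
          rw [pow_mul_nat, ← hB]
          exact hKn1 n r hr0) N
      have g1 : |X N r| ≤ ν / 4 / 2 ^ N := by
        rw [le_div_iff₀ (by positivity), mul_comm]
        exact htail N hN r hr0
      have g2 : |X (N + 1) r| ≤ ν / 4 / 2 ^ N := by
        rw [le_div_iff₀ (by positivity), mul_comm]
        have h3 := htail (N + 1) (by omega) r hr0
        have h4 : (2 : ℝ) ^ N * |X (N + 1) r| ≤ 2 ^ (N + 1) * |X (N + 1) r| :=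
          mul_le_mul_of_nonneg_right (pow_le_pow_right₀ one_le_two (Nat.le_succ N)) (abs_nonneg _)
        linarith
      have h3 := bdry_le (c := Z N r) (d := Z (N + 1) r) g1 g2
      have h4 : B ^ N * (8 * (ν / 4 / 2 ^ N) * (X N r ^ 2 + X (N + 1) r ^ 2 + Z N r ^ 2
          + Z (N + 1) r ^ 2)) ≤ 2 * ν * (4 ^ N * X N r ^ 2 + 4 ^ (N + 1) * X (N + 1) r ^ 2
            + 4 ^ N * Z N r ^ 2 + 4 ^ (N + 1) * Z (N + 1) r ^ 2) := by
        have b2 : ∀ y : ℝ, (4 : ℝ) ^ N * y ^ 2 ≤ 4 ^ (N + 1) * y ^ 2 := fun y =>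
          mul_le_mul_of_nonneg_right (pow_le_pow_right₀ (by norm_num) (Nat.le_succ N))
            (sq_nonneg _)
        calc B ^ N * (8 * (ν / 4 / 2 ^ N) * (X N r ^ 2 + X (N + 1) r ^ 2 + Z N r ^ 2
            + Z (N + 1) r ^ 2)) ≤ (2 ^ N * 4 ^ N) * (8 * (ν / 4 / 2 ^ N) * (X N r ^ 2
            + X (N + 1) r ^ 2 + Z N r ^ 2 + Z (N + 1) r ^ 2)) :=
              mul_le_mul_of_nonneg_right (hB3 N) (by positivity)
          _ = 2 * ν * (4 ^ N * X N r ^ 2 + 4 ^ N * X (N + 1) r ^ 2 + 4 ^ N * Z N r ^ 2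
              + 4 ^ N * Z (N + 1) r ^ 2) := by
              field_simp
              ring
          _ ≤ _ := by
              apply mul_le_mul_of_nonneg_left _ (by positivity)
              linarith [b2 (X (N + 1) r), b2 (Z (N + 1) r)]
      have h5 := mul_le_mul_of_nonneg_left h3 (by positivity : 0 ≤ B ^ N)
      have h6 : (2 : ℝ) ^ (β * N) = B ^ N := by rw [pow_mul_nat, hB]
      rw [h6] at h1
      rw [h1]
      nlinarith
    -- the integral
    have hI : ∀ (Y : ℕ → ℝ → ℝ), (∀ k, ContinuousOn (Y k) (Icc 0 T)) → ∀ M : ℕ,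
        IntervalIntegrable (fun r => ∑ n ∈ Finset.range M, (4 : ℝ) ^ n * Y n r ^ 2) volume 0 t :=
      fun Y hY M => hii _ (continuousOn_finsetSum _ fun n _ => continuousOn_const.mul ((hY n).pow 2))
    have hJ1 : ∀ (Y : ℕ → ℝ → ℝ), (∀ k, ContinuousOn (Y k) (Icc 0 T)) → ∀ M : ℕ,
        IntervalIntegrable (fun r => (4 : ℝ) ^ M * Y M r ^ 2) volume 0 t :=
      fun Y hY M => hii _ (continuousOn_const.mul ((hY M).pow 2))
    have h1 : -2 * ∫ r in (0 : ℝ)..t, ∑ k ∈ Finset.range (N + 1),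
        (X k r * rhs β ν (fun j => Z j r) k + Z k r * rhs β ν (fun j => X j r) k)
        ≤ 2 * ν * (∫ r in (0 : ℝ)..t, ∑ n ∈ Finset.range (N + 1), 4 ^ n * X n r ^ 2)
          + 2 * ν * (∫ r in (0 : ℝ)..t, ∑ n ∈ Finset.range (N + 1), 4 ^ n * Z n r ^ 2)
          + 4 * K * (∫ r in (0 : ℝ)..t, ∑ k ∈ Finset.range (N + 1), (X k r - Z k r) ^ 2)
          + 4 * ν * ((∫ r in (0 : ℝ)..t, 4 ^ N * X N r ^ 2)
            + (∫ r in (0 : ℝ)..t, 4 ^ (N + 1) * X (N + 1) r ^ 2)
            + (∫ r in (0 : ℝ)..t, 4 ^ N * Z N r ^ 2)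
            + ∫ r in (0 : ℝ)..t, 4 ^ (N + 1) * Z (N + 1) r ^ 2) := by
      have hK4 := ((hJ1 X hcX N).add (hJ1 X hcX (N + 1))).add (hJ1 Z hcZ N)
      rw [← intervalIntegral.integral_add (hJ1 X hcX N) (hJ1 X hcX (N + 1)),
        ← intervalIntegral.integral_add ((hJ1 X hcX N).add (hJ1 X hcX (N + 1))) (hJ1 Z hcZ N),
        ← intervalIntegral.integral_add hK4 (hJ1 Z hcZ (N + 1)),
        ← intervalIntegral.integral_const_mul, ← intervalIntegral.integral_const_mul,
        ← intervalIntegral.integral_const_mul, ← intervalIntegral.integral_const_mul,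
        ← intervalIntegral.integral_const_mul,
        ← intervalIntegral.integral_add ((hI X hcX _).const_mul _) ((hI Z hcZ _).const_mul _),
        ← intervalIntegral.integral_add (((hI X hcX _).const_mul _).add
          ((hI Z hcZ _).const_mul _)) ((hii _ hyc).const_mul _),
        ← intervalIntegral.integral_add ((((hI X hcX _).const_mul _).add
          ((hI Z hcZ _).const_mul _)).add ((hii _ hyc).const_mul _))
          ((hK4.add (hJ1 Z hcZ (N + 1))).const_mul _)]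
      refine intervalIntegral.integral_mono_on ht.1 ((hii _ hcr).const_mul _)
        (((((hI X hcX _).const_mul _).add
          ((hI Z hcZ _).const_mul _)).add ((hii _ hyc).const_mul _)).add
          ((hK4.add (hJ1 Z hcZ (N + 1))).const_mul _)) hpt
    have hmono : ∀ Y : ℕ → ℝ → ℝ, (∀ k, ContinuousOn (Y k) (Icc 0 T)) → ∀ M : ℕ,
        ∫ r in (0 : ℝ)..t, 4 ^ M * Y M r ^ 2 ≤ D Y M := by
      intro Y hY M
      rw [hD]
      simp only
      refine intervalIntegral.integral_mono_interval le_rfl ht.1 ht.2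
        (Eventually.of_forall fun r => by positivity) ?_
      refine ContinuousOn.intervalIntegrable ?_
      rw [uIcc_of_le hT]
      exact continuousOn_const.mul ((hY M).pow 2)
    have h5 : 4 * ν * ((∫ r in (0 : ℝ)..t, 4 ^ N * X N r ^ 2)
            + (∫ r in (0 : ℝ)..t, 4 ^ (N + 1) * X (N + 1) r ^ 2)
            + (∫ r in (0 : ℝ)..t, 4 ^ N * Z N r ^ 2)
            + ∫ r in (0 : ℝ)..t, 4 ^ (N + 1) * Z (N + 1) r ^ 2)
        ≤ 4 * ν * (D X N + D X (N + 1) + D Z N + D Z (N + 1)) := by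
      apply mul_le_mul_of_nonneg_left _ (by positivity)
      linarith [hmono X hcX N, hmono X hcX (N + 1), hmono Z hcZ N, hmono Z hcZ (N + 1)]
    have h6 := hXen t ht.1 (N + 1)
    have h7 := hZen t ht.1 (N + 1)
    have h8 : ∑ k ∈ Finset.range (N + 1), (X k t - Z k t) ^ 2
        = ∑ k ∈ Finset.range (N + 1), X k t ^ 2 + ∑ k ∈ Finset.range (N + 1), Z k t ^ 2
          - 2 * ∑ k ∈ Finset.range (N + 1), X k t * Z k t := by
      rw [Finset.mul_sum, ← Finset.sum_add_distrib, ← Finset.sum_sub_distrib]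
      exact Finset.sum_congr rfl fun k _ => by ring
    rw [h8, hε]
    simp only
    rw [hJ] at h1
    linarith
  -- the limit
  have hlim : Tendsto (fun N : ℕ => ε N * Real.exp (4 * K * T)) atTop (𝓝 0) := by
    have h1 : Tendsto (fun N : ℕ => E - ∑ n ∈ Finset.range (N + 1), x n ^ 2) atTop (𝓝 (E - E)) := by
      have h2 := (hsum.hasSum.tendsto_sum_nat).comp (tendsto_add_atTop_nat 1)
      rw [← hE] at h2
      exact h2.const_sub E
    have hDX : Tendsto (D X) atTop (𝓝 0) := by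
      rw [hD]
      exact diss_tend hν hX hXe hT
    have hDZ : Tendsto (D Z) atTop (𝓝 0) := by
      rw [hD]
      exact diss_tend hν hZ hZe hT
    have hDX1 := hDX.comp (tendsto_add_atTop_nat 1)
    have hDZ1 := hDZ.comp (tendsto_add_atTop_nat 1)
    have h4 := ((h1.const_mul 2).add ((((hDX.add hDX1).add hDZ).add hDZ1).const_mul
      (4 * ν))).mul_const (Real.exp (4 * K * T))
    have e0 : (2 * (E - E) + 4 * ν * (0 + 0 + 0 + 0)) * Real.exp (4 * K * T) = 0 := by ring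
    rw [e0] at h4
    rw [hε]
    exact h4
  have h1 : (X n T - Z n T) ^ 2 ≤ 0 := by
    refine ge_of_tendsto hlim ?_
    filter_upwards [eventually_ge_atTop n, eventually_ge_atTop n₀] with N hN hN0
    refine le_trans ?_ (key N hN0)
    exact Finset.single_le_sum (f := fun k => (X k T - Z k T) ^ 2) (fun k _ => sq_nonneg _)
      (Finset.mem_range.2 (Nat.lt_succ_of_le hN))
  have h2 : X n T - Z n T = 0 := by
    have := le_antisymm h1 (sq_nonneg _)
    exact pow_eq_zero_iff two_ne_zero |>.1 this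
  linarith

end Run7.h969.Dz
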